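import Mathlib

set_option autoImplicit false
set_option linter.unusedSectionVars false
set_option linter.unusedVariables false

open Set Filter Topology
open scoped Classical

namespace Pool.Agent.Work.MP_df74ac_an

universe u v

variable {Γ : Type u}

/-- the `n`-th seminorm squared -/
noncomputable def qn (u : Γ → ℝ) (n : ℕ) : ℝ :=
  ⨆ I : {I : Finset Γ // I.card ≤ n}, ∑ i ∈ I.1, u i ^ 2

/-- Day-type function -/
noncomputable def Phi (u : Γ → ℝ) : ℝ := ∑' n, (1 / 4 : ℝ) ^ n * qn u n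

instance (n : ℕ) : Nonempty {I : Finset Γ // I.card ≤ n} := ⟨⟨∅, by simp⟩⟩

lemma sum_le_card {u : Γ → ℝ} {M : ℝ} (hu : ∀ i, |u i| ≤ M) (I : Finset Γ) :
    ∑ i ∈ I, u i ^ 2 ≤ I.card * M ^ 2 := by
  rw [← nsmul_eq_mul]
  refine Finset.sum_le_card_nsmul _ _ _ fun i _ => ?_
  rw [← sq_abs]
  exact pow_le_pow_left₀ (abs_nonneg _) (hu i) 2

lemma sum_le_n {u : Γ → ℝ} {M : ℝ} (hu : ∀ i, |u i| ≤ M) {I : Finset Γ} {n : ℕ} (hI : I.card ≤ n) :
    ∑ i ∈ I, u i ^ 2 ≤ n * M ^ 2 := by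
  refine (sum_le_card hu I).trans ?_
  have : (I.card : ℝ) ≤ n := by exact_mod_cast hI
  exact mul_le_mul_of_nonneg_right this (sq_nonneg _)

lemma qn_bdd {u : Γ → ℝ} {M : ℝ} (hu : ∀ i, |u i| ≤ M) (n : ℕ) :
    BddAbove (range fun I : {I : Finset Γ // I.card ≤ n} => ∑ i ∈ I.1, u i ^ 2) := by
  refine ⟨n * M ^ 2, ?_⟩
  rintro _ ⟨I, rfl⟩
  exact sum_le_n hu I.2

lemma le_qn {u : Γ → ℝ} {M : ℝ} (hu : ∀ i, |u i| ≤ M) {n : ℕ} {I : Finset Γ} (hI : I.card ≤ n) :
    ∑ i ∈ I, u i ^ 2 ≤ qn u n :=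
  le_ciSup (qn_bdd hu n) (⟨I, hI⟩ : {I : Finset Γ // I.card ≤ n})

lemma qn_le {u : Γ → ℝ} {n : ℕ} {c : ℝ}
    (h : ∀ I : Finset Γ, I.card ≤ n → ∑ i ∈ I, u i ^ 2 ≤ c) : qn u n ≤ c :=
  ciSup_le fun I => h I.1 I.2

lemma qn_nonneg {u : Γ → ℝ} {M : ℝ} (hu : ∀ i, |u i| ≤ M) (n : ℕ) : 0 ≤ qn u n := by
  have := le_qn hu (n := n) (I := ∅) (by simp)
  simpa using this

lemma qn_le_M {u : Γ → ℝ} {M : ℝ} (hu : ∀ i, |u i| ≤ M) (n : ℕ) : qn u n ≤ n * M ^ 2 :=
  qn_le fun I hI => sum_le_n hu hI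

lemma wsum : Summable fun n : ℕ => (1 / 4 : ℝ) ^ n * n := by
  have := summable_pow_mul_geometric_of_norm_lt_one 1 (r := (1 / 4 : ℝ)) (by norm_num)
  refine this.congr fun n => ?_
  rw [pow_one, mul_comm]

/-- total weight -/
noncomputable def cW : ℝ := ∑' n : ℕ, (1 / 4 : ℝ) ^ n * n

lemma cW_nonneg : 0 ≤ cW := tsum_nonneg fun n => by positivity

lemma Phi_summable {u : Γ → ℝ} {M : ℝ} (hu : ∀ i, |u i| ≤ M) :
    Summable fun n => (1 / 4 : ℝ) ^ n * qn u n := by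
  refine Summable.of_nonneg_of_le (fun n => mul_nonneg (by positivity) (qn_nonneg hu n))
    (fun n => ?_) (wsum.mul_right (M ^ 2))
  rw [mul_assoc]
  exact mul_le_mul_of_nonneg_left (qn_le_M hu n) (by positivity)

lemma Phi_nonneg {u : Γ → ℝ} {M : ℝ} (hu : ∀ i, |u i| ≤ M) : 0 ≤ Phi u :=
  tsum_nonneg fun n => mul_nonneg (by positivity) (qn_nonneg hu n)

lemma Phi_le_M {u : Γ → ℝ} {M : ℝ} (hu : ∀ i, |u i| ≤ M) : Phi u ≤ cW * M ^ 2 := by
  unfold Phi cW
  rw [← tsum_mul_right]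
  refine (Phi_summable hu).tsum_le_tsum (fun n => ?_) (wsum.mul_right (M ^ 2))
  rw [mul_assoc]
  exact mul_le_mul_of_nonneg_left (qn_le_M hu n) (by positivity)

lemma qn_smul (u : Γ → ℝ) (c : ℝ) (n : ℕ) : qn (fun i => c * u i) n = c ^ 2 * qn u n := by
  unfold qn
  rw [Real.mul_iSup_of_nonneg (sq_nonneg c)]
  congr 1
  ext I
  rw [Finset.mul_sum]
  exact Finset.sum_congr rfl fun i _ => by ring

lemma Phi_smul (u : Γ → ℝ) (c : ℝ) : Phi (fun i => c * u i) = c ^ 2 * Phi u := by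
  unfold Phi
  rw [← tsum_mul_left]
  congr 1
  ext n
  rw [qn_smul]
  ring

lemma half_bdd {u v : Γ → ℝ} {M : ℝ} (hu : ∀ i, |u i| ≤ M) (hv : ∀ i, |v i| ≤ M) :
    ∀ i, |(u i + v i) / 2| ≤ M := by
  intro i
  have h1 := hu i
  have h2 := hv i
  rw [abs_le] at h1 h2 ⊢
  constructor <;> linarith [h1.1, h1.2, h2.1, h2.2]

lemma sum_half (u v : Γ → ℝ) (I : Finset Γ) :
    ∑ i ∈ I, ((u i + v i) / 2) ^ 2 = 1 / 2 * ∑ i ∈ I, u i ^ 2 + 1 / 2 * ∑ i ∈ I, v i ^ 2
      - 1 / 4 * ∑ i ∈ I, (u i - v i) ^ 2 := by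
  rw [Finset.mul_sum, Finset.mul_sum, Finset.mul_sum, ← Finset.sum_add_distrib,
    ← Finset.sum_sub_distrib]
  exact Finset.sum_congr rfl fun i _ => by ring

lemma qn_half {u v : Γ → ℝ} {M : ℝ} (hu : ∀ i, |u i| ≤ M) (hv : ∀ i, |v i| ≤ M) (n : ℕ) :
    qn (fun i => (u i + v i) / 2) n ≤ 1 / 2 * qn u n + 1 / 2 * qn v n := by
  refine qn_le fun I hI => ?_
  rw [sum_half]
  have h1 := le_qn hu hI
  have h2 := le_qn hv hI
  have h3 : 0 ≤ ∑ i ∈ I, (u i - v i) ^ 2 := Finset.sum_nonneg fun i _ => sq_nonneg _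
  linarith

/-- The exchange lemma. -/
lemma exchange {w : Γ → ℝ} {t : ℝ} (ht : 0 ≤ t) {F : Finset Γ} (hF : ∀ i, i ∈ F ↔ t ≤ |w i|)
    {I : Finset Γ} {j : ℕ} (hI : I.card ≤ F.card + j) :
    ∑ i ∈ I, w i ^ 2 ≤ ∑ i ∈ F, w i ^ 2 + j * t ^ 2 := by
  have h1 : ∑ i ∈ I, w i ^ 2 = ∑ i ∈ I \ F, w i ^ 2 + ∑ i ∈ I ∩ F, w i ^ 2 := by
    rw [add_comm]
    exact (Finset.sum_inter_add_sum_sdiff I F _).symm
  have h2 : ∑ i ∈ F, w i ^ 2 = ∑ i ∈ F \ I, w i ^ 2 + ∑ i ∈ I ∩ F, w i ^ 2 := by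
    rw [add_comm, Finset.inter_comm]
    exact (Finset.sum_inter_add_sum_sdiff F I _).symm
  have h3 : ∑ i ∈ I \ F, w i ^ 2 ≤ (I \ F).card * t ^ 2 := by
    rw [← nsmul_eq_mul]
    refine Finset.sum_le_card_nsmul _ _ _ fun i hi => ?_
    have h4 : ¬ (t ≤ |w i|) := fun h => (Finset.mem_sdiff.mp hi).2 ((hF i).mpr h)
    push Not at h4
    rw [← sq_abs]
    exact pow_le_pow_left₀ (abs_nonneg _) h4.le 2
  have h5 : (F \ I).card * t ^ 2 ≤ ∑ i ∈ F \ I, w i ^ 2 := by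
    rw [← nsmul_eq_mul]
    refine Finset.card_nsmul_le_sum _ _ _ fun i hi => ?_
    have h4 : t ≤ |w i| := (hF i).mp (Finset.mem_sdiff.mp hi).1
    rw [← sq_abs (w i)]
    exact pow_le_pow_left₀ ht h4 2
  have h6 : ((I \ F).card : ℝ) ≤ (F \ I).card + j := by
    have e1 := Finset.card_sdiff_add_card_inter I F
    have e2 := Finset.card_sdiff_add_card_inter F I
    rw [Finset.inter_comm] at e2
    have : (I \ F).card ≤ (F \ I).card + j := by omega
    exact_mod_cast this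
  have h7 : ((I \ F).card : ℝ) * t ^ 2 ≤ ((F \ I).card + j) * t ^ 2 :=
    mul_le_mul_of_nonneg_right h6 (sq_nonneg _)
  rw [h1, h2]
  linarith

/-- Some seminorm sees the difference. -/
lemma exists_gap {u v : Γ → ℝ} {M : ℝ} (hu : ∀ i, |u i| ≤ M) (hv : ∀ i, |v i| ≤ M)
    (hw : ∀ t : ℝ, 0 < t → {i | t ≤ |(u i + v i) / 2|}.Finite) (hne : u ≠ v) :
    ∃ n, qn (fun i => (u i + v i) / 2) n < 1 / 2 * qn u n + 1 / 2 * qn v n := by
  by_cases hcase : ∃ i, u i ≠ v i ∧ (u i + v i) / 2 ≠ 0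
  · obtain ⟨i₀, hi₀, hi₀'⟩ := hcase
    have ht : 0 < |(u i₀ + v i₀) / 2| := abs_pos.mpr hi₀'
    set t : ℝ := |(u i₀ + v i₀) / 2| with htdef
    set F : Finset Γ := (hw t ht).toFinset with hFdef
    have hF : ∀ i, i ∈ F ↔ t ≤ |(u i + v i) / 2| := fun i => by
      rw [hFdef, Set.Finite.mem_toFinset]; rfl
    refine ⟨F.card, ?_⟩
    have h1 : qn (fun i => (u i + v i) / 2) F.card ≤ ∑ i ∈ F, ((u i + v i) / 2) ^ 2 := by
      refine qn_le fun I hI => ?_
      have := exchange (w := fun i => (u i + v i) / 2) ht.le hF (I := I) (j := 0) (by simpa using hI)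
      simpa using this
    rw [sum_half] at h1
    have h2 := le_qn hu (le_refl F.card)
    have h3 := le_qn hv (le_refl F.card)
    have h4 : (u i₀ - v i₀) ^ 2 ≤ ∑ i ∈ F, (u i - v i) ^ 2 :=
      Finset.single_le_sum (f := fun i => (u i - v i) ^ 2) (fun i _ => sq_nonneg _)
        ((hF i₀).mpr le_rfl)
    have h5 : 0 < (u i₀ - v i₀) ^ 2 := by
      have := sub_ne_zero.mpr hi₀
      positivity
    linarith
  · push Not at hcase
    obtain ⟨i₀, hi₀⟩ := Function.ne_iff.mp hne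
    have hw0 := hcase i₀ hi₀
    have hv0 : v i₀ = - u i₀ := by linarith
    have hu0 : u i₀ ≠ 0 := by
      intro h
      apply hi₀
      rw [hv0, h, neg_zero]
    have hm : 0 < |u i₀| := abs_pos.mpr hu0
    set t : ℝ := |u i₀| / 2 with htdef
    have ht : 0 < t := by positivity
    set F : Finset Γ := (hw t ht).toFinset with hFdef
    have hF : ∀ i, i ∈ F ↔ t ≤ |(u i + v i) / 2| := fun i => by
      rw [hFdef, Set.Finite.mem_toFinset]; rfl
    have hi₀F : i₀ ∉ F := by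
      rw [hF, hw0, abs_zero]
      push Not
      exact ht
    have huF : ∀ i ∈ F, u i = (u i + v i) / 2 ∧ v i = (u i + v i) / 2 := by
      intro i hi
      by_contra hne'
      have h1 : u i ≠ v i := by
        intro h
        apply hne'
        constructor <;> rw [h] <;> ring
      have h2 := hcase i h1
      have h3 := (hF i).mp hi
      rw [h2, abs_zero] at h3
      linarith
    refine ⟨F.card + 1, ?_⟩
    have h1 : qn (fun i => (u i + v i) / 2) (F.card + 1) ≤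
        ∑ i ∈ F, ((u i + v i) / 2) ^ 2 + t ^ 2 := by
      refine qn_le fun I hI => ?_
      have := exchange (w := fun i => (u i + v i) / 2) ht.le hF (I := I) (j := 1) hI
      simpa using this
    have hcard : (insert i₀ F).card ≤ F.card + 1 := Finset.card_insert_le _ _
    have h2 := le_qn hu hcard
    have h3 := le_qn hv hcard
    rw [Finset.sum_insert hi₀F] at h2 h3
    have h4 : ∑ i ∈ F, u i ^ 2 = ∑ i ∈ F, ((u i + v i) / 2) ^ 2 :=
      Finset.sum_congr rfl fun i hi => by rw [← (huF i hi).1]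
    have h5 : ∑ i ∈ F, v i ^ 2 = ∑ i ∈ F, ((u i + v i) / 2) ^ 2 :=
      Finset.sum_congr rfl fun i hi => by rw [← (huF i hi).2]
    rw [h4] at h2
    rw [h5, hv0, neg_sq] at h3
    have h6 : u i₀ ^ 2 = 4 * t ^ 2 := by
      rw [htdef, div_pow, sq_abs]; ring
    have h7 : 0 < t ^ 2 := by positivity
    linarith

/-- Strict midpoint convexity. -/
lemma Phi_strict {u v : Γ → ℝ} {M : ℝ} (hu : ∀ i, |u i| ≤ M) (hv : ∀ i, |v i| ≤ M)
    (hw : ∀ t : ℝ, 0 < t → {i | t ≤ |(u i + v i) / 2|}.Finite) (hne : u ≠ v) :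
    Phi (fun i => (u i + v i) / 2) < 1 / 2 * Phi u + 1 / 2 * Phi v := by
  obtain ⟨n, hn⟩ := exists_gap hu hv hw hne
  have h1 : 1 / 2 * Phi u + 1 / 2 * Phi v =
      ∑' n, (1 / 4 : ℝ) ^ n * (1 / 2 * qn u n + 1 / 2 * qn v n) := by
    unfold Phi
    rw [← tsum_mul_left, ← tsum_mul_left, ← ((Phi_summable hu).mul_left _).tsum_add
      ((Phi_summable hv).mul_left _)]
    congr 1
    ext n
    ring
  rw [h1]
  unfold Phi
  refine Summable.tsum_lt_tsum (i := n) (fun m => ?_) ?_ (Phi_summable (half_bdd hu hv)) ?_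
  · exact mul_le_mul_of_nonneg_left (qn_half hu hv m) (by positivity)
  · exact mul_lt_mul_of_pos_left hn (by positivity)
  · have := ((Phi_summable hu).mul_left (1 / 2)).add ((Phi_summable hv).mul_left (1 / 2))
    refine this.congr fun n => ?_
    ring

/-- Perturbation inequality. -/
lemma Phi_add_le {u v : Γ → ℝ} {M : ℝ} (hu : ∀ i, |u i| ≤ M) (hv : ∀ i, |v i| ≤ M) {κ : ℝ}
    (hκ : 0 < κ) : Phi (fun i => u i + v i) ≤ (1 + κ) * Phi u + (1 + 1 / κ) * Phi v := by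
  have hs : ∀ i, |u i + v i| ≤ 2 * M := fun i => (abs_add_le _ _).trans (by
    linarith [hu i, hv i])
  have h1 : (1 + κ) * Phi u + (1 + 1 / κ) * Phi v =
      ∑' n, (1 / 4 : ℝ) ^ n * ((1 + κ) * qn u n + (1 + 1 / κ) * qn v n) := by
    unfold Phi
    rw [← tsum_mul_left, ← tsum_mul_left, ← ((Phi_summable hu).mul_left _).tsum_add
      ((Phi_summable hv).mul_left _)]
    congr 1
    ext n
    ring
  rw [h1]
  unfold Phi
  refine (Phi_summable hs).tsum_le_tsum (fun n => ?_) ?_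
  · refine mul_le_mul_of_nonneg_left (qn_le fun I hI => ?_) (by positivity)
    have h2 := le_qn hu hI
    have h3 := le_qn hv hI
    have h4 : ∑ i ∈ I, (u i + v i) ^ 2 ≤
        (1 + κ) * ∑ i ∈ I, u i ^ 2 + (1 + 1 / κ) * ∑ i ∈ I, v i ^ 2 := by
      rw [Finset.mul_sum, Finset.mul_sum, ← Finset.sum_add_distrib]
      refine Finset.sum_le_sum fun i _ => ?_
      have h5 : (1 + κ) * u i ^ 2 + (1 + 1 / κ) * v i ^ 2 - (u i + v i) ^ 2 =
          (κ * u i - v i) ^ 2 / κ := by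
        field_simp
        ring
      have h6 : 0 ≤ (κ * u i - v i) ^ 2 / κ := by positivity
      linarith
    have h7 := mul_le_mul_of_nonneg_left h2 (show (0 : ℝ) ≤ 1 + κ by linarith)
    have h8 := mul_le_mul_of_nonneg_left h3 (show (0 : ℝ) ≤ 1 + 1 / κ by positivity)
    linarith
  · have := ((Phi_summable hu).mul_left (1 + κ)).add ((Phi_summable hv).mul_left (1 + 1 / κ))
    refine this.congr fun n => ?_
    ring

/-- Lower semicontinuity. -/
lemma Phi_closed {P : Type*} [TopologicalSpace P] (u : P → Γ → ℝ) {M : ℝ}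
    (hu : ∀ p i, |u p i| ≤ M) (huc : ∀ i, Continuous fun p => u p i) {g : P → ℝ}
    (hg : Continuous g) (c : ℝ) : IsClosed {p | g p + Phi (u p) ≤ c} := by
  have h1 : {p | g p + Phi (u p) ≤ c} = ⋂ N : ℕ, ⋂ I : (n : ℕ) → {I : Finset Γ // I.card ≤ n},
      {p | g p + ∑ n ∈ Finset.range N, (1 / 4 : ℝ) ^ n * ∑ i ∈ (I n).1, u p i ^ 2 ≤ c} := by
    ext p
    rw [mem_iInter]
    constructor
    · intro hp N
      rw [mem_iInter]
      intro I
      have hp' : g p + Phi (u p) ≤ c := hp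
      show g p + ∑ n ∈ Finset.range N, (1 / 4 : ℝ) ^ n * ∑ i ∈ (I n).1, u p i ^ 2 ≤ c
      have h2 : ∑ n ∈ Finset.range N, (1 / 4 : ℝ) ^ n * ∑ i ∈ (I n).1, u p i ^ 2 ≤ Phi (u p) := by
        refine le_trans (Finset.sum_le_sum fun n _ => ?_)
          ((Phi_summable (hu p)).sum_le_tsum (Finset.range N) fun n _ =>
            mul_nonneg (by positivity) (qn_nonneg (hu p) n))
        exact mul_le_mul_of_nonneg_left (le_qn (hu p) (I n).2) (by positivity)
      linarith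
    · intro hp
      show g p + Phi (u p) ≤ c
      have h2 : Phi (u p) ≤ c - g p := by
        refine Real.tsum_le_of_sum_range_le
          (fun n => mul_nonneg (by positivity) (qn_nonneg (hu p) n)) fun N => ?_
        refine le_of_forall_pos_le_add fun η hη => ?_
        have h3 : ∀ n, ∃ I : {I : Finset Γ // I.card ≤ n},
            qn (u p) n - η / 2 < ∑ i ∈ I.1, u p i ^ 2 := by
          intro n
          exact exists_lt_of_lt_ciSup (show qn (u p) n - η / 2 < qn (u p) n by linarith)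
        choose I hI using h3
        have h4 := mem_iInter.mp (hp N) I
        have h4 : g p + ∑ n ∈ Finset.range N, (1 / 4 : ℝ) ^ n * ∑ i ∈ (I n).1, u p i ^ 2 ≤ c := h4
        have h5 : ∑ n ∈ Finset.range N, (1 / 4 : ℝ) ^ n * qn (u p) n ≤
            ∑ n ∈ Finset.range N, (1 / 4 : ℝ) ^ n * ∑ i ∈ (I n).1, u p i ^ 2 +
              ∑ n ∈ Finset.range N, (1 / 4 : ℝ) ^ n * (η / 2) := by
          rw [← Finset.sum_add_distrib]
          refine Finset.sum_le_sum fun n _ => ?_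
          rw [← mul_add]
          exact mul_le_mul_of_nonneg_left (by linarith [hI n]) (by positivity)
        have h6 : ∑ n ∈ Finset.range N, (1 / 4 : ℝ) ^ n * (η / 2) ≤ η := by
          rw [← Finset.sum_mul]
          have h7 : ∑ n ∈ Finset.range N, (1 / 4 : ℝ) ^ n ≤ 2 := by
            have h8 := (summable_geometric_of_lt_one (show (0 : ℝ) ≤ 1 / 4 by norm_num)
              (by norm_num)).sum_le_tsum (Finset.range N) (fun n _ => by positivity)
            rw [tsum_geometric_of_lt_one (by norm_num) (by norm_num)] at h8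
            refine h8.trans (by norm_num)
          nlinarith
        linarith
      linarith
  rw [h1]
  refine isClosed_iInter fun N => isClosed_iInter fun I => isClosed_le ?_ continuous_const
  refine hg.add (continuous_finsetSum _ fun n _ => continuous_const.mul ?_)
  exact continuous_finsetSum _ fun i _ => (huc i).pow 2

end Pool.Agent.Work.MP_df74ac_an
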