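import Pool.Agent.Work.MP_df74ac_an.Prep
import Pool.Agent.Work.MP_df74ac_an.Day

set_option autoImplicit false
set_option linter.unusedSectionVars false
set_option linter.unusedVariables false

open Set Filter Topology
open scoped Classical

namespace Pool.Agent.Work.MP_df74ac_an

open Pool.Agent.Work.MP_f490a9_an

universe u v

variable {X : Type u} [NormedAddCommGroup X] [NormedSpace ℝ X]

/-- The parameter space. -/
abbrev Th (X : Type u) [NormedAddCommGroup X] [NormedSpace ℝ X] : Type u :=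
  Icc (0 : ℝ) 1 × Bd X × Bd X × Bd X

/-- The functional attached to a parameter. -/
noncomputable def fth (θ : Th X) : StrongDual ℝ X :=
  (θ.1 : ℝ) • (toD θ.2.1 - toD θ.2.2.1 + toD θ.2.2.2)

lemma fth_apply (θ : Th X) (x : X) :
    fth θ x = (θ.1 : ℝ) * (toD θ.2.1 x - toD θ.2.2.1 x + toD θ.2.2.2 x) := rfl

lemma fth_continuous (x : X) : Continuous fun θ : Th X => fth θ x := by
  have h1 : Continuous fun θ : Th X => (θ.1 : ℝ) := continuous_subtype_val.comp continuous_fst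
  have h2 : Continuous fun θ : Th X => toD θ.2.1 x :=
    (toD_eval_continuous x).comp (continuous_fst.comp continuous_snd)
  have h3 : Continuous fun θ : Th X => toD θ.2.2.1 x :=
    (toD_eval_continuous x).comp (continuous_fst.comp (continuous_snd.comp continuous_snd))
  have h4 : Continuous fun θ : Th X => toD θ.2.2.2 x :=
    (toD_eval_continuous x).comp (continuous_snd.comp (continuous_snd.comp continuous_snd))
  exact h1.mul ((h2.sub h3).add h4)

lemma fth_norm (θ : Th X) : ‖fth θ‖ ≤ 3 := by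
  unfold fth
  rw [norm_smul, Real.norm_eq_abs, abs_of_nonneg θ.1.2.1]
  have h1 := toD_norm θ.2.1
  have h2 := toD_norm θ.2.2.1
  have h3 := toD_norm θ.2.2.2
  have h4 : ‖toD θ.2.1 - toD θ.2.2.1 + toD θ.2.2.2‖ ≤ 3 := by
    refine (norm_add_le _ _).trans ?_
    have := norm_sub_le (toD θ.2.1) (toD θ.2.2.1)
    linarith
  have h5 := θ.1.2.2
  have h6 := θ.1.2.1
  have h7 := norm_nonneg (toD θ.2.1 - toD θ.2.2.1 + toD θ.2.2.2)
  nlinarith

lemma fth_abs_le (θ : Th X) (x : X) : |fth θ x| ≤ 3 * ‖x‖ :=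
  (fth θ).le_of_opNorm_le (fth_norm θ) x

/-- coordinates -/
def co {Γ : Type u} (y : Γ → X) (f : StrongDual ℝ X) : Γ → ℝ := fun i => f (y i)

variable {Γ : Type u} {y : Γ → X} {C : Set (Bd X)} {ε : ℝ}

/-- The admissible parameters. -/
def Pm (y : Γ → X) (C : Set (Bd X)) : Set (Th X) :=
  {θ | θ.2.1 ∈ C ∧ θ.2.2.1 ∈ C ∧ (θ.1 : ℝ) ^ 2 + Phi (co y (fth θ)) ≤ 1}

/-- The norm. -/
noncomputable def NN (y : Γ → X) (C : Set (Bd X)) (x : X) : ℝ :=
  sSup ((fun θ : Th X => fth θ x) '' Pm y C)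

namespace Data

variable (hD : Data Γ y C ε)
include hD

lemma co_bdd {f : StrongDual ℝ X} {M : ℝ} (hf : ‖f‖ ≤ M) (i : Γ) : |co y f i| ≤ M := by
  have h1 := f.le_opNorm (y i)
  rw [Real.norm_eq_abs] at h1
  have h2 := hD.le_one i
  have h3 := norm_nonneg f
  unfold co
  nlinarith

lemma Pm_compact : IsCompact (Pm y C) := by
  apply IsClosed.isCompact
  have h1 : Pm y C = ((fun θ : Th X => θ.2.1) ⁻¹' C ∩ (fun θ : Th X => θ.2.2.1) ⁻¹' C) ∩
      {θ | (θ.1 : ℝ) ^ 2 + Phi (co y (fth θ)) ≤ 1} := by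
    ext θ
    simp only [Pm, mem_ofPred_eq, mem_inter_iff, mem_preimage]
    tauto
  rw [h1]
  refine ((hD.closed.preimage (continuous_fst.comp continuous_snd)).inter
    (hD.closed.preimage (continuous_fst.comp (continuous_snd.comp continuous_snd)))).inter ?_
  exact Phi_closed (fun θ : Th X => co y (fth θ)) (M := 3) (fun θ i => hD.co_bdd (fth_norm θ) i)
    (fun i => fth_continuous (y i)) ((continuous_subtype_val.comp continuous_fst).pow 2) 1

lemma Pm_ball {t : ℝ} (ht0 : 0 ≤ t) (ht1 : t ≤ 1) (ht : t ^ 2 * (1 + cW) ≤ 1) {a : Bd X}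
    (ha : a ∈ C) (w : Bd X) : ((⟨t, ht0, ht1⟩, a, a, w) : Th X) ∈ Pm y C := by
  refine ⟨ha, ha, ?_⟩
  have h1 : fth ((⟨t, ht0, ht1⟩, a, a, w) : Th X) = t • toD w := by
    unfold fth
    rw [sub_self, zero_add]
  have h2 : ‖t • toD w‖ ≤ t := by
    rw [norm_smul, Real.norm_eq_abs, abs_of_nonneg ht0]
    have := toD_norm w
    nlinarith
  have h3 : Phi (co y (t • toD w)) ≤ cW * t ^ 2 := Phi_le_M (fun i => hD.co_bdd h2 i)
  rw [h1]
  show t ^ 2 + _ ≤ 1
  linarith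

lemma Pm_nonempty : (Pm y C).Nonempty := by
  obtain ⟨a, ha⟩ := hD.nonempty
  exact ⟨_, hD.Pm_ball le_rfl zero_le_one (by norm_num) ha (ofD 0 (by simp))⟩

lemma exists_max (x : X) : ∃ θ ∈ Pm y C, fth θ x = NN y C x := by
  obtain ⟨θ, hθ, hmax⟩ := hD.Pm_compact.exists_isMaxOn hD.Pm_nonempty
    (fth_continuous x).continuousOn
  refine ⟨θ, hθ, ?_⟩
  unfold NN
  refine le_antisymm (le_csSup ?_ ⟨θ, hθ, rfl⟩) (csSup_le ⟨_, θ, hθ, rfl⟩ ?_)
  · refine ⟨fth θ x, ?_⟩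
    rintro _ ⟨θ', hθ', rfl⟩
    exact hmax hθ'
  · rintro _ ⟨θ', hθ', rfl⟩
    exact hmax hθ'

lemma le_NN {θ : Th X} (hθ : θ ∈ Pm y C) (x : X) : fth θ x ≤ NN y C x := by
  refine le_csSup ?_ ⟨θ, hθ, rfl⟩
  refine ⟨3 * ‖x‖, ?_⟩
  rintro _ ⟨θ', hθ', rfl⟩
  exact (le_abs_self _).trans (fth_abs_le θ' x)

omit hD in
lemma neg_ball (w : Bd X) : ‖-toD w‖ ≤ 1 := by rw [norm_neg]; exact toD_norm w

lemma Pm_symm {θ : Th X} (hθ : θ ∈ Pm y C) : ∃ θ' ∈ Pm y C, fth θ' = - fth θ := by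
  have h1 : fth ((θ.1, θ.2.2.1, θ.2.1, ofD (-toD θ.2.2.2) (neg_ball _)) : Th X) = - fth θ := by
    unfold fth
    rw [toD_ofD]
    module
  refine ⟨_, ⟨hθ.2.1, hθ.1, ?_⟩, h1⟩
  rw [h1]
  have h2 : co y (-fth θ) = fun i => (-1) * co y (fth θ) i := by
    ext i
    show -(fth θ (y i)) = -1 * fth θ (y i)
    ring
  rw [h2, Phi_smul]
  have := hθ.2.2
  norm_num
  exact this

lemma NN_neg (x : X) : NN y C (-x) = NN y C x := by
  have key : ∀ x, NN y C (-x) ≤ NN y C x := by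
    intro x
    obtain ⟨θ, hθ, h⟩ := hD.exists_max (-x)
    obtain ⟨θ', hθ', h'⟩ := hD.Pm_symm hθ
    rw [← h]
    have h1 := hD.le_NN hθ' x
    rw [h'] at h1
    rw [map_neg]
    exact h1
  refine le_antisymm (key x) ?_
  have := key (-x)
  rwa [neg_neg] at this

lemma NN_smul_nonneg {r : ℝ} (hr : 0 ≤ r) (x : X) : NN y C (r • x) = r * NN y C x := by
  refine le_antisymm ?_ ?_
  · obtain ⟨θ, hθ, h⟩ := hD.exists_max (r • x)
    rw [← h, map_smul, smul_eq_mul]
    exact mul_le_mul_of_nonneg_left (hD.le_NN hθ x) hr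
  · obtain ⟨θ, hθ, h⟩ := hD.exists_max x
    rw [← h, ← smul_eq_mul, ← map_smul]
    exact hD.le_NN hθ _

lemma eqNorm : EqNorm (NN y C) (1 / (1 + cW)) 3 where
  add := by
    intro x z
    obtain ⟨θ, hθ, h⟩ := hD.exists_max (x + z)
    rw [← h, map_add]
    exact add_le_add (hD.le_NN hθ x) (hD.le_NN hθ z)
  smul := by
    intro r x
    rcases le_total 0 r with hr | hr
    · rw [abs_of_nonneg hr]
      exact hD.NN_smul_nonneg hr x
    · rw [abs_of_nonpos hr]
      have h1 : r • x = -((-r) • x) := by rw [neg_smul, neg_neg]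
      rw [h1, hD.NN_neg]
      exact hD.NN_smul_nonneg (by linarith) x
  pos₁ := by
    have := cW_nonneg
    positivity
  pos₂ := by norm_num
  lower := by
    intro x
    obtain ⟨a, ha⟩ := hD.nonempty
    have hc := cW_nonneg
    have h0 : (0 : ℝ) ≤ 1 / (1 + cW) := by positivity
    have h1 : 1 / (1 + cW) ≤ 1 := by
      rw [div_le_one (by positivity)]
      linarith
    have h2 : (1 / (1 + cW)) ^ 2 * (1 + cW) ≤ 1 := by
      have : (1 / (1 + cW)) ^ 2 * (1 + cW) = 1 / (1 + cW) := by field_simp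
      rw [this]
      exact h1
    obtain ⟨g, hg1, hg2⟩ := exists_dual_vector'' ℝ x
    have h3 := hD.le_NN (hD.Pm_ball h0 h1 h2 ha (ofD g hg1)) x
    rw [fth_apply] at h3
    simp only [toD_ofD, sub_self, zero_add] at h3
    have h4 : g x = ‖x‖ := by exact_mod_cast hg2
    rwa [h4] at h3
  upper := by
    intro x
    obtain ⟨θ, hθ, h⟩ := hD.exists_max x
    rw [← h]
    exact (le_abs_self _).trans (fth_abs_le θ x)

/-- Uniqueness of the maximising functional. -/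
lemma unique {x : X} (hx : x ≠ 0) {θ₁ θ₂ : Th X} (h₁ : θ₁ ∈ Pm y C) (h₂ : θ₂ ∈ Pm y C)
    (hx₁ : fth θ₁ x = NN y C x) (hx₂ : fth θ₂ x = NN y C x) : fth θ₁ = fth θ₂ := by
  by_contra hne
  have hNx : 0 < NN y C x := hD.eqNorm.pos hx
  obtain ⟨⟨l₁, hl₁0, hl₁1⟩, a₁, b₁, u₁⟩ := θ₁
  obtain ⟨⟨l₂, hl₂0, hl₂1⟩, a₂, b₂, u₂⟩ := θ₂
  set f₁ := fth ((⟨l₁, hl₁0, hl₁1⟩, a₁, b₁, u₁) : Th X) with hf₁
  set f₂ := fth ((⟨l₂, hl₂0, hl₂1⟩, a₂, b₂, u₂) : Th X) with hf₂
  have e₁ : f₁ = l₁ • (toD a₁ - toD b₁ + toD u₁) := rfl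
  have e₂ : f₂ = l₂ • (toD a₂ - toD b₂ + toD u₂) := rfl
  have hl₁ : 0 < l₁ := by
    refine lt_of_le_of_ne hl₁0 fun h => ?_
    rw [e₁, ← h, zero_smul] at hx₁
    have : (0 : ℝ) = NN y C x := hx₁
    linarith
  have hl₂ : 0 < l₂ := by
    refine lt_of_le_of_ne hl₂0 fun h => ?_
    rw [e₂, ← h, zero_smul] at hx₂
    have : (0 : ℝ) = NN y C x := hx₂
    linarith
  set t : ℝ := l₂ / (l₁ + l₂) with ht
  have ht0 : 0 ≤ t := by positivity
  have ht1 : t ≤ 1 := by rw [ht, div_le_one (by positivity)]; linarith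
  set s : ℝ := (l₁ + l₂) / 2 with hs
  have hs0 : 0 < s := by positivity
  have hst1 : s * (1 - t) = l₁ / 2 := by rw [hs, ht]; field_simp; ring
  have hst2 : s * t = l₂ / 2 := by rw [hs, ht]; field_simp
  set a : Bd X := ofD _ (comb_norm a₁ a₂ ht0 ht1) with ha
  set b : Bd X := ofD _ (comb_norm b₁ b₂ ht0 ht1) with hb
  set w : Bd X := ofD _ (comb_norm u₁ u₂ ht0 ht1) with hw
  have ea : toD a = (1 - t) • toD a₁ + t • toD a₂ := toD_ofD _ _
  have eb : toD b = (1 - t) • toD b₁ + t • toD b₂ := toD_ofD _ _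
  have ew : toD w = (1 - t) • toD u₁ + t • toD u₂ := toD_ofD _ _
  have haC : a ∈ C := hD.conv a₁ h₁.1 a₂ h₂.1 t ht0 ht1 a ea
  have hbC : b ∈ C := hD.conv b₁ h₁.2.1 b₂ h₂.2.1 t ht0 ht1 b eb
  -- the midpoint
  have hmid : s • (toD a - toD b + toD w) = (1 / 2 : ℝ) • (f₁ + f₂) := by
    rw [ea, eb, ew, e₁, e₂]
    have h3 : (1 / 2 : ℝ) • (l₁ • (toD a₁ - toD b₁ + toD u₁) + l₂ • (toD a₂ - toD b₂ + toD u₂)) =
      (l₁ / 2) • (toD a₁ - toD b₁ + toD u₁) + (l₂ / 2) • (toD a₂ - toD b₂ + toD u₂) := by module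
    rw [h3, ← hst1, ← hst2]
    module
  have hco : co y ((1 / 2 : ℝ) • (f₁ + f₂)) = fun i => (co y f₁ i + co y f₂ i) / 2 := by
    ext i
    show (1 / 2 : ℝ) * (f₁ (y i) + f₂ (y i)) = (f₁ (y i) + f₂ (y i)) / 2
    ring
  have hcone : co y f₁ ≠ co y f₂ := by
    intro h
    apply hne
    have h3 : f₁ - f₂ = 0 := hD.total _ fun i => by
      show f₁ (y i) - f₂ (y i) = 0
      have := congrFun h i
      unfold co at this
      rw [this, sub_self]
    exact sub_eq_zero.mp h3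
  have hstrict := Phi_strict (u := co y f₁) (v := co y f₂) (M := 3)
    (fun i => hD.co_bdd (fth_norm _) i) (fun i => hD.co_bdd (fth_norm _) i) (fun t ht => by
      have h3 := hD.czero ((1 / 2 : ℝ) • (f₁ + f₂)) t ht
      refine h3.subset fun i hi => ?_
      have h4 := congrFun hco i
      show t ≤ |co y ((1 / 2 : ℝ) • (f₁ + f₂)) i|
      rw [h4]
      exact hi) hcone
  rw [← hco] at hstrict
  have hp₁ : l₁ ^ 2 + Phi (co y f₁) ≤ 1 := h₁.2.2
  have hp₂ : l₂ ^ 2 + Phi (co y f₂) ≤ 1 := h₂.2.2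
  set ρ2 : ℝ := s ^ 2 + Phi (co y ((1 / 2 : ℝ) • (f₁ + f₂))) with hρ2
  have hPhi0 : 0 ≤ Phi (co y ((1 / 2 : ℝ) • (f₁ + f₂))) := by
    refine Phi_nonneg (M := ‖(1 / 2 : ℝ) • (f₁ + f₂)‖) fun i => hD.co_bdd le_rfl i
  have hρ1 : ρ2 < 1 := by
    have : s ^ 2 ≤ 1 / 2 * l₁ ^ 2 + 1 / 2 * l₂ ^ 2 := by
      rw [hs]
      nlinarith [sq_nonneg (l₁ - l₂)]
    rw [hρ2]
    linarith
  have hρ0 : 0 < ρ2 := by
    have : 0 < s ^ 2 := by positivity
    rw [hρ2]
    linarith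
  set ρ : ℝ := Real.sqrt ρ2 with hρ
  have hρpos : 0 < ρ := Real.sqrt_pos.mpr hρ0
  have hρsq : ρ ^ 2 = ρ2 := Real.sq_sqrt hρ0.le
  have hρlt : ρ < 1 := by
    rw [hρ, Real.sqrt_lt' one_pos, one_pow]
    exact hρ1
  have hsρ : s ≤ ρ := by
    refine Real.le_sqrt_of_sq_le ?_
    rw [hρ2]
    linarith
  have hq0 : 0 ≤ s / ρ := by positivity
  have hq1 : s / ρ ≤ 1 := by rw [div_le_one hρpos]; exact hsρ
  have hfθ : fth ((⟨s / ρ, hq0, hq1⟩, a, b, w) : Th X) = (1 / ρ) • ((1 / 2 : ℝ) • (f₁ + f₂)) := by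
    rw [← hmid, smul_smul]
    show (s / ρ) • (toD a - toD b + toD w) = _
    congr 1
    ring
  have hmem : ((⟨s / ρ, hq0, hq1⟩, a, b, w) : Th X) ∈ Pm y C := by
    refine ⟨haC, hbC, ?_⟩
    rw [hfθ]
    have h3 : co y ((1 / ρ) • ((1 / 2 : ℝ) • (f₁ + f₂))) =
        fun i => (1 / ρ) * co y ((1 / 2 : ℝ) • (f₁ + f₂)) i := rfl
    rw [h3, Phi_smul]
    show (s / ρ) ^ 2 + (1 / ρ) ^ 2 * Phi (co y ((1 / 2 : ℝ) • (f₁ + f₂))) ≤ 1
    have h4 : (s / ρ) ^ 2 + (1 / ρ) ^ 2 * Phi (co y ((1 / 2 : ℝ) • (f₁ + f₂))) = ρ2 / ρ ^ 2 := by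
      rw [hρ2]
      field_simp
    rw [h4, hρsq, div_self hρ0.ne']
  have h5 := hD.le_NN hmem x
  rw [hfθ] at h5
  have h6 : ((1 / ρ) • ((1 / 2 : ℝ) • (f₁ + f₂))) x = (1 / ρ) * ((1 / 2) * (f₁ x + f₂ x)) := rfl
  rw [h6, hx₁, hx₂] at h5
  have h7 : (1 / ρ) * ((1 / 2) * (NN y C x + NN y C x)) = NN y C x / ρ := by ring
  rw [h7, div_le_iff₀ hρpos] at h5
  nlinarith

/-- Gateaux differentiability. -/
lemma grad {x : X} (hx : x ≠ 0) {θ : Th X} (hθ : θ ∈ Pm y C) (hθx : fth θ x = NN y C x) :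
    IsGrad (NN y C) x (fth θ) := by
  intro v
  rw [hasDerivAt_iff_isLittleO, Asymptotics.isLittleO_iff]
  intro η hη
  -- the bad set
  obtain ⟨κ, hκ, hbad⟩ : ∃ κ : ℝ, 0 < κ ∧ ∀ θ' ∈ Pm y C, η ≤ |fth θ' v - fth θ v| →
      fth θ' x ≤ NN y C x - κ := by
    set B : Set (Th X) := Pm y C ∩ {θ' | η ≤ |fth θ' v - fth θ v|} with hB
    have hBc : IsCompact B := hD.Pm_compact.inter_right
      (isClosed_le continuous_const ((fth_continuous v).sub continuous_const).abs)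
    rcases B.eq_empty_or_nonempty with h0 | hne
    · refine ⟨1, one_pos, fun θ' h1 h2 => ?_⟩
      have : θ' ∈ B := ⟨h1, h2⟩
      rw [h0] at this
      exact absurd this (notMem_empty _)
    · obtain ⟨θ₀, hθ₀, hmax⟩ := hBc.exists_isMaxOn hne (fth_continuous x).continuousOn
      have hlt : fth θ₀ x < NN y C x := by
        refine lt_of_le_of_ne (hD.le_NN hθ₀.1 x) fun h => ?_
        have h1 := hD.unique hx hθ₀.1 hθ h hθx
        have h2 : η ≤ |fth θ₀ v - fth θ v| := hθ₀.2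
        rw [h1, sub_self, abs_zero] at h2
        linarith
      refine ⟨NN y C x - fth θ₀ x, by linarith, fun θ' h1 h2 => ?_⟩
      have : fth θ' x ≤ fth θ₀ x := hmax ⟨h1, h2⟩
      linarith
  have hr : 0 < κ / (6 * ‖v‖ + 1) := by positivity
  filter_upwards [Metric.ball_mem_nhds (0 : ℝ) hr] with t ht
  rw [mem_ball_zero_iff, Real.norm_eq_abs, lt_div_iff₀ (by positivity)] at ht
  simp only [sub_zero, zero_smul, add_zero, smul_eq_mul, Real.norm_eq_abs]
  obtain ⟨θt, hθt, hmaxt⟩ := hD.exists_max (x + t • v)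
  have h1 : NN y C x + t * fth θ v ≤ NN y C (x + t • v) := by
    have := hD.le_NN hθ (x + t • v)
    rwa [map_add, map_smul, smul_eq_mul, hθx] at this
  have h2 : NN y C (x + t • v) = fth θt x + t * fth θt v := by
    rw [← hmaxt, map_add, map_smul, smul_eq_mul]
  have h3 : |fth θt v - fth θ v| < η := by
    by_contra hcon
    push Not at hcon
    have h4 := hbad θt hθt hcon
    have h5 := fth_abs_le θt v
    have h6 := fth_abs_le θ v
    have h7 : t * fth θt v ≤ |t| * (3 * ‖v‖) := by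
      refine (le_abs_self _).trans ?_
      rw [abs_mul]
      exact mul_le_mul_of_nonneg_left h5 (abs_nonneg _)
    have h8 : -(|t| * (3 * ‖v‖)) ≤ t * fth θ v := by
      have : |t * fth θ v| ≤ |t| * (3 * ‖v‖) := by
        rw [abs_mul]
        exact mul_le_mul_of_nonneg_left h6 (abs_nonneg _)
      exact (abs_le.mp this).1
    have h9 := abs_nonneg t
    nlinarith
  have h4 := hD.le_NN hθt x
  have h5 : t * (fth θt v - fth θ v) ≤ |t| * η := by
    refine (le_abs_self _).trans ?_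
    rw [abs_mul]
    exact mul_le_mul_of_nonneg_left h3.le (abs_nonneg _)
  rw [abs_of_nonneg (by linarith)]
  rw [h2]
  nlinarith

/-- No point of Frechet differentiability. -/
lemma not_diff {x : X} (hx : x ≠ 0) : ¬ DifferentiableAt ℝ (NN y C) x := by
  intro hdiff
  have hNx : 0 < NN y C x := hD.eqNorm.pos hx
  obtain ⟨θ, hθ, hθx⟩ := hD.exists_max x
  obtain ⟨⟨l, hl0, hl1⟩, a, b, w⟩ := θ
  set f := fth ((⟨l, hl0, hl1⟩, a, b, w) : Th X) with hf
  have ef : f = l • (toD a - toD b + toD w) := rfl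
  have hl : 0 < l := by
    refine lt_of_le_of_ne hl0 fun h => ?_
    rw [ef, ← h, zero_smul] at hθx
    have : (0 : ℝ) = NN y C x := hθx
    linarith
  have hε := hD.eps
  set η : ℝ := l * ε / 16 with hη
  have hηpos : 0 < η := by positivity
  -- differentiability
  have hd := hdiff.hasFDerivAt
  rw [hasFDerivAt_iff_isLittleO_nhds_zero, Asymptotics.isLittleO_iff] at hd
  obtain ⟨δ', hδ', hball⟩ := Metric.eventually_nhds_iff_ball.mp (hd hηpos)
  set δ : ℝ := δ' / 2 with hδdef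
  have hδ : 0 < δ := by positivity
  have hDle : ∀ h : X, ‖h‖ ≤ δ → NN y C (x + h) + NN y C (x - h) ≤ 2 * NN y C x + 2 * η * ‖h‖ := by
    intro h hh
    have h1 := hball h (by rw [mem_ball_zero_iff]; linarith)
    have h2 := hball (-h) (by rw [mem_ball_zero_iff, norm_neg]; linarith)
    rw [Real.norm_eq_abs, abs_le] at h1 h2
    rw [map_neg, norm_neg, ← sub_eq_add_neg] at h2
    linarith [h1.2, h2.2]
  set κ : ℝ := min (1 / 2) (η * δ / (2 * (1 + 2 * NN y C x))) with hκ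
  have hκpos : 0 < κ := lt_min (by norm_num) (by positivity)
  have hκ2 : κ ≤ 1 / 2 := min_le_left _ _
  have hκη : κ * (1 + 2 * NN y C x) ≤ η * δ / 2 := by
    have h1 : κ ≤ η * δ / (2 * (1 + 2 * NN y C x)) := min_le_right _ _
    rw [le_div_iff₀ (by positivity)] at h1
    linarith
  have hcW := cW_nonneg
  set κ₀ : ℝ := κ / (1 + cW) with hκ₀
  have hκ₀pos : 0 < κ₀ := by positivity
  have hκ₀le : κ₀ ≤ κ := by
    rw [hκ₀, div_le_iff₀ (by positivity)]
    nlinarith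
  have hκ₀W : (1 + 1 / κ) * (cW * κ₀ ^ 2) ≤ κ := by
    have e : (1 + 1 / κ) * (cW * κ₀ ^ 2) = κ * ((1 + κ) * cW / (1 + cW) ^ 2) := by
      rw [hκ₀]; field_simp; ring
    rw [e]
    have h1 : (1 + κ) * cW / (1 + cW) ^ 2 ≤ 1 := by
      rw [div_le_one (by positivity)]
      nlinarith
    nlinarith
  obtain ⟨O, hO, haO, hnear⟩ := hD.near a hθ.1 κ₀ hκ₀pos
  have hO2 : IsOpen {a' : Bd X | |toD a' x - toD a x| < κ₀} :=
    isOpen_lt ((toD_eval_continuous x).sub continuous_const).abs continuous_const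
  obtain ⟨a₁, ha₁, a₂, ha₂, hO₁, hO₂, hgap⟩ := hD.far a hθ.1 (O ∩ {a' | |toD a' x - toD a x| < κ₀})
    (hO.inter hO2) ⟨haO, by
      show |toD a x - toD a x| < κ₀
      rw [sub_self, abs_zero]; exact hκ₀pos⟩
  set s : ℝ := 1 / (1 + 2 * κ) with hs
  have hs0 : 0 < s := by positivity
  have hs1 : s ≤ 1 := by rw [hs, div_le_one (by positivity)]; linarith
  have hs2 : 1 / 2 ≤ s := by
    rw [hs]
    exact one_div_le_one_div_of_le (by positivity) (by linarith)
  have hsl0 : 0 ≤ s * l := by positivity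
  have hsl1 : s * l ≤ 1 := by nlinarith
  -- admissibility of the perturbed functionals
  have key : ∀ a' ∈ C, a' ∈ O ∩ {a' | |toD a' x - toD a x| < κ₀} →
      ((⟨s * l, hsl0, hsl1⟩, a', b, w) : Th X) ∈ Pm y C ∧
        NN y C x - η * δ / 2 ≤ fth ((⟨s * l, hsl0, hsl1⟩, a', b, w) : Th X) x := by
    intro a' ha' hO'
    have e1 : fth ((⟨s * l, hsl0, hsl1⟩, a', b, w) : Th X) = s • (f + l • (toD a' - toD a)) := by
      rw [ef]
      show (s * l) • (toD a' - toD b + toD w) = _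
      module
    have hPf : l ^ 2 + Phi (co y f) ≤ 1 := hθ.2.2
    constructor
    · refine ⟨ha', hθ.2.1, ?_⟩
      rw [e1]
      have e2 : co y (s • (f + l • (toD a' - toD a))) =
          fun i => s * (co y f i + co y (l • (toD a' - toD a)) i) := rfl
      rw [e2, Phi_smul]
      have h1 : ∀ i, |co y (l • (toD a' - toD a)) i| ≤ κ₀ := by
        intro i
        show |l * (toD a' (y i) - toD a (y i))| ≤ κ₀
        rw [abs_mul, abs_of_pos hl]
        have h2 := hnear a' ha' hO'.1 i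
        have h3 := abs_nonneg (toD a' (y i) - toD a (y i))
        nlinarith
      have h2 : Phi (co y (l • (toD a' - toD a))) ≤ cW * κ₀ ^ 2 := Phi_le_M h1
      have h3 : Phi (fun i => co y f i + co y (l • (toD a' - toD a)) i) ≤
          (1 + κ) * Phi (co y f) + (1 + 1 / κ) * Phi (co y (l • (toD a' - toD a))) :=
        Phi_add_le (M := 3 + κ₀) (fun i => (hD.co_bdd (fth_norm _) i).trans (by linarith))
          (fun i => (h1 i).trans (by linarith)) hκpos
      have h4 : (1 + 1 / κ) * Phi (co y (l • (toD a' - toD a))) ≤ κ :=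
        (mul_le_mul_of_nonneg_left h2 (by positivity)).trans hκ₀W
      have h5 : 0 ≤ Phi (co y f) := Phi_nonneg (M := 3) fun i => hD.co_bdd (fth_norm _) i
      have h6 : l ^ 2 + Phi (fun i => co y f i + co y (l • (toD a' - toD a)) i) ≤ 1 + 2 * κ := by
        nlinarith
      show (s * l) ^ 2 + s ^ 2 * Phi (fun i => co y f i + co y (l • (toD a' - toD a)) i) ≤ 1
      have h7 : (s * l) ^ 2 + s ^ 2 * Phi (fun i => co y f i + co y (l • (toD a' - toD a)) i) =
          s ^ 2 * (l ^ 2 + Phi (fun i => co y f i + co y (l • (toD a' - toD a)) i)) := by ring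
      rw [h7]
      have h8 : s ^ 2 * (1 + 2 * κ) = s := by rw [hs]; field_simp
      have h9 := mul_le_mul_of_nonneg_left h6 (sq_nonneg s)
      linarith
    · rw [e1]
      have e3 : (s • (f + l • (toD a' - toD a))) x = s * (f x + l * (toD a' x - toD a x)) := rfl
      rw [e3, hθx]
      have h1 : |toD a' x - toD a x| < κ₀ := hO'.2
      have h2 : -κ₀ ≤ l * (toD a' x - toD a x) := by
        rw [abs_lt] at h1
        nlinarith [h1.1]
      have h3 : NN y C x - κ * (1 + 2 * NN y C x) ≤ s * (NN y C x - κ₀) := by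
        have h4 : 1 - 2 * κ ≤ s := by
          rw [hs, le_div_iff₀ (by positivity)]
          nlinarith
        nlinarith
      have h5 : s * (NN y C x - κ₀) ≤ s * (NN y C x + l * (toD a' x - toD a x)) :=
        mul_le_mul_of_nonneg_left (by linarith) hs0.le
      linarith
  obtain ⟨hm₁, hx₁⟩ := key a₁ ha₁ hO₁
  obtain ⟨hm₂, hx₂⟩ := key a₂ ha₂ hO₂
  set g₁ := fth ((⟨s * l, hsl0, hsl1⟩, a₁, b, w) : Th X) with hg₁
  set g₂ := fth ((⟨s * l, hsl0, hsl1⟩, a₂, b, w) : Th X) with hg₂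
  have hdiffg : g₁ - g₂ = (s * l) • (toD a₁ - toD a₂) := by
    show (s * l) • (toD a₁ - toD b + toD w) - (s * l) • (toD a₂ - toD b + toD w) = _
    module
  have hlow : l * ε / 2 ≤ ‖g₁ - g₂‖ := by
    rw [hdiffg, norm_smul, Real.norm_eq_abs, abs_of_nonneg hsl0]
    have h1 : s * l * ε ≤ s * l * ‖toD a₁ - toD a₂‖ := mul_le_mul_of_nonneg_left hgap hsl0
    have h2 : l * ε / 2 ≤ s * l * ε := by
      have : 0 < l * ε := by positivity
      nlinarith
    linarith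
  have hup : ‖g₁ - g₂‖ ≤ 3 * η := by
    refine ContinuousLinearMap.opNorm_le_bound _ (by positivity) fun v => ?_
    have hhalf : ∀ v : X, (g₁ - g₂) v ≤ 3 * η * ‖v‖ := by
      intro v
      by_cases hv : v = 0
      · rw [hv]; simp
      have hvpos : 0 < ‖v‖ := norm_pos_iff.mpr hv
      have hn : ‖(δ / ‖v‖) • v‖ = δ := by
        rw [norm_smul, Real.norm_eq_abs, abs_of_pos (by positivity), div_mul_cancel₀ _ hvpos.ne']
      have h1 := hDle ((δ / ‖v‖) • v) hn.le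
      rw [hn] at h1
      have h2 := hD.le_NN hm₁ (x + (δ / ‖v‖) • v)
      have h3 := hD.le_NN hm₂ (x - (δ / ‖v‖) • v)
      rw [← hg₁, map_add] at h2
      rw [← hg₂, map_sub] at h3
      have h4 : (g₁ - g₂) ((δ / ‖v‖) • v) ≤ 3 * η * δ := by
        show g₁ ((δ / ‖v‖) • v) - g₂ ((δ / ‖v‖) • v) ≤ 3 * η * δ
        linarith
      rw [map_smul, smul_eq_mul, div_mul_eq_mul_div, div_le_iff₀ hvpos] at h4
      have h5 : δ * (g₁ - g₂) v ≤ δ * (3 * η * ‖v‖) := by linarith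
      exact le_of_mul_le_mul_left h5 hδ
    rw [Real.norm_eq_abs, abs_le]
    have h1 := hhalf v
    have h2 := hhalf (-v)
    rw [map_neg, norm_neg] at h2
    exact ⟨by linarith, h1⟩
  have : l * ε / 2 ≤ 3 * (l * ε / 16) := hlow.trans hup
  have : 0 < l * ε := by positivity
  linarith

end Data

end Pool.Agent.Work.MP_df74ac_an
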