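import Pool.Agent.Work.MP_df74ac_an.Ret

set_option autoImplicit false
set_option linter.unusedSectionVars false
set_option linter.unusedVariables false

open Set Filter Topology Cardinal
open scoped Classical

namespace Pool.Agent.Work.MP_df74ac_an

open Pool.Agent.Work.MP_f490a9_an

universe u v

variable {X : Type u} [NormedAddCommGroup X] [NormedSpace ℝ X]
variable {Q : Type v} [TopologicalSpace Q]

/-- The `c₀` property. -/
def CZ (G : Set X) : Prop := ∀ (f : StrongDual ℝ X) (ε : ℝ), 0 < ε → {x ∈ G | ε < |f x|}.Finite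

lemma HK.smul_mem {k : Q → X} (hk : HK k) {x : X} (hx : x ∈ range k) (n : ℕ) :
    ((1 / 4 : ℝ) ^ n) • x ∈ range k := by
  induction n with
  | zero => simpa using hx
  | succ n ih =>
    obtain ⟨q, hq⟩ := ih
    obtain ⟨z, hz⟩ := hk.zero
    obtain ⟨r, hr⟩ := hk.quarter q z
    refine ⟨r, ?_⟩
    rw [hr, hq, hz, sub_zero, smul_smul, pow_succ, mul_comm]

lemma bdd_of_wcont [CompactSpace Q] {k : Q → X} (hk : WCont k) (f : StrongDual ℝ X) :
    ∃ M : ℝ, 0 < M ∧ ∀ q, |f (k q)| ≤ M := by
  obtain ⟨M, hM⟩ := (isCompact_range (hk f).abs).bddAbove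
  refine ⟨max M 1, by positivity, fun q => (hM ⟨q, rfl⟩).trans (le_max_left _ _)⟩

lemma AL_countable [CompactSpace Q] {k : Q → X} (hk : WCont k) (hK : HK k) {A : Set X}
    (hA : A ⊆ range k) (hgen : range k ⊆ Spn A) (hc : A.Countable) :
    ∃ G ⊆ range k, range k ⊆ Spn G ∧ CZ G := by
  rcases A.eq_empty_or_nonempty with h0 | hne
  · subst h0
    exact ⟨∅, empty_subset _, hgen, fun f ε _ => by simp⟩
  obtain ⟨a, rfl⟩ := hc.exists_eq_range hne
  refine ⟨range fun n => ((1 / 4 : ℝ) ^ n) • a n, ?_, ?_, ?_⟩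
  · rintro _ ⟨n, rfl⟩
    exact hK.smul_mem (hA (mem_range_self n)) n
  · refine hgen.trans (Spn_subset ?_)
    rintro _ ⟨n, rfl⟩ f hf
    have h1 := hf _ ⟨n, rfl⟩
    rw [map_smul, smul_eq_mul] at h1
    rcases mul_eq_zero.mp h1 with h | h
    · exact absurd h (by positivity)
    · exact h
  · intro f ε hε
    obtain ⟨M, hM, hMb⟩ := bdd_of_wcont hk f
    obtain ⟨N, hN⟩ := exists_pow_lt_of_lt_one (show (0 : ℝ) < ε / M by positivity)
      (show (1 / 4 : ℝ) < 1 by norm_num)
    refine ((finite_Iio N).image fun n => ((1 / 4 : ℝ) ^ n) • a n).subset ?_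
    rintro _ ⟨⟨n, rfl⟩, hn⟩
    refine ⟨n, ?_, rfl⟩
    rw [mem_Iio]
    by_contra hle
    push Not at hle
    obtain ⟨q, hq⟩ := hA (mem_range_self n)
    have h1 : |f (((1 / 4 : ℝ) ^ n) • a n)| ≤ (1 / 4 : ℝ) ^ N * M := by
      rw [map_smul, smul_eq_mul, abs_mul, abs_of_nonneg (by positivity), ← hq]
      refine mul_le_mul ?_ (hMb q) (abs_nonneg _) (by positivity)
      exact pow_le_pow_of_le_one (by norm_num) (by norm_num) hle
    rw [lt_div_iff₀ hM] at hN
    linarith

/-- membership in a closed set of cluster points of a sequence -/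
lemma mem_of_cluster {P : Type*} [TopologicalSpace P] {u : ℕ → P} {p : P}
    (hp : ClusterPt p (map u atTop)) {Z : Set P} (hZ : IsClosed Z) (h : ∀ᶠ n in atTop, u n ∈ Z) :
    p ∈ Z := by
  refine (isClosed_iff_clusterPt.mp hZ) p (hp.mono ?_)
  rw [le_principal_iff]
  exact h

theorem AL_ind [CompactSpace Q] : ∀ (κ : Cardinal.{u}) (k : Q → X), WCont k → HK k →
    ∀ A : Set X, A ⊆ range k → range k ⊆ Spn A → #A = κ →
      ∃ G ⊆ range k, range k ⊆ Spn G ∧ CZ G := by
  intro κ
  induction κ using WellFoundedLT.induction with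
  | ind κ IH =>
  intro k hk hK A hA hgen hcard
  by_cases hκ : κ ≤ ℵ₀
  · refine AL_countable hk hK hA hgen ?_
    rw [← le_aleph0_iff_set_countable, hcard]
    exact hκ
  push Not at hκ
  obtain ⟨φ, ψ, hφk, hφ, hψ⟩ := exists_skolem hK
  have hret : ∀ S : Set X, ∃ r : Q → X, Ret k (CE φ ψ S) (CF φ ψ S) r :=
    fun S => Ret_closure hk hφk hφ hψ S
  choose R hR using hret
  have hE : ∀ S : Set X, S ⊆ range k → CE φ ψ S ⊆ range k := fun S hS => CE_subset hS hφk
  -- the pieces
  have piece : ∀ (El Eu : Set X) (Fl Fu : Set (Bd X)) (rl ru : Q → X), Ret k El Fl rl →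
      Ret k Eu Fu ru → Fl ⊆ Fu → Eu ⊆ range k → #Eu < κ →
      ∃ G ⊆ range (inc ru rl), range (inc ru rl) ⊆ Spn G ∧ CZ G := by
    intro El Eu Fl Fu rl ru hl hu hF hEu hlt
    obtain ⟨A', hA'c, hA'1, hA'2⟩ := inc_gen hK hl hu hF hEu
    exact IH #A' (hA'c.trans_lt hlt) (inc ru rl) (inc_wcont hk hl hu) (inc_HK hK hl hu) A'
      hA'1 hA'2 rfl
  obtain ⟨ord, wf, hord⟩ := exists_ord_eq_type_lt A
  -- initial segments
  set S : A → Set X := fun a => Subtype.val '' {b : A | b < a} with hS
  set S' : A → Set X := fun a => Subtype.val '' {b : A | b ≤ a} with hS'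
  have hScard : ∀ a, #(S a) < κ := by
    intro a
    refine mk_image_le.trans_lt ?_
    have := mk_Iio_lt a hord
    rw [hcard] at this
    exact this
  have hSS' : ∀ a, S a ⊆ S' a := fun a => image_mono fun b hb => le_of_lt hb
  have hS'card : ∀ a, #(S' a) < κ := by
    intro a
    have h1 : S' a = insert (a : X) (S a) := by
      ext x
      constructor
      · rintro ⟨b, hb, rfl⟩
        rcases lt_or_eq_of_le (show b ≤ a from hb) with h | h
        · exact Or.inr ⟨b, h, rfl⟩
        · exact Or.inl (by rw [h])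
      · rintro (rfl | ⟨b, hb, rfl⟩)
        · exact ⟨a, le_rfl, rfl⟩
        · exact ⟨b, le_of_lt hb, rfl⟩
    rw [h1]
    exact mk_insert_le.trans_lt (add_lt_of_lt hκ.le (hScard a) (one_lt_aleph0.trans hκ))
  have hSk : ∀ a, S a ⊆ range k := by
    rintro a _ ⟨b, -, rfl⟩; exact hA b.2
  have hS'k : ∀ a, S' a ⊆ range k := by
    rintro a _ ⟨b, -, rfl⟩; exact hA b.2
  have hCEcard : ∀ T : Set X, #T < κ → #(CE φ ψ T) < κ := by
    intro T hT
    refine (card_CE (κ := max #T ℵ₀) (le_max_right _ _) (le_max_left _ _)).trans_lt ?_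
    exact max_lt hT hκ
  -- the index family
  set kk : Option A → Q → X := fun i => match i with
    | none => inc (R ∅) (fun _ => 0)
    | some a => inc (R (S' a)) (R (S a)) with hkk
  have hG : ∀ i : Option A, ∃ G ⊆ range (kk i), range (kk i) ⊆ Spn G ∧ CZ G := by
    intro i
    cases i with
    | none =>
      exact piece ∅ (CE φ ψ ∅) ∅ (CF φ ψ ∅) _ _ (Ret_empty hK) (hR ∅) (empty_subset _)
        (hE ∅ (empty_subset _)) (hCEcard ∅ (by
          rw [mk_eq_zero]
          exact (aleph0_pos.trans hκ)))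
    | some a =>
      exact piece (CE φ ψ (S a)) (CE φ ψ (S' a)) (CF φ ψ (S a)) (CF φ ψ (S' a)) _ _ (hR _) (hR _)
        (CF_mono (hSS' a)) (hE _ (hS'k a)) (hCEcard _ (hS'card a))
  choose G hG1 hG2 hG3 using hG
  have hkkmem : ∀ i q, ∃ p, kk i q = k p := by
    intro i q
    cases i with
    | none => exact inc_mem hK (Ret_empty hK) (hR ∅) q
    | some a => exact inc_mem hK (hR _) (hR _) q
  have hGsub : ∀ i, G i ⊆ Spn (⋃ i, G i) := fun i =>
    (subset_iUnion G i).trans (subset_Spn _)
  have hkkS : ∀ i q, kk i q ∈ Spn (⋃ i, G i) := fun i q =>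
    Spn_subset (hGsub i) (hG2 i (mem_range_self q))
  -- generation
  have hgen0 : CE φ ψ ∅ ⊆ Spn (⋃ i, G i) := by
    intro e he
    obtain ⟨q, hq⟩ := hE ∅ (empty_subset _) he
    have h1 : R ∅ q = e := by
      have := (hR ∅).fix (q := q) (by rw [hq]; exact subset_Spn _ he)
      rw [this, hq]
    have h2 := hkkS none q
    have h3 : kk none q = (1 / 4 : ℝ) • e := by
      show (1 / 4 : ℝ) • (R ∅ q - 0) = _
      rw [h1, sub_zero]
    rw [h3] at h2
    have h4 := Spn_comb h2 h2 4 0
    rw [smul_smul, zero_smul, add_zero] at h4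
    norm_num at h4
    exact h4
  have hgenS : ∀ a : A, (∀ b : A, b < a → CE φ ψ (S' b) ⊆ Spn (⋃ i, G i)) →
      CE φ ψ (S a) ⊆ Spn (⋃ i, G i) := by
    intro a hb
    rcases isEmpty_or_nonempty {b : A // b < a} with hem | hne
    · have : S a = ∅ := by
        rw [eq_empty_iff_forall_notMem]
        rintro _ ⟨b, hb, rfl⟩
        exact hem.false ⟨b, hb⟩
      rw [this]
      exact hgen0
    · intro x hx
      have hun : S a = ⋃ b : {b : A // b < a}, S' b.1 := by
        ext y
        constructor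
        · rintro ⟨b, hb, rfl⟩
          exact mem_iUnion.mpr ⟨⟨b, hb⟩, b, le_rfl, rfl⟩
        · intro hy
          obtain ⟨⟨b, hb⟩, c, hc, rfl⟩ := mem_iUnion.mp hy
          exact ⟨c, lt_of_le_of_lt hc hb, rfl⟩
      have hx' : Cl φ ψ (S a) (Sum.inl x) := hx
      rw [hun] at hx'
      obtain ⟨b, hb'⟩ := Cl.iUnion (fun b : {b : A // b < a} => S' b.1) (by
        intro b c
        rcases le_total b c with h | h
        · exact ⟨c, image_mono fun d hd => le_trans hd h, subset_rfl⟩
        · exact ⟨b, subset_rfl, image_mono fun d hd => le_trans hd h⟩) hx'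
      exact hb b.1 b.2 hb'
  have hgen' : ∀ a : A, CE φ ψ (S' a) ⊆ Spn (⋃ i, G i) := by
    intro a
    induction a using WellFoundedLT.induction with
    | ind a ih =>
    intro e he
    obtain ⟨q, hq⟩ := hE _ (hS'k a) he
    have h1 : R (S' a) q = e := by
      have := (hR (S' a)).fix (q := q) (by rw [hq]; exact subset_Spn _ he)
      rw [this, hq]
    have h2 := hkkS (some a) q
    have h3 : kk (some a) q = (1 / 4 : ℝ) • (e - R (S a) q) := by
      show (1 / 4 : ℝ) • (R (S' a) q - R (S a) q) = _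
      rw [h1]
    rw [h3] at h2
    have h4 : R (S a) q ∈ Spn (⋃ i, G i) := Spn_subset (hgenS a ih) ((hR (S a)).spn q)
    have h5 := Spn_comb h2 h4 4 1
    have h6 : (4 : ℝ) • (1 / 4 : ℝ) • (e - R (S a) q) + (1 : ℝ) • R (S a) q = e := by module
    rwa [h6] at h5
  refine ⟨⋃ i, G i, ?_, ?_, ?_⟩
  · refine iUnion_subset fun i => (hG1 i).trans ?_
    rintro _ ⟨q, rfl⟩
    obtain ⟨p, hp⟩ := hkkmem i q
    exact ⟨p, hp.symm⟩
  · refine hgen.trans (Spn_subset fun x hx => ?_)
    exact hgen' ⟨x, hx⟩ (subset_CE _ ⟨⟨x, hx⟩, le_rfl, rfl⟩)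
  · -- the `c₀` property
    intro f ε hε
    set I : Set (Option A) := {i | ∃ q, ε < |f (kk i q)|} with hI
    have hIfin : I.Finite := by
      by_contra hinf
      have hinf' : (some ⁻¹' I : Set A).Infinite := by
        intro hfin
        apply hinf
        refine ((hfin.image some).insert none).subset ?_
        intro i hi
        cases i with
        | none => exact Or.inl rfl
        | some a => exact Or.inr ⟨a, hi, rfl⟩
      have : Infinite (some ⁻¹' I : Set A) := hinf'.to_subtype
      obtain ⟨a, ha | ha⟩ := Infinite.exists_strictMono_or_strictAnti (some ⁻¹' I : Set A)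
      swap
      · have hanti : StrictAnti fun n => (a n : A) := fun m n hmn => ha hmn
        exact not_strictAnti_of_wellFoundedLT _ hanti
      have hmono : StrictMono fun n => (a n : A) := fun m n hmn => ha hmn
      have hq : ∀ n, ∃ q, ε < |f (kk (some (a n : A)) q)| := fun n => (a n).2
      choose q hq using hq
      choose p hp using fun n => hkkmem (some (a n : A)) (q n)
      obtain ⟨p₀, hp₀⟩ := exists_clusterPt_of_compactSpace (map p atTop)
      -- (i)
      have h1 : ∀ m, ∀ g ∈ CF φ ψ (S (a m)), toD g (k p₀) = 0 := by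
        intro m g hg
        refine mem_of_cluster hp₀ (Z := {p | toD g (k p) = 0})
          (isClosed_eq (hk (toD g)) continuous_const) ?_
        filter_upwards [eventually_ge_atTop m] with n hn
        show toD g (k (p n)) = 0
        rw [← hp n]
        show toD g ((1 / 4 : ℝ) • (R (S' (a n)) (q n) - R (S (a n)) (q n))) = 0
        have hsub : S (a m) ⊆ S (a n) :=
          image_mono fun b hb => lt_of_lt_of_le hb (hmono.monotone hn)
        have hg1 : g ∈ CF φ ψ (S (a n)) := CF_mono hsub hg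
        have hg2 : g ∈ CF φ ψ (S' (a n)) := CF_mono (hSS' _) hg1
        rw [map_smul, map_sub, (hR (S' (a n))).eq _ _ hg2, (hR (S (a n))).eq _ _ hg1, sub_self,
          smul_zero]
      -- (ii)
      have hdir : Directed (· ⊆ ·) fun n : ℕ => S (a n) := by
        intro m n
        refine ⟨max m n, ?_, ?_⟩
        · exact image_mono fun b hb => lt_of_lt_of_le hb (hmono.monotone (le_max_left _ _))
        · exact image_mono fun b hb => lt_of_lt_of_le hb (hmono.monotone (le_max_right _ _))
      have h2 : k p₀ ∈ Spn (CE φ ψ (⋃ n, S (a n))) := by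
        intro g hg
        refine mem_of_cluster hp₀ (Z := {p | g (k p) = 0})
          (isClosed_eq (hk g) continuous_const) (Eventually.of_forall fun n => ?_)
        show g (k (p n)) = 0
        rw [← hp n]
        show g ((1 / 4 : ℝ) • (R (S' (a n)) (q n) - R (S (a n)) (q n))) = 0
        have e1 : S (a n) ⊆ ⋃ n, S (a n) := subset_iUnion (fun n => S (a n)) n
        have e2 : S' (a n) ⊆ ⋃ n, S (a n) := by
          refine Subset.trans ?_ (subset_iUnion (fun n => S (a n)) (n + 1))
          exact image_mono fun b hb => lt_of_le_of_lt hb (hmono (Nat.lt_succ_self n))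
        have k1 : R (S' (a n)) (q n) ∈ Spn (CE φ ψ (⋃ n, S (a n))) :=
          Spn_mono (CE_mono e2) ((hR _).spn _)
        have k2 : R (S (a n)) (q n) ∈ Spn (CE φ ψ (⋃ n, S (a n))) :=
          Spn_mono (CE_mono e1) ((hR _).spn _)
        rw [map_smul, map_sub, k1 g hg, k2 g hg, sub_self, smul_zero]
      -- (iii)
      have h3 : k p₀ = 0 := by
        refine (hR (⋃ n, S (a n))).uniq _ h2 fun g hg => ?_
        obtain ⟨m, hm⟩ := Cl.iUnion (fun n => S (a n)) hdir hg
        exact h1 m g hm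
      -- (iv)
      have h4 : p₀ ∈ {p | ε ≤ |f (k p)|} := by
        refine mem_of_cluster hp₀ (isClosed_le continuous_const (hk f).abs)
          (Eventually.of_forall fun n => ?_)
        show ε ≤ |f (k (p n))|
        rw [← hp n]
        exact (hq n).le
      have h5 : ε ≤ |f (k p₀)| := h4
      rw [h3, map_zero, abs_zero] at h5
      linarith
    refine (hIfin.biUnion fun i _ => hG3 i f ε hε).subset ?_
    rintro x ⟨hx, hxε⟩
    obtain ⟨i, hi⟩ := mem_iUnion.mp hx
    obtain ⟨q, hq⟩ := hG1 i hi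
    refine mem_biUnion (show i ∈ I from ⟨q, by rw [hq]; exact hxε⟩) ⟨hi, hxε⟩

/-- Amir–Lindenstrauss family for a parametrised set. -/
theorem AL_HK [CompactSpace Q] (k : Q → X) (hk : WCont k) (hK : HK k) :
    ∃ G : Set X, range k ⊆ Spn G ∧ CZ G := by
  obtain ⟨G, -, h1, h2⟩ := AL_ind (#(range k)) k hk hK (range k) subset_rfl (subset_Spn _) rfl
  exact ⟨G, h1, h2⟩

end Pool.Agent.Work.MP_df74ac_an
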