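import Pool.Agent.Work.MP_df74ac_an.DualBall
import Pool.Agent.Work.MP_f490a9_an.Tree

set_option autoImplicit false
set_option linter.unusedSectionVars false
set_option linter.unusedVariables false

open Set Filter Topology
open scoped Classical

namespace Pool.Agent.Work.MP_df74ac_an

open Pool.Agent.Work.MP_f490a9_an

universe u v

variable {X : Type u} [NormedAddCommGroup X] [NormedSpace ℝ X] [CompleteSpace X]

/-- Convexity of a set of elements of the dual ball. -/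
def Conv (V : Set (Bd X)) : Prop :=
  ∀ a ∈ V, ∀ b ∈ V, ∀ t : ℝ, 0 ≤ t → t ≤ 1 → ∀ c : Bd X,
    toD c = (1 - t) • toD a + t • toD b → c ∈ V

lemma weakstar_bounded {C : Set (X →L[ℝ] ℝ)} (hC : IsCompact ((fun (f : X →L[ℝ] ℝ) (x : X) => f x) '' C)) :
    ∃ R : ℝ, 0 < R ∧ ∀ f ∈ C, ‖f‖ ≤ R := by
  obtain ⟨R, hR⟩ := banach_steinhaus (g := fun f : C => (f : X →L[ℝ] ℝ)) (fun x => by
    have h1 : IsCompact ((fun p : X → ℝ => ‖p x‖) '' ((fun (f : X →L[ℝ] ℝ) (x : X) => f x) '' C)) :=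
      hC.image (continuous_apply x).norm
    obtain ⟨M, hM⟩ := h1.bddAbove
    exact ⟨M, fun f => hM ⟨_, ⟨f.1, f.2, rfl⟩, rfl⟩⟩)
  exact ⟨max R 1, by positivity, fun f hf => (hR ⟨f, hf⟩).trans (le_max_left _ _)⟩

/-- The Baire category step. -/
theorem baire_step (C : Set (X →L[ℝ] ℝ)) (hne : C.Nonempty) (hconv : Convex ℝ C)
    (hcomp : @IsCompact (X →L[ℝ] ℝ)
          (TopologicalSpace.induced (fun (f : X →L[ℝ] ℝ) (x : X) => f x) inferInstance) C)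
    (hno : ∀ z ∈ C, ∃ ε : ℝ, 0 < ε ∧ ∀ U : Set (X →L[ℝ] ℝ),
          @IsOpen (X →L[ℝ] ℝ)
            (TopologicalSpace.induced (fun (f : X →L[ℝ] ℝ) (x : X) => f x) inferInstance) U →
          z ∈ U → ∃ y ∈ C ∩ U, ε ≤ ‖y - z‖) :
    ∃ (V : Set (Bd X)) (ε : ℝ), V.Nonempty ∧ Conv V ∧ 0 < ε ∧
      ∀ z ∈ V, ∀ (I : Finset X) (δ : ℝ), 0 < δ →
        ∃ y ∈ V, ε ≤ ‖toD y - toD z‖ ∧ ∀ x ∈ I, |toD y x - toD z x| < δ := by
  let τ : TopologicalSpace (X →L[ℝ] ℝ) :=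
    TopologicalSpace.induced (fun (f : X →L[ℝ] ℝ) (x : X) => f x) inferInstance
  have hind : @IsInducing _ _ τ _ (fun (f : X →L[ℝ] ℝ) (x : X) => f x) :=
    @IsInducing.mk _ _ τ _ _ rfl
  have hcomp' : IsCompact ((fun (f : X →L[ℝ] ℝ) (x : X) => f x) '' C) :=
    (@Topology.IsInducing.isCompact_iff _ _ τ _ _ _ hind).mp hcomp
  obtain ⟨R, hR, hRb⟩ := weakstar_bounded hcomp'
  set C' : Set (X → ℝ) := (fun (f : X →L[ℝ] ℝ) (x : X) => f x) '' C with hC'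
  have hcs : CompactSpace C' := isCompact_iff_compactSpace.mp hcomp'
  -- reformulate the hypothesis
  have hno' : ∀ z ∈ C, ∃ n : ℕ, ∀ (I : Finset X) (δ : ℝ), 0 < δ →
      ∃ y ∈ C, 1 / ((n : ℝ) + 1) ≤ ‖y - z‖ ∧ ∀ x ∈ I, |y x - z x| < δ := by
    intro z hz
    obtain ⟨ε, hε, h⟩ := hno z hz
    obtain ⟨n, hn⟩ := exists_nat_one_div_lt hε
    refine ⟨n, fun I δ hδ => ?_⟩
    obtain ⟨y, ⟨hyC, hyU⟩, hy⟩ := h {y | ∀ x ∈ I, |y x - z x| < δ} (by
      refine isOpen_induced_iff.mpr ⟨⋂ x ∈ I, {p : X → ℝ | |p x - z x| < δ}, ?_, ?_⟩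
      · exact isOpen_biInter_finset fun x _ =>
          isOpen_lt ((continuous_apply x).sub continuous_const).abs continuous_const
      · ext y
        simp) (fun x _ => by simpa using hδ)
    exact ⟨y, hyC, hn.le.trans hy, hyU⟩
  -- functionals
  have hD : ∀ p : C', ∃ f ∈ C, ∀ x, f x = p.1 x := by
    rintro ⟨_, f, hf, rfl⟩
    exact ⟨f, hf, fun x => rfl⟩
  choose F hFC hFx using hD
  have hFeq : ∀ (f : X →L[ℝ] ℝ) (hf : f ∈ C), F ⟨fun x => f x, f, hf, rfl⟩ = f := by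
    intro f hf
    ext x
    exact hFx _ x
  set E : ℕ → Set C' := fun n => {p | ∀ (I : Finset X) (δ : ℝ), 0 < δ →
      ∃ y ∈ C, 1 / ((n : ℝ) + 1) ≤ ‖y - F p‖ ∧ ∀ x ∈ I, |y x - p.1 x| < δ} with hE
  have hcov : ⋃ n : ℕ, closure (E n) = univ := by
    rw [eq_univ_iff_forall]
    intro p
    obtain ⟨n, hn⟩ := hno' (F p) (hFC p)
    refine mem_iUnion.mpr ⟨n, subset_closure fun I δ hδ => ?_⟩
    obtain ⟨y, hy, h1, h2⟩ := hn I δ hδ
    exact ⟨y, hy, h1, fun x hx => by rw [← hFx]; exact h2 x hx⟩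
  have hne' : Nonempty C' := by
    obtain ⟨f, hf⟩ := hne
    exact ⟨⟨_, f, hf, rfl⟩⟩
  obtain ⟨n, p₀, hp₀⟩ := nonempty_interior_of_iUnion_of_closed (fun n => isClosed_closure) hcov
  -- points of the closure
  have hcl : ∀ p ∈ closure (E n), ∀ (I : Finset X) (δ : ℝ), 0 < δ →
      ∃ y ∈ C, 1 / ((n : ℝ) + 1) / 2 ≤ ‖y - F p‖ ∧ ∀ x ∈ I, |y x - p.1 x| < δ := by
    intro p hp I δ hδ
    have hopen : IsOpen {q : C' | ∀ x ∈ I, |q.1 x - p.1 x| < δ / 2} := by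
      have : {q : C' | ∀ x ∈ I, |q.1 x - p.1 x| < δ / 2} =
          ⋂ x ∈ I, {q : C' | |q.1 x - p.1 x| < δ / 2} := by
        ext q; simp
      rw [this]
      exact isOpen_biInter_finset fun x _ =>
        isOpen_lt ((((continuous_apply x).comp continuous_subtype_val).sub
          continuous_const).abs) continuous_const
    obtain ⟨q, hq1, hq2⟩ := mem_closure_iff.mp hp _ hopen (fun x _ => by
      rw [sub_self, abs_zero]; exact half_pos hδ)
    obtain ⟨y, hyC, hy1, hy2⟩ := hq2 I (δ / 2) (half_pos hδ)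
    by_cases hcase : 1 / ((n : ℝ) + 1) / 2 ≤ ‖y - F p‖
    · refine ⟨y, hyC, hcase, fun x hx => ?_⟩
      have h1 := hq1 x hx
      have h2 := hy2 x hx
      have h3 : y x - p.1 x = (y x - q.1 x) + (q.1 x - p.1 x) := by ring
      rw [h3]
      exact (abs_add_le _ _).trans_lt (by linarith)
    · push Not at hcase
      refine ⟨F q, hFC q, ?_, fun x hx => ?_⟩
      · have h3 : ‖y - F q‖ ≤ ‖y - F p‖ + ‖F q - F p‖ := by
          have : y - F q = (y - F p) - (F q - F p) := by abel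
          rw [this]
          exact norm_sub_le _ _
        linarith
      · rw [hFx]
        exact (hq1 x hx).trans (by linarith)
  obtain ⟨O, hO, hOeq⟩ := isOpen_induced_iff.mp (isOpen_interior (s := closure (E n)))
  have hp₀O : p₀.1 ∈ O := by
    have : p₀ ∈ Subtype.val ⁻¹' O := by rw [hOeq]; exact hp₀
    exact this
  obtain ⟨I₀, δ₀, hδ₀, hI₀⟩ := exists_finset_nhds hO hp₀O
  set V₀ : Set (X →L[ℝ] ℝ) := {f | f ∈ C ∧ ∀ x ∈ I₀, |f x - p₀.1 x| < δ₀} with hV₀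
  have hV₀conv : Convex ℝ V₀ := by
    intro f hf g hg a b ha hb hab
    refine ⟨hconv hf.1 hg.1 ha hb hab, fun x hx => ?_⟩
    have h1 := hf.2 x hx
    have h2 := hg.2 x hx
    show |a * f x + b * g x - p₀.1 x| < δ₀
    have h3 : a * f x + b * g x - p₀.1 x = a * (f x - p₀.1 x) + b * (g x - p₀.1 x) := by
      linear_combination (p₀.1 x) * hab
    rw [h3, abs_lt]
    rw [abs_lt] at h1 h2
    rcases eq_or_lt_of_le ha with h0 | h0
    · have hb1 : b = 1 := by linarith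
      rw [← h0, hb1]
      constructor <;> linarith
    · constructor <;> nlinarith
  have hVP : ∀ f ∈ V₀, ∀ (I : Finset X) (δ : ℝ), 0 < δ →
      ∃ y ∈ V₀, 1 / ((n : ℝ) + 1) / 2 ≤ ‖y - f‖ ∧ ∀ x ∈ I, |y x - f x| < δ := by
    intro f hf I δ hδ
    have hmem : (⟨fun x => f x, f, hf.1, rfl⟩ : C') ∈ closure (E n) := by
      apply interior_subset
      rw [← hOeq]
      exact hI₀ _ hf.2
    have hO' : IsOpen {q : X → ℝ | ∀ x ∈ I₀, |q x - p₀.1 x| < δ₀} := by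
      have : {q : X → ℝ | ∀ x ∈ I₀, |q x - p₀.1 x| < δ₀} =
          ⋂ x ∈ I₀, {q : X → ℝ | |q x - p₀.1 x| < δ₀} := by
        ext q; simp
      rw [this]
      exact isOpen_biInter_finset fun x _ =>
        isOpen_lt ((continuous_apply x).sub continuous_const).abs continuous_const
    obtain ⟨I₁, δ₁, hδ₁, hI₁⟩ := exists_finset_nhds hO' (show (fun x => f x) ∈ _ from hf.2)
    obtain ⟨y, hyC, hy1, hy2⟩ := hcl _ hmem (I ∪ I₁) (min δ δ₁) (lt_min hδ hδ₁)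
    rw [hFeq f hf.1] at hy1
    refine ⟨y, ⟨hyC, hI₁ _ fun x hx => ?_⟩, hy1, fun x hx => ?_⟩
    · exact (hy2 x (Finset.mem_union_right _ hx)).trans_le (min_le_right _ _)
    · exact (hy2 x (Finset.mem_union_left _ hx)).trans_le (min_le_left _ _)
  have hball : ∀ f ∈ C, ‖(R⁻¹ : ℝ) • f‖ ≤ 1 := by
    intro f hf
    rw [norm_smul, norm_inv, Real.norm_eq_abs, abs_of_pos hR, inv_mul_le_iff₀ hR, mul_one]
    exact hRb f hf
  refine ⟨{g : Bd X | R • toD g ∈ V₀}, 1 / ((n : ℝ) + 1) / 2 / R, ?_, ?_, by positivity, ?_⟩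
  · have h0 : F p₀ ∈ V₀ := ⟨hFC p₀, fun x _ => by rw [hFx, sub_self, abs_zero]; exact hδ₀⟩
    refine ⟨ofD ((R⁻¹ : ℝ) • F p₀) (hball _ (hFC p₀)), ?_⟩
    show R • toD (ofD ((R⁻¹ : ℝ) • F p₀) _) ∈ V₀
    rw [toD_ofD, smul_smul, mul_inv_cancel₀ hR.ne', one_smul]
    exact h0
  · intro a ha b hb t ht0 ht1 c hc
    show R • toD c ∈ V₀
    have h1 := hV₀conv ha hb (show (0 : ℝ) ≤ 1 - t by linarith) ht0 (by ring)
    rw [hc]
    have h2 : R • ((1 - t) • toD a + t • toD b) = (1 - t) • (R • toD a) + t • (R • toD b) := by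
      module
    rw [h2]
    exact h1
  · intro z hz I δ hδ
    obtain ⟨y, hy, hy1, hy2⟩ := hVP _ hz I (R * δ) (by positivity)
    refine ⟨ofD ((R⁻¹ : ℝ) • y) (hball y hy.1), ?_, ?_, fun x hx => ?_⟩
    · show R • toD (ofD ((R⁻¹ : ℝ) • y) _) ∈ V₀
      rw [toD_ofD, smul_smul, mul_inv_cancel₀ hR.ne', one_smul]
      exact hy
    · rw [toD_ofD]
      have h1 : (R⁻¹ : ℝ) • y - toD z = (R⁻¹ : ℝ) • (y - R • toD z) := by
        rw [smul_sub, smul_smul, inv_mul_cancel₀ hR.ne', one_smul]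
      rw [h1, norm_smul, norm_inv, Real.norm_eq_abs, abs_of_pos hR, div_le_iff₀ hR]
      have h2 : R⁻¹ * ‖y - R • toD z‖ * R = ‖y - R • toD z‖ := by
        field_simp
      rw [h2]
      exact hy1
    · have h1 := hy2 x hx
      rw [toD_ofD]
      show |R⁻¹ * y x - toD z x| < δ
      have h2 : (R • toD z) x = R * toD z x := rfl
      rw [h2] at h1
      have h3 : R⁻¹ * y x - toD z x = R⁻¹ * (y x - R * toD z x) := by
        field_simp
      rw [h3, abs_mul, abs_of_pos (inv_pos.mpr hR), inv_mul_lt_iff₀ hR]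
      exact h1

end Pool.Agent.Work.MP_df74ac_an
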