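import Pool.Agent.Work.MP_f490a9_an.Tree

set_option autoImplicit false

open Set Filter Topology Cardinal
open scoped Classical

namespace Pool.Agent.Work.MP_df74ac_an

open Pool.Agent.Work.MP_f490a9_an

universe u v

/-- Skolem functions for approximate values of a pairing. -/
lemma skolem {P R : Type*} [Nonempty P] (e : P → R → ℝ) :
    ∃ φ : List (R × ℚ) → ℕ → P, ∀ (p₀ : P) (I : Finset R) (ε : ℝ), 0 < ε →
      ∃ (l : List (R × ℚ)) (n : ℕ), (∀ x ∈ l, x.1 ∈ I) ∧ ∀ i ∈ I, |e (φ l n) i - e p₀ i| < ε := by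
  have h : ∀ (l : List (R × ℚ)) (n : ℕ), ∃ p : P,
      (∃ q : P, ∀ x ∈ l, |e q x.1 - x.2| < 1 / ((n : ℝ) + 1)) →
        ∀ x ∈ l, |e p x.1 - x.2| < 1 / ((n : ℝ) + 1) := by
    intro l n
    by_cases hq : ∃ q : P, ∀ x ∈ l, |e q x.1 - x.2| < 1 / ((n : ℝ) + 1)
    · obtain ⟨q, hq⟩ := hq
      exact ⟨q, fun _ => hq⟩
    · exact ⟨Classical.arbitrary P, fun h => absurd h hq⟩
  choose φ hφ using h
  refine ⟨φ, fun p₀ I ε hε => ?_⟩
  obtain ⟨n, hn⟩ := exists_nat_one_div_lt (half_pos hε)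
  have hc : ∀ i : R, ∃ c : ℚ, |e p₀ i - c| < 1 / ((n : ℝ) + 1) := by
    intro i
    obtain ⟨c, hc1, hc2⟩ := exists_rat_btwn
      (show e p₀ i - 1 / ((n : ℝ) + 1) < e p₀ i by
        have : (0 : ℝ) < 1 / ((n : ℝ) + 1) := by positivity
        linarith)
    refine ⟨c, ?_⟩
    rw [abs_lt]
    constructor <;> linarith
  choose c hc using hc
  refine ⟨I.toList.map fun i => (i, c i), n, ?_, fun i hi => ?_⟩
  · intro x hx
    rw [List.mem_map] at hx
    obtain ⟨i, hi, rfl⟩ := hx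
    exact Finset.mem_toList.mp hi
  · have h1 := hφ (I.toList.map fun i => (i, c i)) n ⟨p₀, by
      intro x hx
      rw [List.mem_map] at hx
      obtain ⟨i, -, rfl⟩ := hx
      exact hc i⟩ (i, c i) (List.mem_map.mpr ⟨i, Finset.mem_toList.mpr hi, rfl⟩)
    have h2 := hc i
    simp only at h1
    rw [abs_lt] at h1 h2 ⊢
    constructor <;> linarith [h1.1, h1.2, h2.1, h2.2]

/-- Compactness: approximate solvability implies exact solvability. -/
lemma exists_exact {P ι : Type*} [TopologicalSpace P] [CompactSpace P] {S : Set P}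
    (hS : IsClosed S) (v : ι → P → ℝ) (hv : ∀ i, Continuous (v i)) (c : ι → ℝ)
    (h : ∀ (I : Finset ι) (ε : ℝ), 0 < ε → ∃ p ∈ S, ∀ i ∈ I, |v i p - c i| < ε) :
    ∃ p ∈ S, ∀ i, v i p = c i := by
  have h1 := hS.isCompact.inter_iInter_nonempty
    (fun x : ι × ℕ => {p : P | |v x.1 p - c x.1| ≤ 1 / ((x.2 : ℝ) + 1)})
    (fun x => isClosed_le (((hv x.1).sub continuous_const).abs) continuous_const) (by
      intro u
      obtain ⟨p, hp, hI⟩ := h (u.image Prod.fst) (1 / ((u.sup Prod.snd : ℕ) + 1 : ℝ))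
        (by positivity)
      refine ⟨p, hp, mem_iInter₂.mpr fun x hx => ?_⟩
      have h2 := (hI x.1 (Finset.mem_image_of_mem _ hx)).le
      refine le_trans h2 ?_
      have h3 : (x.2 : ℝ) ≤ (u.sup Prod.snd : ℕ) := by
        exact_mod_cast Finset.le_sup (f := Prod.snd) hx
      exact one_div_le_one_div_of_le (by positivity) (by linarith))
  obtain ⟨p, hp, hp2⟩ := h1
  refine ⟨p, hp, fun i => ?_⟩
  rw [mem_iInter] at hp2
  by_contra hne
  have h3 : 0 < |v i p - c i| := abs_pos.mpr (sub_ne_zero.mpr hne)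
  obtain ⟨n, hn⟩ := exists_nat_one_div_lt h3
  have h4 : |v i p - c i| ≤ 1 / ((n : ℝ) + 1) := hp2 (i, n)
  linarith

section Closure

variable {A B : Type u}

/-- The two-sorted closure. -/
inductive Cl (φ : List (B × ℚ) → ℕ → A) (ψ : List (A × ℚ) → ℕ → B) (S : Set A) : A ⊕ B → Prop
  | base (x : A) : x ∈ S → Cl φ ψ S (Sum.inl x)
  | phi (l : List (B × ℚ)) (n : ℕ) : (∀ p ∈ l, Cl φ ψ S (Sum.inr p.1)) → Cl φ ψ S (Sum.inl (φ l n))
  | psi (l : List (A × ℚ)) (n : ℕ) : (∀ p ∈ l, Cl φ ψ S (Sum.inl p.1)) → Cl φ ψ S (Sum.inr (ψ l n))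

/-- The first sort of the closure. -/
def CE (φ : List (B × ℚ) → ℕ → A) (ψ : List (A × ℚ) → ℕ → B) (S : Set A) : Set A :=
  {x | Cl φ ψ S (Sum.inl x)}

/-- The second sort of the closure. -/
def CF (φ : List (B × ℚ) → ℕ → A) (ψ : List (A × ℚ) → ℕ → B) (S : Set A) : Set B :=
  {x | Cl φ ψ S (Sum.inr x)}

variable {φ : List (B × ℚ) → ℕ → A} {ψ : List (A × ℚ) → ℕ → B}

lemma Cl.mono {S T : Set A} (h : S ⊆ T) {z : A ⊕ B} (hz : Cl φ ψ S z) : Cl φ ψ T z := by
  induction hz with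
  | base x hx => exact Cl.base x (h hx)
  | phi l n _ ih => exact Cl.phi l n ih
  | psi l n _ ih => exact Cl.psi l n ih

lemma CE_mono {S T : Set A} (h : S ⊆ T) : CE φ ψ S ⊆ CE φ ψ T := fun _ hx => Cl.mono h hx

lemma CF_mono {S T : Set A} (h : S ⊆ T) : CF φ ψ S ⊆ CF φ ψ T := fun _ hx => Cl.mono h hx

lemma subset_CE (S : Set A) : S ⊆ CE φ ψ S := fun x hx => Cl.base x hx

lemma CE_subset {S R : Set A} (hS : S ⊆ R) (hφ : ∀ l n, φ l n ∈ R) : CE φ ψ S ⊆ R := by
  intro x hx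
  have : ∀ z : A ⊕ B, Cl φ ψ S z → ∀ x, z = Sum.inl x → x ∈ R := by
    intro z hz
    induction hz with
    | base y hy =>
      intro x hx
      rw [← Sum.inl_injective hx]
      exact hS hy
    | phi l n _ _ =>
      intro x hx
      rw [← Sum.inl_injective hx]
      exact hφ l n
    | psi l n _ _ =>
      intro x hx
      cases hx
  exact this _ hx x rfl

/-- The closure of a directed union is the union of the closures. -/
lemma Cl.iUnion {ι : Type*} [Nonempty ι] (T : ι → Set A) (hT : Directed (· ⊆ ·) T) {z : A ⊕ B}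
    (hz : Cl φ ψ (⋃ i, T i) z) : ∃ i, Cl φ ψ (T i) z := by
  induction hz with
  | base x hx =>
    obtain ⟨i, hi⟩ := mem_iUnion.mp hx
    exact ⟨i, Cl.base x hi⟩
  | phi l n _ ih =>
    have : ∃ i, ∀ p ∈ l, Cl φ ψ (T i) (Sum.inr p.1) := by
      clear * - ih hT
      induction l with
      | nil => exact ⟨Classical.arbitrary ι, by simp⟩
      | cons a l ihl =>
        obtain ⟨i, hi⟩ := ihl (fun p hp => ih p (List.mem_cons_of_mem _ hp))
        obtain ⟨j, hj⟩ := ih a List.mem_cons_self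
        obtain ⟨k, hk1, hk2⟩ := hT i j
        refine ⟨k, fun p hp => ?_⟩
        rcases List.mem_cons.mp hp with rfl | hp
        · exact hj.mono hk2
        · exact (hi p hp).mono hk1
    obtain ⟨i, hi⟩ := this
    exact ⟨i, Cl.phi l n hi⟩
  | psi l n _ ih =>
    have : ∃ i, ∀ p ∈ l, Cl φ ψ (T i) (Sum.inl p.1) := by
      clear * - ih hT
      induction l with
      | nil => exact ⟨Classical.arbitrary ι, by simp⟩
      | cons a l ihl =>
        obtain ⟨i, hi⟩ := ihl (fun p hp => ih p (List.mem_cons_of_mem _ hp))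
        obtain ⟨j, hj⟩ := ih a List.mem_cons_self
        obtain ⟨k, hk1, hk2⟩ := hT i j
        refine ⟨k, fun p hp => ?_⟩
        rcases List.mem_cons.mp hp with rfl | hp
        · exact hj.mono hk2
        · exact (hi p hp).mono hk1
    obtain ⟨i, hi⟩ := this
    exact ⟨i, Cl.psi l n hi⟩

/-- The stages of the closure. -/
noncomputable def stage (φ : List (B × ℚ) → ℕ → A) (ψ : List (A × ℚ) → ℕ → B) (S : Set A) :
    ℕ → Set A × Set B
  | 0 => (S, ∅)
  | n + 1 => ((stage φ ψ S n).1 ∪ range (fun p : List ((stage φ ψ S n).2 × ℚ) × ℕ =>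
        φ (p.1.map fun x => ((x.1 : B), x.2)) p.2),
      (stage φ ψ S n).2 ∪ range (fun p : List ((stage φ ψ S n).1 × ℚ) × ℕ =>
        ψ (p.1.map fun x => ((x.1 : A), x.2)) p.2))

lemma stage_mono (S : Set A) {m n : ℕ} (h : m ≤ n) :
    (stage φ ψ S m).1 ⊆ (stage φ ψ S n).1 ∧ (stage φ ψ S m).2 ⊆ (stage φ ψ S n).2 := by
  induction n, h using Nat.le_induction with
  | base => exact ⟨subset_rfl, subset_rfl⟩
  | succ n _ ih => exact ⟨ih.1.trans subset_union_left, ih.2.trans subset_union_left⟩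

lemma exists_lift_list {C : Type*} {s : ℕ → Set C} (hs : Monotone s) (l : List (C × ℚ))
    (h : ∀ p ∈ l, ∃ n, p.1 ∈ s n) :
    ∃ n, ∃ l' : List (s n × ℚ), l'.map (fun x => ((x.1 : C), x.2)) = l := by
  have h1 : ∃ n, ∀ p ∈ l, p.1 ∈ s n := by
    induction l with
    | nil => exact ⟨0, by simp⟩
    | cons a l ih =>
      obtain ⟨n, hn⟩ := ih (fun p hp => h p (List.mem_cons_of_mem _ hp))
      obtain ⟨m, hm⟩ := h a List.mem_cons_self
      refine ⟨max n m, fun p hp => ?_⟩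
      rcases List.mem_cons.mp hp with rfl | hp
      · exact hs (le_max_right _ _) hm
      · exact hs (le_max_left _ _) (hn p hp)
  obtain ⟨n, hn⟩ := h1
  refine ⟨n, ?_⟩
  induction l with
  | nil => exact ⟨[], rfl⟩
  | cons a l ih =>
    obtain ⟨l', hl'⟩ := ih (fun p hp => h p (List.mem_cons_of_mem _ hp))
      (fun p hp => hn p (List.mem_cons_of_mem _ hp))
    refine ⟨(⟨a.1, hn a List.mem_cons_self⟩, a.2) :: l', ?_⟩
    rw [List.map_cons, hl']

lemma Cl.stage {S : Set A} {z : A ⊕ B} (hz : Cl φ ψ S z) :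
    ∃ n, (∀ x, z = Sum.inl x → x ∈ (stage φ ψ S n).1) ∧
      (∀ y, z = Sum.inr y → y ∈ (stage φ ψ S n).2) := by
  induction hz with
  | base x hx =>
    refine ⟨0, fun y hy => ?_, fun y hy => by cases hy⟩
    rw [← Sum.inl_injective hy]
    exact hx
  | phi l m _ ih =>
    obtain ⟨n, l', hl'⟩ := exists_lift_list (s := fun n => (MP_df74ac_an.stage φ ψ S n).2)
      (fun i j hij => (stage_mono S hij).2) l (fun p hp => by
        obtain ⟨n, -, hn⟩ := ih p hp
        exact ⟨n, hn _ rfl⟩)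
    refine ⟨n + 1, fun y hy => ?_, fun y hy => by cases hy⟩
    rw [← Sum.inl_injective hy]
    exact Or.inr ⟨(l', m), by simp only [hl']⟩
  | psi l m _ ih =>
    obtain ⟨n, l', hl'⟩ := exists_lift_list (s := fun n => (MP_df74ac_an.stage φ ψ S n).1)
      (fun i j hij => (stage_mono S hij).1) l (fun p hp => by
        obtain ⟨n, hn, -⟩ := ih p hp
        exact ⟨n, hn _ rfl⟩)
    refine ⟨n + 1, fun y hy => (by cases hy), fun y hy => ?_⟩
    rw [← Sum.inr_injective hy]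
    exact Or.inr ⟨(l', m), by simp only [hl']⟩

lemma card_list_le {C : Type u} {κ : Cardinal.{u}} (hκ : ℵ₀ ≤ κ) (hC : #C ≤ κ) :
    #(List (C × ℚ) × ℕ) ≤ κ := by
  have h1 : #(C × ℚ) ≤ κ := by
    rw [mk_prod, lift_uzero]
    refine mul_le_of_le hκ hC ?_
    rw [mk_eq_aleph0 ℚ, lift_aleph0]
    exact hκ
  have h2 : #(List (C × ℚ)) ≤ κ := (mk_list_le_max _).trans (max_le hκ h1)
  rw [mk_prod, lift_uzero]
  refine mul_le_of_le hκ h2 ?_
  rw [mk_nat, lift_aleph0]
  exact hκ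

lemma card_stage {S : Set A} {κ : Cardinal.{u}} (hκ : ℵ₀ ≤ κ) (hS : #S ≤ κ) (n : ℕ) :
    #(stage φ ψ S n).1 ≤ κ ∧ #(stage φ ψ S n).2 ≤ κ := by
  induction n with
  | zero =>
    refine ⟨hS, ?_⟩
    show #(∅ : Set B) ≤ κ
    rw [mk_eq_zero]
    exact bot_le
  | succ n ih =>
    constructor
    · refine (mk_union_le _ _).trans (add_le_of_le hκ ih.1 ?_)
      exact mk_range_le.trans (card_list_le hκ ih.2)
    · refine (mk_union_le _ _).trans (add_le_of_le hκ ih.2 ?_)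
      exact mk_range_le.trans (card_list_le hκ ih.1)

lemma card_CE {S : Set A} {κ : Cardinal.{u}} (hκ : ℵ₀ ≤ κ) (hS : #S ≤ κ) :
    #(CE φ ψ S) ≤ κ := by
  have h1 : CE φ ψ S ⊆ ⋃ n : ULift.{u} ℕ, (stage φ ψ S n.down).1 := by
    intro x hx
    obtain ⟨n, hn, -⟩ := Cl.stage hx
    exact mem_iUnion.mpr ⟨⟨n⟩, hn x rfl⟩
  refine (mk_le_mk_of_subset h1).trans ((mk_iUnion_le _).trans ?_)
  refine mul_le_of_le hκ ?_ (ciSup_le' fun n => (card_stage hκ hS n.down).1)
  rw [mk_uLift, mk_nat, lift_aleph0]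
  exact hκ

end Closure

end Pool.Agent.Work.MP_df74ac_an
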