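import Pool.Agent.Work.MP_df74ac_an.AL

set_option autoImplicit false
set_option linter.unusedSectionVars false
set_option linter.unusedVariables false

open Set Filter Topology Cardinal
open scoped Classical

namespace Pool.Agent.Work.MP_df74ac_an

open Pool.Agent.Work.MP_f490a9_an

universe u v

variable {X : Type u} [NormedAddCommGroup X] [NormedSpace ℝ X] [CompleteSpace X]

/-- The evaluation map. -/
def evX (X : Type u) [NormedAddCommGroup X] [NormedSpace ℝ X] (x : X) : (X →L[ℝ] ℝ) → ℝ :=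
  fun f => f x

/-- The compact space. -/
def Q0 (K : Set X) : Type u := {g : (X →L[ℝ] ℝ) → ℝ // g ∈ evX X '' K}

instance (K : Set X) : TopologicalSpace (Q0 K) :=
  instTopologicalSpaceSubtype

/-- The parametrisation. -/
noncomputable def k0 {K : Set X} (q : Q0 K) : X := Classical.choose q.2

lemma k0_mem {K : Set X} (q : Q0 K) : k0 q ∈ K := (Classical.choose_spec q.2).1

lemma k0_eval {K : Set X} (q : Q0 K) (f : X →L[ℝ] ℝ) : f (k0 q) = q.1 f :=
  congrFun (Classical.choose_spec q.2).2 f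

/-- points of `Q0` -/
def mkQ0 {K : Set X} (x : X) (hx : x ∈ K) : Q0 K := ⟨evX X x, mem_image_of_mem _ hx⟩

lemma mkQ0_eval {K : Set X} (x : X) (hx : x ∈ K) (f : X →L[ℝ] ℝ) : f (k0 (mkQ0 x hx)) = f x :=
  k0_eval _ f

lemma k0_wcont (K : Set X) : WCont (k0 : Q0 K → X) := by
  intro f
  have : (fun q : Q0 K => f (k0 q)) = fun q : Q0 K => q.1 f := by
    ext q
    exact k0_eval q f
  rw [this]
  exact (continuous_apply f).comp continuous_subtype_val

lemma Q0_compact {K : Set X} (hK : @IsCompact X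
    (TopologicalSpace.induced (fun (x : X) (f : X →L[ℝ] ℝ) => f x) inferInstance) K) :
    CompactSpace (Q0 K) := by
  let τ : TopologicalSpace X :=
    TopologicalSpace.induced (fun (x : X) (f : X →L[ℝ] ℝ) => f x) inferInstance
  have hind : @IsInducing _ _ τ _ (evX X) := @IsInducing.mk _ _ τ _ _ rfl
  have h1 : IsCompact (evX X '' K) := (@Topology.IsInducing.isCompact_iff _ _ τ _ _ _ hind).mp hK
  exact isCompact_iff_compactSpace.mp h1

lemma K_bounded {K : Set X} [CompactSpace (Q0 K)] : ∃ C : ℝ, 0 < C ∧ ∀ q : Q0 K, ‖k0 q‖ ≤ C := by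
  obtain ⟨C, hC⟩ := banach_steinhaus (g := fun q : Q0 K =>
    NormedSpace.inclusionInDoubleDual ℝ X (k0 q)) (fun f => by
      obtain ⟨M, -, hM⟩ := bdd_of_wcont (k0_wcont K) f
      exact ⟨M, fun q => hM q⟩)
  refine ⟨max C 1, by positivity, fun q => ?_⟩
  have h1 : ‖NormedSpace.inclusionInDoubleDual ℝ X (k0 q)‖ = ‖k0 q‖ :=
    (NormedSpace.inclusionInDoubleDualLi (𝕜 := ℝ) (E := X)).norm_map (k0 q)
  rw [← h1]
  exact (hC q).trans (le_max_left _ _)

/-- The big compact space. -/
abbrev QQ (K : Set X) : Type u := ℕ → Q0 K × Icc (-1 : ℝ) 1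

/-- the weights -/
noncomputable def wt (n : ℕ) : ℝ := 1 / ((n : ℝ) + 1) ^ 2

lemma wt_pos (n : ℕ) : 0 < wt n := by unfold wt; positivity

lemma wt_summable : Summable wt := by
  have h1 : Summable fun n : ℕ => 1 / (n : ℝ) ^ 2 := Real.summable_one_div_nat_pow.mpr (by norm_num)
  have h2 := (summable_nat_add_iff 1).mpr h1
  refine h2.congr fun n => ?_
  unfold wt
  push_cast
  rfl

/-- The big parametrisation. -/
noncomputable def kk {K : Set X} (q : QQ K) : X :=
  ∑' n, (wt n * ((q n).2 : ℝ)) • k0 (q n).1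

lemma term_bound {K : Set X} {C : ℝ} (hC : ∀ q : Q0 K, ‖k0 q‖ ≤ C) (q : QQ K) (n : ℕ) :
    ‖(wt n * ((q n).2 : ℝ)) • k0 (q n).1‖ ≤ wt n * C := by
  rw [norm_smul, Real.norm_eq_abs, abs_mul, abs_of_pos (wt_pos n)]
  have h1 : |((q n).2 : ℝ)| ≤ 1 := abs_le.mpr (q n).2.2
  have h2 := wt_pos n
  have h3 := hC (q n).1
  have h4 : wt n * |((q n).2 : ℝ)| ≤ wt n := by nlinarith
  exact mul_le_mul h4 h3 (norm_nonneg _) h2.le

lemma term_summable {K : Set X} [CompactSpace (Q0 K)] (q : QQ K) :
    Summable fun n => (wt n * ((q n).2 : ℝ)) • k0 (q n).1 := by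
  obtain ⟨C, -, hC⟩ := K_bounded (K := K)
  exact Summable.of_norm_bounded (wt_summable.mul_right C) fun n => term_bound hC q n

lemma kk_wcont {K : Set X} [CompactSpace (Q0 K)] : WCont (kk : QQ K → X) := by
  intro f
  obtain ⟨C, hC0, hC⟩ := K_bounded (K := K)
  have h1 : (fun q : QQ K => f (kk q)) = fun q : QQ K =>
      ∑' n, f ((wt n * ((q n).2 : ℝ)) • k0 (q n).1) := by
    ext q
    exact f.map_tsum (term_summable q)
  rw [h1]
  refine continuous_tsum (u := fun n => ‖f‖ * (wt n * C)) (fun n => ?_)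
    ((wt_summable.mul_right C).mul_left _) fun n q => ?_
  · have h2 : (fun q : QQ K => f ((wt n * ((q n).2 : ℝ)) • k0 (q n).1)) =
        fun q : QQ K => (wt n * ((q n).2 : ℝ)) * f (k0 (q n).1) := by
      ext q
      rw [map_smul, smul_eq_mul]
    rw [h2]
    have h3 : Continuous fun q : QQ K => f (k0 (q n).1) :=
      (k0_wcont K f).comp (continuous_fst.comp (continuous_apply n))
    have h4 : Continuous fun q : QQ K => ((q n).2 : ℝ) :=
      continuous_subtype_val.comp (continuous_snd.comp (continuous_apply n))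
    exact (continuous_const.mul h4).mul h3
  · exact (f.le_opNorm _).trans (mul_le_mul_of_nonneg_left (term_bound hC q n) (norm_nonneg _))

lemma kk_HK {K : Set X} [CompactSpace (Q0 K)] [Nonempty (Q0 K)] : HK (kk : QQ K → X) where
  zero := by
    refine ⟨fun _ => (Classical.arbitrary _, ⟨0, by norm_num, by norm_num⟩), ?_⟩
    unfold kk
    simp
  quarter := by
    intro p q
    have hs : ∀ n : ℕ, wt n = 4 * wt (2 * n + 1) := by
      intro n
      unfold wt
      push_cast
      field_simp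
      ring
    have hs2 : ∀ n : ℕ, wt n ≤ 4 * wt (2 * n) := by
      intro n
      unfold wt
      push_cast
      rw [mul_one_div, div_le_div_iff₀ (by positivity) (by positivity)]
      have : (0 : ℝ) ≤ n := by positivity
      nlinarith
    have hc : ∀ n : ℕ, ∃ t : Icc (-1 : ℝ) 1,
        wt (2 * n) * (t : ℝ) = (1 / 4) * (wt n * ((p n).2 : ℝ)) := by
      intro n
      have h1 := wt_pos n
      have h2 := wt_pos (2 * n)
      have h3 : |((p n).2 : ℝ)| ≤ 1 := abs_le.mpr (p n).2.2
      have h4 : |(1 / 4) * (wt n * ((p n).2 : ℝ)) / wt (2 * n)| ≤ 1 := by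
        rw [abs_div, abs_mul, abs_mul, abs_of_pos h1, abs_of_pos h2,
          abs_of_pos (by norm_num : (0 : ℝ) < 1 / 4), div_le_one h2]
        have := hs2 n
        nlinarith
      exact ⟨⟨_, abs_le.mp h4⟩, by
        show wt (2 * n) * ((1 / 4) * (wt n * ((p n).2 : ℝ)) / wt (2 * n)) = _
        field_simp⟩
    choose t ht using hc
    have hneg : ∀ s : Icc (-1 : ℝ) 1, -(s : ℝ) ∈ Icc (-1 : ℝ) 1 := fun s =>
      ⟨by linarith [s.2.2], by linarith [s.2.1]⟩
    set r : QQ K := fun m => if m % 2 = 0 then ((p (m / 2)).1, t (m / 2)) else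
      ((q (m / 2)).1, ⟨-((q (m / 2)).2 : ℝ), hneg _⟩) with hr
    refine ⟨r, ?_⟩
    have hr0 : ∀ n, r (2 * n) = ((p n).1, t n) := by
      intro n
      have h1 : 2 * n % 2 = 0 := by omega
      have h2 : 2 * n / 2 = n := by omega
      simp only [hr, h1, if_true, h2]
    have hr1 : ∀ n, r (2 * n + 1) = ((q n).1, ⟨-((q n).2 : ℝ), hneg _⟩) := by
      intro n
      have h1 : ¬ ((2 * n + 1) % 2 = 0) := by omega
      have h2 : (2 * n + 1) / 2 = n := by omega
      simp only [hr, h1, if_false, h2]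
    have e0 : ∀ n, (wt (2 * n) * ((r (2 * n)).2 : ℝ)) • k0 (r (2 * n)).1 =
        (1 / 4 : ℝ) • ((wt n * ((p n).2 : ℝ)) • k0 (p n).1) := by
      intro n
      rw [hr0, smul_smul]
      simp only [ht]
    have e1 : ∀ n, (wt (2 * n + 1) * ((r (2 * n + 1)).2 : ℝ)) • k0 (r (2 * n + 1)).1 =
        (1 / 4 : ℝ) • (-((wt n * ((q n).2 : ℝ)) • k0 (q n).1)) := by
      intro n
      rw [hr1, ← neg_smul, smul_smul]
      congr 1
      simp only
      rw [hs n]
      ring
    have hsum := term_summable r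
    unfold kk
    rw [← tsum_even_add_odd (f := fun n => (wt n * ((r n).2 : ℝ)) • k0 (r n).1)
      (hsum.comp_injective (fun a b h => by simpa using h))
      (hsum.comp_injective (fun a b h => by simpa using h))]
    simp only [e0, e1]
    rw [(term_summable p).tsum_const_smul, ((term_summable q).neg).tsum_const_smul, tsum_neg]
    module

/-- Weakly compactly generated spaces have an Amir–Lindenstrauss family. -/
theorem WCG_family [Nontrivial X] {K : Set X} (hK : @IsCompact X
    (TopologicalSpace.induced (fun (x : X) (f : X →L[ℝ] ℝ) => f x) inferInstance) K)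
    (hd : Dense ((Submodule.span ℝ K : Submodule ℝ X) : Set X)) :
    ∃ G : Set X, (∀ f : StrongDual ℝ X, (∀ x ∈ G, f x = 0) → f = 0) ∧ CZ G := by
  have hne : K.Nonempty := by
    by_contra h
    rw [not_nonempty_iff_eq_empty] at h
    subst h
    rw [Submodule.span_empty] at hd
    obtain ⟨x, hx⟩ := exists_ne (0 : X)
    have h1 := hd x
    rw [Submodule.bot_coe, closure_singleton] at h1
    exact hx h1
  have := Q0_compact hK
  obtain ⟨x₁, hx₁⟩ := hne
  have : Nonempty (Q0 K) := ⟨mkQ0 x₁ hx₁⟩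
  obtain ⟨G, hG1, hG2⟩ := AL_HK (kk : QQ K → X) kk_wcont kk_HK
  refine ⟨G, fun f hf => ?_, hG2⟩
  have h1 : ∀ q : QQ K, f (kk q) = 0 := fun q => hG1 (mem_range_self q) f hf
  have h2 : ∀ x ∈ K, f x = 0 := by
    intro x hx
    have h3 := h1 (fun n => (mkQ0 x hx, if n = 0 then ⟨1, by norm_num, by norm_num⟩
      else ⟨0, by norm_num, by norm_num⟩))
    unfold kk at h3
    rw [tsum_eq_single 0] at h3
    · simp only [if_true] at h3
      rw [map_smul, mkQ0_eval] at h3
      have h4 : wt 0 = 1 := by unfold wt; norm_num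
      rw [h4] at h3
      simpa using h3
    · intro n hn
      simp [hn]
  have h3 : (Submodule.span ℝ K : Submodule ℝ X) ≤ LinearMap.ker (f : X →ₗ[ℝ] ℝ) := by
    rw [Submodule.span_le]
    intro x hx
    exact h2 x hx
  ext x
  have h4 : IsClosed {x : X | f x = 0} := isClosed_eq f.continuous continuous_const
  have h5 : closure ((Submodule.span ℝ K : Submodule ℝ X) : Set X) ⊆ {x : X | f x = 0} :=
    closure_minimal (fun y hy => h3 hy) h4
  exact h5 (hd x)

end Pool.Agent.Work.MP_df74ac_an
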