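import Pool.Agent.Work.MP_df74ac_an.BaireStep
import Pool.Agent.Work.MP_df74ac_an.WCG

set_option autoImplicit false
set_option linter.unusedSectionVars false
set_option linter.unusedVariables false

open Set Filter Topology
open scoped Classical

namespace Pool.Agent.Work.MP_df74ac_an

open Pool.Agent.Work.MP_f490a9_an

universe u v

variable {X : Type u} [NormedAddCommGroup X] [NormedSpace ℝ X]

/-- The part of `G` seen by `A`. -/
def SS (G : Set X) (A : Set (Bd X)) : Set X := {x | x ∈ G ∧ ∃ a ∈ A, toD a x ≠ 0}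

lemma SS_mono (G : Set X) {A B : Set (Bd X)} (h : A ⊆ B) : SS G A ⊆ SS G B :=
  fun _ ⟨h1, a, ha, h2⟩ => ⟨h1, a, h ha, h2⟩

lemma SS_countable {G : Set X} (hG : CZ G) {A : Set (Bd X)} (hA : A.Countable) :
    (SS G A).Countable := by
  have h1 : (⋃ a ∈ A, ⋃ n : ℕ, {x ∈ G | 1 / ((n : ℝ) + 1) < |toD a x|}).Countable :=
    hA.biUnion fun a _ => countable_iUnion fun n => (hG (toD a) _ (by positivity)).countable
  refine h1.mono ?_
  rintro x ⟨hx, a, ha, h0⟩
  obtain ⟨n, hn⟩ := exists_nat_one_div_lt (abs_pos.mpr h0)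
  exact mem_iUnion₂.mpr ⟨a, ha, mem_iUnion.mpr ⟨n, hx, hn⟩⟩

lemma toD_injective : Function.Injective (toD : Bd X → StrongDual ℝ X) := by
  intro a b h
  apply Subtype.ext
  exact WeakDual.toStrongDual.injective h

theorem close_off {V : Set (Bd X)} {ε : ℝ} (hne : V.Nonempty) (hV : Conv V)
    (hP : ∀ z ∈ V, ∀ (I : Finset X) (δ : ℝ), 0 < δ →
        ∃ y ∈ V, ε ≤ ‖toD y - toD z‖ ∧ ∀ x ∈ I, |toD y x - toD z x| < δ)
    {G : Set X} (hG : CZ G) :
    ∃ A : Set (Bd X), A.Nonempty ∧ (SS G A).Countable ∧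
      (∀ a ∈ A, ∀ b ∈ A, ∀ t : ℚ, 0 ≤ t → t ≤ 1 → ∀ c : Bd X,
        toD c = (1 - (t : ℝ)) • toD a + (t : ℝ) • toD b → c ∈ A) ∧
      ∀ a ∈ A, ∀ I : Finset X, (∀ x ∈ I, x ∈ SS G A) → ∀ δ : ℝ, 0 < δ →
        ∃ y ∈ A, ε ≤ ‖toD y - toD a‖ ∧ ∀ x ∈ I, |toD y x - toD a x| < δ := by
  have hc : ∀ (a b : Bd X) (t : ℚ), ∃ c : Bd X,
      (0 ≤ t → t ≤ 1 → toD c = (1 - (t : ℝ)) • toD a + (t : ℝ) • toD b) ∧
      (a ∈ V → b ∈ V → c ∈ V) := by
    intro a b t
    by_cases ht : 0 ≤ t ∧ t ≤ 1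
    · have ht0 : (0 : ℝ) ≤ t := by exact_mod_cast ht.1
      have ht1 : (t : ℝ) ≤ 1 := by exact_mod_cast ht.2
      have hn : ‖(1 - (t : ℝ)) • toD a + (t : ℝ) • toD b‖ ≤ 1 := by
        refine (norm_add_le _ _).trans ?_
        rw [norm_smul, norm_smul, Real.norm_eq_abs, Real.norm_eq_abs, abs_of_nonneg ht0,
          abs_of_nonneg (by linarith)]
        have h1 := toD_norm a
        have h2 := toD_norm b
        nlinarith
      exact ⟨ofD _ hn, fun _ _ => toD_ofD _ _, fun ha hb =>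
        hV a ha b hb t ht0 ht1 _ (toD_ofD _ _)⟩
    · exact ⟨a, fun h0 h1 => absurd ⟨h0, h1⟩ ht, fun ha _ => ha⟩
  choose cmb hcmb1 hcmb2 using hc
  have hp : ∀ (a : Bd X) (I : Finset X) (n : ℕ), ∃ y : Bd X, a ∈ V →
      y ∈ V ∧ ε ≤ ‖toD y - toD a‖ ∧ ∀ x ∈ I, |toD y x - toD a x| < 1 / ((n : ℝ) + 1) := by
    intro a I n
    by_cases ha : a ∈ V
    · obtain ⟨y, hy, h1, h2⟩ := hP a ha I (1 / ((n : ℝ) + 1)) (by positivity)
      exact ⟨y, fun _ => ⟨hy, h1, h2⟩⟩
    · exact ⟨a, fun h => absurd h ha⟩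
  choose pp hpp using hp
  obtain ⟨a₀, ha₀⟩ := hne
  let step : Set (Bd X) → Set (Bd X) := fun A =>
    A ∪ (range (fun p : A × A × ℚ => cmb p.1 p.2.1 p.2.2) ∪
      range (fun p : A × Finset (SS G A) × ℕ =>
        pp p.1 (p.2.1.map (Function.Embedding.subtype _)) p.2.2))
  obtain ⟨T, hT0, hTs⟩ : ∃ T : ℕ → Set (Bd X), T 0 = {a₀} ∧ ∀ n, T (n + 1) = step (T n) :=
    ⟨fun n => step^[n] {a₀}, rfl, fun n => Function.iterate_succ_apply' _ _ _⟩
  have hTmono : Monotone T := monotone_nat_of_le_succ fun n => by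
    rw [hTs]; exact subset_union_left
  have hTc : ∀ n, (T n).Countable := by
    intro n
    induction n with
    | zero => rw [hT0]; exact countable_singleton _
    | succ n ih =>
      rw [hTs]
      have i1 : _root_.Countable ↥(T n) := ih.to_subtype
      have i2 : _root_.Countable ↥(SS G (T n)) := (SS_countable hG ih).to_subtype
      have i3 : _root_.Countable (↥(T n) × ↥(T n) × ℚ) := inferInstance
      have i4 : _root_.Countable (↥(T n) × Finset ↥(SS G (T n)) × ℕ) := inferInstance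
      refine ih.union (Set.Countable.union ?_ ?_)
      · exact countable_range _
      · exact countable_range _
  have hTV : ∀ n, T n ⊆ V := by
    intro n
    induction n with
    | zero => rw [hT0]; exact singleton_subset_iff.mpr ha₀
    | succ n ih =>
      rw [hTs]
      refine union_subset ih (union_subset ?_ ?_)
      · rintro _ ⟨p, rfl⟩
        exact hcmb2 _ _ _ (ih p.1.2) (ih p.2.1.2)
      · rintro _ ⟨p, rfl⟩
        exact (hpp _ _ _ (ih p.1.2)).1
  have hSSfin : ∀ I : Finset X, (∀ x ∈ I, x ∈ SS G (⋃ n, T n)) → ∃ n, ∀ x ∈ I, x ∈ SS G (T n) := by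
    intro I hI
    induction I using Finset.induction_on with
    | empty => exact ⟨0, by simp⟩
    | insert a s _ ih =>
      obtain ⟨n, hn⟩ := ih (fun x hx => hI x (Finset.mem_insert_of_mem hx))
      obtain ⟨h1, b, hb, h2⟩ := hI a (Finset.mem_insert_self _ _)
      obtain ⟨m, hm⟩ := mem_iUnion.mp hb
      refine ⟨max n m, fun x hx => ?_⟩
      rcases Finset.mem_insert.mp hx with rfl | hx
      · exact ⟨h1, b, hTmono (le_max_right _ _) hm, h2⟩
      · exact SS_mono G (hTmono (le_max_left _ _)) (hn x hx)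
  refine ⟨⋃ n, T n, ⟨a₀, mem_iUnion.mpr ⟨0, by rw [hT0]; exact mem_singleton _⟩⟩, SS_countable hG (countable_iUnion hTc), ?_, ?_⟩
  · intro a ha b hb t ht0 ht1 c hc
    obtain ⟨n, hn⟩ := mem_iUnion.mp ha
    obtain ⟨m, hm⟩ := mem_iUnion.mp hb
    have hn' := hTmono (le_max_left n m) hn
    have hm' := hTmono (le_max_right n m) hm
    have : c = cmb a b t := toD_injective (by rw [hc, hcmb1 a b t ht0 ht1])
    rw [this]
    refine mem_iUnion.mpr ⟨max n m + 1, ?_⟩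
    rw [hTs]
    exact Or.inr (Or.inl ⟨(⟨a, hn'⟩, ⟨b, hm'⟩, t), rfl⟩)
  · intro a ha I hI δ hδ
    obtain ⟨n, hn⟩ := mem_iUnion.mp ha
    obtain ⟨m, hm⟩ := hSSfin I hI
    obtain ⟨N, hN⟩ := exists_nat_one_div_lt hδ
    have hn' := hTmono (le_max_left n m) hn
    have hm' : ∀ x ∈ I, x ∈ SS G (T (max n m)) := fun x hx =>
      SS_mono G (hTmono (le_max_right n m)) (hm x hx)
    obtain ⟨-, h1, h2⟩ := hpp a I N (hTV _ hn')
    refine ⟨pp a I N, ?_, h1, fun x hx => (h2 x hx).trans hN⟩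
    refine mem_iUnion.mpr ⟨max n m + 1, ?_⟩
    rw [hTs]
    refine Or.inr (Or.inr ⟨(⟨a, hn'⟩, I.subtype (fun x => x ∈ SS G (T (max n m))), N), ?_⟩)
    show pp a ((I.subtype _).map _) N = pp a I N
    rw [Finset.subtype_map_of_mem hm']

end Pool.Agent.Work.MP_df74ac_an
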