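import Pool.Agent.Work.MP_df74ac_an.Renorm

set_option autoImplicit false

open Set Filter Topology
open scoped Classical

namespace Pool.Agent.Work.MP_df74ac_an

variable {X : Type*} [NormedAddCommGroup X] [NormedSpace ℝ X]

/-- The dual ball of the norm `N`. -/
def DB (N : X → ℝ) : Set (X →L[ℝ] ℝ) := {f | ∀ x, f x ≤ N x}

/-- A basic neighbourhood in a product of copies of `ℝ`. -/
lemma exists_finset_nhds {ι : Type*} {U : Set (ι → ℝ)} (hU : IsOpen U) {p : ι → ℝ} (hp : p ∈ U) :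
    ∃ (I : Finset ι) (δ : ℝ), 0 < δ ∧ ∀ q : ι → ℝ, (∀ i ∈ I, |q i - p i| < δ) → q ∈ U := by
  rw [isOpen_pi_iff] at hU
  obtain ⟨I, u, h1, h2⟩ := hU p hp
  have h3 : ∀ i ∈ I, ∃ δ : ℝ, 0 < δ ∧ ∀ t : ℝ, |t - p i| < δ → t ∈ u i := by
    intro i hi
    obtain ⟨δ, hδ, hb⟩ := Metric.isOpen_iff.mp (h1 i hi).1 (p i) (h1 i hi).2
    exact ⟨δ, hδ, fun t ht => hb (by rwa [Metric.mem_ball, Real.dist_eq])⟩
  choose! δ hδ hball using h3
  have h4 : ∃ ρ : ℝ, 0 < ρ ∧ ∀ i ∈ I, ρ ≤ δ i := by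
    clear h2 hball h1
    induction I using Finset.induction_on with
    | empty => exact ⟨1, one_pos, by simp⟩
    | insert a s ha ih =>
      obtain ⟨ρ, hρ, h⟩ := ih (fun i hi => hδ i (Finset.mem_insert_of_mem hi))
      refine ⟨min ρ (δ a), lt_min hρ (hδ a (Finset.mem_insert_self _ _)), fun i hi => ?_⟩
      rcases Finset.mem_insert.mp hi with h' | h'
      · rw [h']; exact min_le_right _ _
      · exact (min_le_left _ _).trans (h i h')
  obtain ⟨ρ, hρ, h⟩ := h4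
  refine ⟨I, ρ, hρ, fun q hq => h2 fun i hi => ?_⟩
  exact hball i hi _ ((hq i hi).trans_le (h i hi))

namespace EqNorm

variable {N : X → ℝ} {c₁ c₂ : ℝ} (hN : EqNorm N c₁ c₂)
include hN

lemma grad_gap {y h : X} {ε : ℝ} (hh : h ≠ 0) (hD : ε * ‖h‖ ≤ D N y h) {L L' : X →L[ℝ] ℝ}
    (hL : IsGrad N (y + h) L) (hL' : IsGrad N (y - h) L') : ε ≤ ‖L - L'‖ := by
  have h1 := hN.grad_le hL (-h)
  have h2 := hN.grad_le hL' h
  rw [map_neg, add_neg_cancel_right] at h1
  rw [sub_add_cancel] at h2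
  have h3 : (L - L') h ≤ ‖L - L'‖ * ‖h‖ :=
    (le_abs_self _).trans ((L - L').le_opNorm h)
  have h4 : (L - L') h = L h - L' h := rfl
  unfold D at hD
  have h5 : ε * ‖h‖ ≤ ‖L - L'‖ * ‖h‖ := by linarith
  exact le_of_mul_le_mul_right h5 (norm_pos_iff.mpr hh)

lemma grad_cont_aux {y : X} {L : X →L[ℝ] ℝ} (hL : IsGrad N y L) (v : X) {δ : ℝ} (hδ : 0 < δ) :
    ∃ ρ : ℝ, 0 < ρ ∧ ∀ (u : X) (L' : X →L[ℝ] ℝ), ‖u‖ < ρ → IsGrad N (y + u) L' →
      L' v < L v + δ := by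
  have h1 := (hL v).tendsto_slope_zero_right
  simp only [zero_smul, add_zero, zero_add, smul_eq_mul] at h1
  have h2 : ∀ᶠ t : ℝ in 𝓝[>] 0, t⁻¹ * (N (y + t • v) - N y) < L v + δ / 2 :=
    h1.eventually_lt_const (by linarith)
  obtain ⟨t, ht, ht0⟩ := (h2.and self_mem_nhdsWithin).exists
  have ht0 : 0 < t := ht0
  have hc₂ := hN.pos₂
  rw [inv_mul_lt_iff₀ ht0] at ht
  refine ⟨t * δ / (4 * c₂), by positivity, fun u L' hu hL' => ?_⟩
  have h3 := hN.grad_le hL' (t • v)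
  rw [map_smul, smul_eq_mul] at h3
  have h4 := hN.sub_le (y + u + t • v) (y + t • v)
  have h5 := hN.sub_le y (y + u)
  have e1 : y + u + t • v - (y + t • v) = u := by abel
  have e2 : y - (y + u) = -u := by abel
  rw [e1] at h4
  rw [e2, norm_neg] at h5
  rw [lt_div_iff₀ (by positivity)] at hu
  have h6 : t * L' v < t * (L v + δ) := by nlinarith
  exact lt_of_mul_lt_mul_left h6 ht0.le

lemma grad_cont {y : X} {L : X →L[ℝ] ℝ} (hL : IsGrad N y L) (I : Finset X) {δ : ℝ} (hδ : 0 < δ) :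
    ∃ ρ : ℝ, 0 < ρ ∧ ∀ (u : X) (L' : X →L[ℝ] ℝ), ‖u‖ < ρ → IsGrad N (y + u) L' →
      ∀ v ∈ I, |L' v - L v| < δ := by
  induction I using Finset.induction_on with
  | empty => exact ⟨1, one_pos, by simp⟩
  | insert a s ha ih =>
    obtain ⟨ρ, hρ, h⟩ := ih
    obtain ⟨ρ1, hρ1, h1⟩ := hN.grad_cont_aux hL a hδ
    obtain ⟨ρ2, hρ2, h2⟩ := hN.grad_cont_aux hL (-a) hδ
    refine ⟨min ρ (min ρ1 ρ2), lt_min hρ (lt_min hρ1 hρ2), fun u L' hu hL' v hv => ?_⟩
    rcases Finset.mem_insert.mp hv with h' | h'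
    · subst h'
      have k1 := h1 u L' (hu.trans_le ((min_le_right _ _).trans (min_le_left _ _))) hL'
      have k2 := h2 u L' (hu.trans_le ((min_le_right _ _).trans (min_le_right _ _))) hL'
      rw [map_neg, map_neg] at k2
      rw [abs_lt]
      exact ⟨by linarith, by linarith⟩
    · exact h u L' (hu.trans_le (min_le_left _ _)) hL' v h'

/-- Finite dimensional contact argument. -/
lemma exists_contact [Nontrivial X]
    (hG : ∀ x : X, x ≠ 0 → ∃ L : X →L[ℝ] ℝ, IsGrad N x L)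
    (f : X →L[ℝ] ℝ) (hf : f ∈ DB N) (I : Finset X) :
    ∃ (y : X) (J c : X →L[ℝ] ℝ), y ≠ 0 ∧ IsGrad N y J ∧ c ∈ DB N ∧
      ∀ v ∈ I, f v = (1 / 2) * (c v + J v) := by
  obtain ⟨e, he⟩ := exists_ne (0 : X)
  obtain ⟨φ, hφ⟩ := hG e he
  have hφe : φ e ≠ 0 := by
    rw [hN.grad_self hφ]
    exact (hN.pos he).ne'
  set Y : Submodule ℝ X := Submodule.span ℝ (insert e (I : Set X)) with hY
  have hfin : FiniteDimensional ℝ Y :=
    FiniteDimensional.span_of_finite ℝ ((Finset.finite_toSet I).insert e)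
  have heY : e ∈ Y := Submodule.subset_span (mem_insert _ _)
  have hIY : ∀ v ∈ I, v ∈ Y := fun v hv => Submodule.subset_span (mem_insert_of_mem _ hv)
  have hprop : ProperSpace Y := FiniteDimensional.proper ℝ Y
  set S : Set X := Subtype.val '' Metric.sphere (0 : Y) 1 with hS
  have hScomp : IsCompact S := (isCompact_sphere (0 : Y) 1).image continuous_subtype_val
  have hSmem : ∀ y, y ∈ S ↔ y ∈ Y ∧ ‖y‖ = 1 := by
    intro y
    constructor
    · rintro ⟨z, hz, rfl⟩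
      exact ⟨z.2, by simpa using hz⟩
    · rintro ⟨h1, h2⟩
      exact ⟨⟨y, h1⟩, by simpa using h2, rfl⟩
  have heS : (‖e‖)⁻¹ • e ∈ S := by
    rw [hSmem]
    refine ⟨Y.smul_mem _ heY, ?_⟩
    rw [norm_smul, norm_inv, norm_norm, inv_mul_cancel₀ (norm_pos_iff.mpr he).ne']
  set A : Set ℝ := {s | 0 ≤ s ∧ ∀ y ∈ S, s * |φ y| ≤ N y - f y} with hA
  have hA0 : (0 : ℝ) ∈ A := ⟨le_rfl, fun y _ => by
    have := hf y
    rw [zero_mul]; linarith⟩
  have hφe' : 0 < |φ ((‖e‖)⁻¹ • e)| := by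
    rw [abs_pos, map_smul, smul_eq_mul]
    exact mul_ne_zero (inv_ne_zero (norm_pos_iff.mpr he).ne') hφe
  have hAbdd : BddAbove A := by
    refine ⟨(N ((‖e‖)⁻¹ • e) - f ((‖e‖)⁻¹ • e)) / |φ ((‖e‖)⁻¹ • e)|, fun s hs => ?_⟩
    rw [le_div_iff₀ hφe']
    exact hs.2 _ heS
  have hAcl : IsClosed A := by
    have h1 : A = Ici (0 : ℝ) ∩ ⋂ y ∈ S, {s : ℝ | s * |φ y| ≤ N y - f y} := by
      ext s
      simp [hA]
    rw [h1]
    refine isClosed_Ici.inter (isClosed_biInter fun y _ => ?_)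
    exact isClosed_le (continuous_id.mul continuous_const) continuous_const
  set s : ℝ := sSup A with hs
  have hsA : s ∈ A := hAcl.csSup_mem ⟨0, hA0⟩ hAbdd
  have hcont : Continuous fun y : X => N y - f y - s * |φ y| :=
    (hN.continuous.sub f.continuous).sub (continuous_const.mul φ.continuous.abs)
  obtain ⟨y, hyS, hymin⟩ := hScomp.exists_isMinOn ⟨_, heS⟩ hcont.continuousOn
  have hy0 : N y - f y - s * |φ y| = 0 := by
    have h1 := hsA.2 y hyS
    by_contra hne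
    have hm : 0 < N y - f y - s * |φ y| := lt_of_le_of_ne (by linarith) (Ne.symm hne)
    set m : ℝ := N y - f y - s * |φ y| with hmdef
    have hmem : s + m / (‖φ‖ + 1) ∈ A := by
      refine ⟨add_nonneg hsA.1 (by positivity), fun z hz => ?_⟩
      have h2 : m ≤ N z - f z - s * |φ z| := hymin hz
      have h3 : |φ z| ≤ ‖φ‖ * 1 := by
        have := φ.le_opNorm z
        rw [((hSmem z).mp hz).2] at this
        exact this
      have h4 : m / (‖φ‖ + 1) * |φ z| ≤ m := by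
        rw [div_mul_eq_mul_div, div_le_iff₀ (by positivity)]
        have := norm_nonneg φ
        nlinarith
      rw [add_mul]
      linarith
    have h2 := le_csSup hAbdd hmem
    have h3 : 0 < m / (‖φ‖ + 1) := by positivity
    linarith
  have hyY := ((hSmem y).mp hyS).1
  have hyne : y ≠ 0 := by
    rw [← norm_pos_iff, ((hSmem y).mp hyS).2]
    exact one_pos
  -- bound on all of `Y`
  have hall : ∀ z ∈ Y, s * |φ z| ≤ N z - f z := by
    intro z hz
    by_cases hz0 : z = 0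
    · rw [hz0, map_zero, map_zero, hN.zero]
      simp
    · have hpos : 0 < ‖z‖ := norm_pos_iff.mpr hz0
      have hzS : (‖z‖)⁻¹ • z ∈ S := by
        rw [hSmem]
        refine ⟨Y.smul_mem _ hz, ?_⟩
        rw [norm_smul, norm_inv, norm_norm, inv_mul_cancel₀ hpos.ne']
      have h1 := hsA.2 _ hzS
      rw [map_smul, map_smul, smul_eq_mul, smul_eq_mul, abs_mul, abs_of_pos (inv_pos.mpr hpos),
        hN.smul_nonneg (inv_pos.mpr hpos).le] at h1
      have h2 : (‖z‖)⁻¹ * (s * |φ z|) ≤ (‖z‖)⁻¹ * (N z - f z) := by linarith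
      exact le_of_mul_le_mul_left h2 (inv_pos.mpr hpos)
  -- the sign
  obtain ⟨σ, hσ, hσy⟩ : ∃ σ : ℝ, |σ| = 1 ∧ σ * φ y = |φ y| := by
    rcases le_total 0 (φ y) with h | h
    · exact ⟨1, by simp, by rw [abs_of_nonneg h, one_mul]⟩
    · exact ⟨-1, by simp, by rw [abs_of_nonpos h]; ring⟩
  have hσle : ∀ z, σ * φ z ≤ |φ z| ∧ -(σ * φ z) ≤ |φ z| := by
    intro z
    have : |σ * φ z| = |φ z| := by rw [abs_mul, hσ, one_mul]
    rw [← this]
    exact ⟨le_abs_self _, neg_le_abs _⟩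
  obtain ⟨J, hJ⟩ := hG y hyne
  -- the functional touching at `y`
  have htouch : ∀ v ∈ Y, (f + (s * σ) • φ) v = J v := by
    intro v hv
    refine EqNorm.touch hJ (f + (s * σ) • φ) v (fun t => ?_) ?_
    · have hz : y + t • v ∈ Y := Y.add_mem hyY (Y.smul_mem _ hv)
      have h1 := hall _ hz
      have h2 := (hσle (y + t • v)).1
      have h3 : (f + (s * σ) • φ) (y + t • v) = f (y + t • v) + s * (σ * φ (y + t • v)) := by
        show f (y + t • v) + (s * σ) * φ (y + t • v) = _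
        ring
      rw [h3]
      have := mul_le_mul_of_nonneg_left h2 hsA.1
      linarith
    · show f y + (s * σ) * φ y = N y
      rw [mul_assoc, hσy]
      linarith
  -- the opposite functional, extended from `Y`
  obtain ⟨g, hg1, hg2⟩ := exists_extension_of_le_sublinear
    (⟨Y, ((f - (s * σ) • φ : X →L[ℝ] ℝ) : X →ₗ[ℝ] ℝ).comp Y.subtype⟩ : X →ₗ.[ℝ] ℝ) N
    (fun c hc x => hN.smul_nonneg hc.le x) hN.add (by
      intro x
      show f (x : X) - (s * σ) * φ (x : X) ≤ N (x : X)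
      have h1 := hall _ x.2
      have h2 := (hσle (x : X)).2
      have := mul_le_mul_of_nonneg_left h2 hsA.1
      have e : (s * σ) * φ (x : X) = -(s * -(σ * φ (x : X))) := by ring
      rw [e]
      linarith)
  have hgb : ∀ x, ‖g x‖ ≤ c₂ * ‖x‖ := by
    intro x
    rw [Real.norm_eq_abs, abs_le]
    have h1 := (hg2 x).trans (hN.upper x)
    have h2 := (hg2 (-x)).trans (hN.upper (-x))
    rw [map_neg, norm_neg] at h2
    exact ⟨by linarith, h1⟩
  refine ⟨y, J, g.mkContinuous c₂ hgb, hyne, hJ, hg2, fun v hv => ?_⟩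
  have hvY := hIY v hv
  have h1 := htouch v hvY
  have h2 : g v = f v - (s * σ) * φ v := hg1 ⟨v, hvY⟩
  have h3 : f v + (s * σ) * φ v = J v := h1
  show f v = 1 / 2 * (g v + J v)
  rw [h2, ← h3]
  ring

/-- No point of the dual ball is a point of continuity. -/
lemma exists_far_pair [Nontrivial X]
    (hG : ∀ x : X, x ≠ 0 → ∃ L : X →L[ℝ] ℝ, IsGrad N x L) {ε : ℝ}
    (hR : ∀ x : X, x ≠ 0 → Rough N ε x)
    (f : X →L[ℝ] ℝ) (hf : f ∈ DB N) (I : Finset X) {δ : ℝ} (hδ : 0 < δ) :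
    ∃ g ∈ DB N, ∃ g' ∈ DB N, (∀ v ∈ I, |g v - f v| < δ) ∧ (∀ v ∈ I, |g' v - f v| < δ) ∧
      ε / 2 ≤ ‖g - g'‖ := by
  obtain ⟨y, J, c, hy, hJ, hc, hI⟩ := hN.exists_contact hG f hf I
  obtain ⟨ρ, hρ, hcont⟩ := hN.grad_cont hJ I hδ
  have hypos : 0 < ‖y‖ := norm_pos_iff.mpr hy
  obtain ⟨h, hh0, hhn, hhD⟩ := hR y hy (min (ρ / 2) (‖y‖ / 2)) (lt_min (by positivity)
    (by positivity))
  have hh1 : ‖h‖ < ρ := lt_of_le_of_lt (hhn.trans (min_le_left _ _)) (by linarith)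
  have hh2 : ‖h‖ < ‖y‖ := lt_of_le_of_lt (hhn.trans (min_le_right _ _)) (by linarith)
  have hp : y + h ≠ 0 := by
    intro h0
    have : y = -h := eq_neg_of_add_eq_zero_left h0
    rw [this, norm_neg] at hh2
    exact lt_irrefl _ hh2
  have hm : y - h ≠ 0 := by
    intro h0
    have : y = h := sub_eq_zero.mp h0
    rw [this] at hh2
    exact lt_irrefl _ hh2
  obtain ⟨L, hL⟩ := hG _ hp
  obtain ⟨L', hL'⟩ := hG _ hm
  have hgap := hN.grad_gap hh0 hhD hL hL'
  have hmem : ∀ K : X →L[ℝ] ℝ, (∀ v, K v ≤ N v) → (1 / 2 : ℝ) • (c + K) ∈ DB N := by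
    intro K hK x
    show (1 / 2 : ℝ) * (c x + K x) ≤ N x
    have h1 := hc x
    have h2 := hK x
    linarith
  refine ⟨(1 / 2 : ℝ) • (c + L), hmem L (hN.grad_le' hL), (1 / 2 : ℝ) • (c + L'),
    hmem L' (hN.grad_le' hL'), fun v hv => ?_, fun v hv => ?_, ?_⟩
  · have h1 := hcont h L hh1 hL v hv
    rw [hI v hv]
    show |1 / 2 * (c v + L v) - 1 / 2 * (c v + J v)| < δ
    have : 1 / 2 * (c v + L v) - 1 / 2 * (c v + J v) = 1 / 2 * (L v - J v) := by ring
    rw [this, abs_mul, abs_of_pos (by norm_num : (0 : ℝ) < 1 / 2)]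
    have := abs_nonneg (L v - J v)
    linarith
  · have h1 := hcont (-h) L' (by rwa [norm_neg]) (by rwa [← sub_eq_add_neg]) v hv
    rw [hI v hv]
    show |1 / 2 * (c v + L' v) - 1 / 2 * (c v + J v)| < δ
    have : 1 / 2 * (c v + L' v) - 1 / 2 * (c v + J v) = 1 / 2 * (L' v - J v) := by ring
    rw [this, abs_mul, abs_of_pos (by norm_num : (0 : ℝ) < 1 / 2)]
    have := abs_nonneg (L' v - J v)
    linarith
  · have : (1 / 2 : ℝ) • (c + L) - (1 / 2 : ℝ) • (c + L') = (1 / 2 : ℝ) • (L - L') := by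
      module
    rw [this, norm_smul, Real.norm_eq_abs, abs_of_pos (by norm_num : (0 : ℝ) < 1 / 2)]
    linarith

lemma DB_compact : @IsCompact (X →L[ℝ] ℝ)
    (TopologicalSpace.induced (fun (f : X →L[ℝ] ℝ) (x : X) => f x) inferInstance) (DB N) := by
  let τ : TopologicalSpace (X →L[ℝ] ℝ) :=
    TopologicalSpace.induced (fun (f : X →L[ℝ] ℝ) (x : X) => f x) inferInstance
  have hind : @IsInducing _ _ τ _ (fun (f : X →L[ℝ] ℝ) (x : X) => f x) :=
    @IsInducing.mk _ _ τ _ _ rfl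
  rw [@Topology.IsInducing.isCompact_iff _ _ τ _ _ _ hind]
  have himg : (fun (f : X →L[ℝ] ℝ) (x : X) => f x) '' DB N =
      {g : X → ℝ | (∀ x y, g (x + y) = g x + g y) ∧ (∀ (r : ℝ) x, g (r • x) = r * g x) ∧
        ∀ x, g x ≤ N x} := by
    ext g
    constructor
    · rintro ⟨f, hf, rfl⟩
      exact ⟨fun x y => map_add f x y, fun r x => by
        show f (r • x) = r * f x
        rw [map_smul, smul_eq_mul], hf⟩
    · rintro ⟨h1, h2, h3⟩
      let l : X →ₗ[ℝ] ℝ := { toFun := g, map_add' := h1, map_smul' := h2 }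
      have hb : ∀ x, ‖l x‖ ≤ c₂ * ‖x‖ := by
        intro x
        rw [Real.norm_eq_abs, abs_le]
        have k1 := (h3 x).trans (hN.upper x)
        have k2 := (h3 (-x)).trans (hN.upper (-x))
        have k3 : g (-x) = - g x := map_neg l x
        rw [k3, norm_neg] at k2
        exact ⟨by show -(c₂ * ‖x‖) ≤ g x; linarith, k1⟩
      exact ⟨l.mkContinuous c₂ hb, h3, rfl⟩
  rw [himg]
  have hbox : IsCompact (Set.pi univ fun x : X => Icc (-N x) (N x)) :=
    isCompact_univ_pi fun x => isCompact_Icc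
  refine hbox.of_isClosed_subset ?_ ?_
  · have e : {g : X → ℝ | (∀ x y, g (x + y) = g x + g y) ∧ (∀ (r : ℝ) x, g (r • x) = r * g x) ∧
        ∀ x, g x ≤ N x} = (⋂ x, ⋂ y, {g : X → ℝ | g (x + y) = g x + g y}) ∩
        (⋂ r : ℝ, ⋂ x, {g : X → ℝ | g (r • x) = r * g x}) ∩ ⋂ x, {g : X → ℝ | g x ≤ N x} := by
      ext g
      simp only [mem_inter_iff, mem_iInter, mem_ofPred_eq]
      tauto
    rw [e]
    refine ((isClosed_iInter fun x => isClosed_iInter fun y => ?_).inter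
      (isClosed_iInter fun r => isClosed_iInter fun x => ?_)).inter (isClosed_iInter fun x => ?_)
    · exact isClosed_eq (continuous_apply (x + y)) ((continuous_apply x).add (continuous_apply y))
    · exact isClosed_eq (continuous_apply _) (continuous_const.mul (continuous_apply _))
    · exact isClosed_le (continuous_apply _) continuous_const
  · rintro g ⟨h1, h2, h3⟩ x -
    have k1 := h3 x
    have k2 := h3 (-x)
    have k3 : g (-x) = - g x := by
      have := h2 (-1) x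
      rw [neg_one_smul] at this
      rw [this]; ring
    rw [k3, hN.neg] at k2
    exact ⟨by linarith, k1⟩

end EqNorm

/-- (a) implies (b). -/
theorem not_cstar_of_norm [CompleteSpace X] [Nontrivial X] {N : X → ℝ} {c₁ c₂ : ℝ}
    (hN : EqNorm N c₁ c₂) (hG : ∀ x : X, x ≠ 0 → ∃ L : X →L[ℝ] ℝ, IsGrad N x L)
    (hF : ∀ x : X, x ≠ 0 → ¬ DifferentiableAt ℝ N x) :
    ¬ (∀ C : Set (X →L[ℝ] ℝ), C.Nonempty → Convex ℝ C →
        @IsCompact (X →L[ℝ] ℝ)
          (TopologicalSpace.induced (fun (f : X →L[ℝ] ℝ) (x : X) => f x) inferInstance) C →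
        ∃ z ∈ C, ∀ ε : ℝ, 0 < ε → ∃ U : Set (X →L[ℝ] ℝ),
          @IsOpen (X →L[ℝ] ℝ)
            (TopologicalSpace.induced (fun (f : X →L[ℝ] ℝ) (x : X) => f x) inferInstance) U ∧
          z ∈ U ∧ ∀ y ∈ C ∩ U, ‖y - z‖ < ε) := by
  obtain ⟨M, d₁, d₂, ε, hM, hε, hMG, hMR⟩ := exists_rough_norm hN hG hF
  intro hcon
  obtain ⟨z, hz, hcont⟩ := hcon (DB M) ⟨0, fun x => by simpa using hM.nonneg x⟩ (by
    intro f hf g hg a b ha hb hab x
    show a * f x + b * g x ≤ M x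
    have h1 := mul_le_mul_of_nonneg_left (hf x) ha
    have h2 := mul_le_mul_of_nonneg_left (hg x) hb
    have h3 : a * M x + b * M x = M x := by rw [← add_mul, hab, one_mul]
    linarith) hM.DB_compact
  obtain ⟨U, hU, hzU, hsmall⟩ := hcont (ε / 8) (by positivity)
  obtain ⟨U', hU', rfl⟩ := isOpen_induced_iff.mp hU
  obtain ⟨I, δ, hδ, hI⟩ := exists_finset_nhds hU' hzU
  obtain ⟨g, hg, g', hg', h1, h2, h3⟩ := hM.exists_far_pair hMG hMR z hz I hδ
  have k1 := hsmall g ⟨hg, hI _ h1⟩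
  have k2 := hsmall g' ⟨hg', hI _ h2⟩
  have k3 : ‖g - g'‖ ≤ ‖g - z‖ + ‖g' - z‖ := by
    have : g - g' = (g - z) - (g' - z) := by abel
    rw [this]
    exact norm_sub_le _ _
  linarith

end Pool.Agent.Work.MP_df74ac_an
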