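import Pool.Agent.Work.MP_df74ac_an.CloseOff

set_option autoImplicit false
set_option linter.unusedSectionVars false
set_option linter.unusedVariables false

open Set Filter Topology
open scoped Classical

namespace Pool.Agent.Work.MP_df74ac_an

open Pool.Agent.Work.MP_f490a9_an

universe u v

variable {X : Type u} [NormedAddCommGroup X] [NormedSpace ℝ X]

lemma continuous_Bd {P : Type*} [TopologicalSpace P] {F : P → Bd X}
    (h : ∀ x, Continuous fun p => toD (F p) x) : Continuous F := by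
  refine Continuous.subtype_mk (f := fun p => (F p).1) ?_ _
  exact WeakDual.continuous_of_continuous_eval h

/-- The data needed to build the norm. -/
structure Data (Γ : Type u) (y : Γ → X) (C : Set (Bd X)) (ε : ℝ) : Prop where
  czero : ∀ (f : StrongDual ℝ X) (t : ℝ), 0 < t → {i | t ≤ |f (y i)|}.Finite
  le_one : ∀ i, ‖y i‖ ≤ 1
  total : ∀ f : StrongDual ℝ X, (∀ i, f (y i) = 0) → f = 0
  closed : IsClosed C
  nonempty : C.Nonempty
  conv : Conv C
  eps : 0 < ε
  near : ∀ a ∈ C, ∀ κ : ℝ, 0 < κ → ∃ O : Set (Bd X), IsOpen O ∧ a ∈ O ∧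
    ∀ a' ∈ C, a' ∈ O → ∀ i, |toD a' (y i) - toD a (y i)| ≤ κ
  far : ∀ a ∈ C, ∀ O : Set (Bd X), IsOpen O → a ∈ O → ∃ a₁ ∈ C, ∃ a₂ ∈ C, a₁ ∈ O ∧ a₂ ∈ O ∧
    ε ≤ ‖toD a₁ - toD a₂‖

/-- clamp -/
noncomputable def clamp (s : ℝ) : ℝ := max 0 (min s 1)

lemma clamp_nonneg (s : ℝ) : 0 ≤ clamp s := le_max_left _ _
lemma clamp_le (s : ℝ) : clamp s ≤ 1 := max_le zero_le_one (min_le_right _ _)
lemma clamp_continuous : Continuous clamp :=
  continuous_const.max (continuous_id.min continuous_const)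
lemma clamp_of_mem {s : ℝ} (h0 : 0 ≤ s) (h1 : s ≤ 1) : clamp s = s := by
  unfold clamp
  rw [min_eq_left h1, max_eq_right h0]
lemma clamp_rat (q : ℚ) : clamp (q : ℝ) = ((max 0 (min q 1) : ℚ) : ℝ) := by
  unfold clamp
  push_cast
  rfl

lemma comb_norm (a b : Bd X) {t : ℝ} (h0 : 0 ≤ t) (h1 : t ≤ 1) :
    ‖(1 - t) • toD a + t • toD b‖ ≤ 1 := by
  refine (norm_add_le _ _).trans ?_
  rw [norm_smul, norm_smul, Real.norm_eq_abs, Real.norm_eq_abs, abs_of_nonneg h0,
    abs_of_nonneg (by linarith)]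
  have h1 := toD_norm a
  have h2 := toD_norm b
  nlinarith

/-- The combination map -/
noncomputable def Psi (p : (Bd X × Bd X) × ℝ) : Bd X :=
  ofD ((1 - clamp p.2) • toD p.1.1 + clamp p.2 • toD p.1.2)
    (comb_norm p.1.1 p.1.2 (clamp_nonneg _) (clamp_le _))

lemma Psi_continuous : Continuous (Psi : (Bd X × Bd X) × ℝ → Bd X) := by
  refine continuous_Bd fun x => ?_
  have h1 : Continuous fun p : (Bd X × Bd X) × ℝ => toD p.1.1 x :=
    (toD_eval_continuous x).comp (continuous_fst.comp continuous_fst)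
  have h2 : Continuous fun p : (Bd X × Bd X) × ℝ => toD p.1.2 x :=
    (toD_eval_continuous x).comp (continuous_snd.comp continuous_fst)
  have h3 : Continuous fun p : (Bd X × Bd X) × ℝ => clamp p.2 :=
    clamp_continuous.comp continuous_snd
  exact ((continuous_const.sub h3).mul h1).add (h3.mul h2)

lemma conv_closure {A : Set (Bd X)} (hA : ∀ a ∈ A, ∀ b ∈ A, ∀ t : ℚ, 0 ≤ t → t ≤ 1 →
    ∀ c : Bd X, toD c = (1 - (t : ℝ)) • toD a + (t : ℝ) • toD b → c ∈ A) :
    Conv (closure A) := by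
  intro a ha b hb t ht0 ht1 c hc
  have h1 : c = Psi ((a, b), t) := by
    apply toD_injective
    unfold Psi
    rw [toD_ofD, hc]
    simp only [clamp_of_mem ht0 ht1]
  rw [h1]
  have hR : Dense (range ((↑) : ℚ → ℝ)) := Rat.denseRange_cast
  refine map_mem_closure (s := (A ×ˢ A) ×ˢ range ((↑) : ℚ → ℝ)) Psi_continuous ?_ ?_
  · rw [closure_prod_eq, closure_prod_eq, hR.closure_eq]
    exact ⟨⟨ha, hb⟩, mem_univ _⟩
  · rintro ⟨⟨a', b'⟩, s⟩ ⟨⟨ha', hb'⟩, ⟨q, hq⟩⟩
    simp only at ha' hb' hq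
    subst hq
    refine hA a' ha' b' hb' (max 0 (min q 1)) (le_max_left _ _)
      (max_le zero_le_one (min_le_right _ _)) _ ?_
    unfold Psi
    rw [toD_ofD]
    simp only [clamp_rat]

theorem prep_aux {V : Set (Bd X)} {ε : ℝ} (hε : 0 < ε) (hne : V.Nonempty) (hV : Conv V)
    (hP : ∀ z ∈ V, ∀ (I : Finset X) (δ : ℝ), 0 < δ →
        ∃ y ∈ V, ε ≤ ‖toD y - toD z‖ ∧ ∀ x ∈ I, |toD y x - toD z x| < δ)
    {G : Set X} (hGt : ∀ f : StrongDual ℝ X, (∀ x ∈ G, f x = 0) → f = 0) (hG : CZ G) :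
    ∃ (Γ : Type u) (y : Γ → X) (C : Set (Bd X)), Data Γ y C ε := by
  obtain ⟨A, hA0, hAc, hAconv, hAP⟩ := close_off hne hV hP hG
  obtain ⟨e, he⟩ := Set.countable_iff_exists_injOn.mp hAc
  set lam : X → ℝ := fun x => (if x ∈ SS G A then (1 / 2 : ℝ) ^ e x else 1) / (1 + ‖x‖) with hlam
  have hlampos : ∀ x, 0 < lam x := by
    intro x
    simp only [hlam]
    split_ifs <;> positivity
  have hlamle : ∀ x, lam x ≤ 1 := by
    intro x
    simp only [hlam]
    rw [div_le_one (by positivity)]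
    have h0 := norm_nonneg x
    split_ifs
    · have : (1 / 2 : ℝ) ^ e x ≤ 1 := pow_le_one₀ (by norm_num) (by norm_num)
      linarith
    · linarith
  have hlamx : ∀ x, lam x * ‖x‖ ≤ (if x ∈ SS G A then (1 / 2 : ℝ) ^ e x else 1) := by
    intro x
    simp only [hlam]
    rw [div_mul_eq_mul_div, div_le_iff₀ (by positivity)]
    have h0 := norm_nonneg x
    have h1 : 0 ≤ (if x ∈ SS G A then (1 / 2 : ℝ) ^ e x else 1) := by split_ifs <;> positivity
    nlinarith
  -- vanishing
  have hvan : ∀ a ∈ closure A, ∀ x ∈ G, x ∉ SS G A → toD a x = 0 := by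
    intro a ha x hx hxS
    have h1 : IsClosed {a : Bd X | toD a x = 0} :=
      isClosed_eq (toD_eval_continuous x) continuous_const
    have h2 : A ⊆ {a : Bd X | toD a x = 0} := by
      intro a ha
      by_contra h0
      exact hxS ⟨hx, a, ha, h0⟩
    exact closure_minimal h2 h1 ha
  refine ⟨G, fun i => lam i • (i : X), closure A, ?_, ?_, ?_, isClosed_closure, hA0.closure,
    conv_closure hAconv, hε, ?_, ?_⟩
  · intro f t ht
    have h1 := hG f (t / 2) (by positivity)
    refine (h1.preimage Subtype.val_injective.injOn).subset ?_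
    intro i hi
    refine ⟨i.2, ?_⟩
    have hi' : t ≤ |f (lam i • (i : X))| := hi
    rw [map_smul, smul_eq_mul, abs_mul, abs_of_pos (hlampos _)] at hi'
    have h2 := hlamle (i : X)
    have h3 := abs_nonneg (f (i : X))
    have h4 := hlampos (i : X)
    nlinarith
  · intro i
    rw [norm_smul, Real.norm_eq_abs, abs_of_pos (hlampos _)]
    refine (hlamx i).trans ?_
    split_ifs
    · exact pow_le_one₀ (by norm_num) (by norm_num)
    · exact le_rfl
  · intro f hf
    refine hGt f fun x hx => ?_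
    have h1 := hf ⟨x, hx⟩
    rw [map_smul, smul_eq_mul] at h1
    rcases mul_eq_zero.mp h1 with h | h
    · exact absurd h (hlampos x).ne'
    · exact h
  · intro a ha κ hκ
    obtain ⟨n, hn⟩ := exists_pow_lt_of_lt_one (show (0 : ℝ) < κ / 2 by positivity)
      (show (1 / 2 : ℝ) < 1 by norm_num)
    have hfin : (SS G A ∩ e ⁻¹' Iio n).Finite := by
      refine Set.Finite.of_finite_image ((finite_Iio n).subset ?_)
        (he.mono inter_subset_left)
      rintro _ ⟨x, ⟨-, hx⟩, rfl⟩
      exact hx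
    refine ⟨⋂ x ∈ SS G A ∩ e ⁻¹' Iio n, {a' : Bd X | |toD a' (lam x • x) - toD a (lam x • x)| < κ},
      hfin.isOpen_biInter fun x _ => isOpen_lt
        (((toD_eval_continuous _).sub continuous_const).abs) continuous_const, ?_, ?_⟩
    · refine mem_iInter₂.mpr fun x _ => ?_
      show |_ - _| < κ
      rw [sub_self, abs_zero]
      exact hκ
    · intro a' ha' haO i
      by_cases hiS : (i : X) ∈ SS G A
      · by_cases hin : e i < n
        · exact (mem_iInter₂.mp haO (i : X) ⟨hiS, hin⟩).le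
        · push Not at hin
          have h1 : |toD a' (lam i • (i : X)) - toD a (lam i • (i : X))| ≤
              2 * ‖lam i • (i : X)‖ := by
            have h2 : toD a' (lam i • (i : X)) - toD a (lam i • (i : X)) =
                (toD a' - toD a) (lam i • (i : X)) := rfl
            rw [h2]
            refine ((toD a' - toD a).le_opNorm _).trans
              (mul_le_mul_of_nonneg_right ?_ (norm_nonneg _))
            refine (norm_sub_le _ _).trans ?_
            have := toD_norm a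
            have := toD_norm a'
            linarith
          refine h1.trans ?_
          rw [norm_smul, Real.norm_eq_abs, abs_of_pos (hlampos _)]
          have h3 := hlamx i
          rw [if_pos hiS] at h3
          have h4 : (1 / 2 : ℝ) ^ e i ≤ (1 / 2 : ℝ) ^ n :=
            pow_le_pow_of_le_one (by norm_num) (by norm_num) hin
          linarith
      · rw [map_smul, map_smul, hvan a' ha' i i.2 hiS, hvan a ha i i.2 hiS, smul_zero, sub_self,
          abs_zero]
        exact hκ.le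
  · intro a ha O hO haO
    obtain ⟨a₁, ha₁O, ha₁⟩ := mem_closure_iff.mp ha O hO haO
    by_contra hcon
    push Not at hcon
    have hfar : ∀ b ∈ A, ε ≤ ‖toD b - toD a₁‖ → b ∉ O := by
      intro b hb hbε hbO
      have := hcon b (subset_closure hb) a₁ (subset_closure ha₁) hbO ha₁O
      linarith
    have hScl : IsClosed (Oᶜ ∩ ⋂ x ∈ G \ SS G A, {m : Bd X | toD m x = 0}) :=
      hO.isClosed_compl.inter (isClosed_biInter fun x _ =>
        isClosed_eq (toD_eval_continuous x) continuous_const)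
    obtain ⟨m, ⟨hmO, hm1⟩, hm2⟩ := exists_exact hScl (fun (x : SS G A) m => toD m x.1)
      (fun x => toD_eval_continuous x.1) (fun x => toD a₁ x.1) (by
        intro I δ hδ
        obtain ⟨b, hb, hb1, hb2⟩ := hAP a₁ ha₁ (I.image Subtype.val) (by
          intro x hx
          obtain ⟨z, -, rfl⟩ := Finset.mem_image.mp hx
          exact z.2) δ hδ
        refine ⟨b, ⟨hfar b hb hb1, mem_iInter₂.mpr fun x hx => ?_⟩, fun i hi =>
          hb2 _ (Finset.mem_image_of_mem _ hi)⟩
        exact hvan b (subset_closure hb) x hx.1 hx.2)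
    apply hmO
    have h1 : toD m - toD a₁ = 0 := by
      refine hGt _ fun x hx => ?_
      show toD m x - toD a₁ x = 0
      by_cases hxS : x ∈ SS G A
      · rw [hm2 ⟨x, hxS⟩, sub_self]
      · have h2 : toD m x = 0 := mem_iInter₂.mp hm1 x ⟨hx, hxS⟩
        rw [h2, hvan a₁ (subset_closure ha₁) x hx hxS, sub_self]
    have h2 : m = a₁ := toD_injective (sub_eq_zero.mp h1)
    rw [h2]
    exact ha₁O

/-- Preparation. -/
theorem prep [CompleteSpace X] [Nontrivial X] {K : Set X} (hK : @IsCompact X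
    (TopologicalSpace.induced (fun (x : X) (f : X →L[ℝ] ℝ) => f x) inferInstance) K)
    (hd : Dense ((Submodule.span ℝ K : Submodule ℝ X) : Set X))
    (C : Set (X →L[ℝ] ℝ)) (hne : C.Nonempty) (hconv : Convex ℝ C)
    (hcomp : @IsCompact (X →L[ℝ] ℝ)
          (TopologicalSpace.induced (fun (f : X →L[ℝ] ℝ) (x : X) => f x) inferInstance) C)
    (hno : ∀ z ∈ C, ∃ ε : ℝ, 0 < ε ∧ ∀ U : Set (X →L[ℝ] ℝ),
          @IsOpen (X →L[ℝ] ℝ)
            (TopologicalSpace.induced (fun (f : X →L[ℝ] ℝ) (x : X) => f x) inferInstance) U →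
          z ∈ U → ∃ y ∈ C ∩ U, ε ≤ ‖y - z‖) :
    ∃ (Γ : Type u) (y : Γ → X) (C : Set (Bd X)) (ε : ℝ), Data Γ y C ε := by
  obtain ⟨G, hG1, hG2⟩ := WCG_family hK hd
  obtain ⟨V, ε, hVne, hV, hε, hP⟩ := baire_step C hne hconv hcomp hno
  obtain ⟨Γ, y, C', h⟩ := prep_aux hε hVne hV hP hG1 hG2
  exact ⟨Γ, y, C', ε, h⟩

end Pool.Agent.Work.MP_df74ac_an
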