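import Pool.Agent.Work.MP_df74ac_an.Rough

set_option autoImplicit false

open Set Filter Topology

namespace Pool.Agent.Work.MP_df74ac_an

variable {X : Type*} [NormedAddCommGroup X] [NormedSpace ℝ X]

/-- The new norm. -/
noncomputable def RN (N : X → ℝ) (x₀ : X) (η : ℝ) (y : X) : ℝ :=
  N (N y • x₀ + η • y) + N (N y • x₀ - η • y)

namespace EqNorm

variable {N : X → ℝ} {c₁ c₂ : ℝ} (hN : EqNorm N c₁ c₂)
include hN

lemma mono_aux {s s' : ℝ} (hs : 0 ≤ s) (hss : s ≤ s') (x₀ z : X) :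
    N (s • x₀ + z) + N (s • x₀ - z) ≤ N (s' • x₀ + z) + N (s' • x₀ - z) := by
  rcases eq_or_lt_of_le (hs.trans hss) with h0 | h0
  · have : s = 0 := le_antisymm (by rw [h0]; exact hss) hs
    rw [this, ← h0]
  have key : ∀ z : X, s' * N (s • x₀ + z) ≤
      (s' + s) / 2 * N (s' • x₀ + z) + (s' - s) / 2 * N (s' • x₀ - z) := by
    intro z
    have h1 := hN.add (((s' + s) / 2) • (s' • x₀ + z)) (((s' - s) / 2) • (-(s' • x₀ - z)))
    have h2 : ((s' + s) / 2) • (s' • x₀ + z) + ((s' - s) / 2) • (-(s' • x₀ - z))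
        = s' • (s • x₀ + z) := by
      module
    rw [h2, hN.smul_nonneg h0.le, hN.smul_nonneg (by linarith), hN.smul_nonneg (by linarith),
      hN.neg] at h1
    exact h1
  have h1 := key z
  have h2 := key (-z)
  rw [← sub_eq_add_neg, ← sub_eq_add_neg, sub_neg_eq_add] at h2
  have h3 : s' * (N (s • x₀ + z) + N (s • x₀ - z)) ≤
      s' * (N (s' • x₀ + z) + N (s' • x₀ - z)) := by linarith
  exact le_of_mul_le_mul_left h3 h0

lemma RN_eqNorm {x₀ : X} (hx₀ : x₀ ≠ 0) {η : ℝ} (hη : 0 < η) :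
    EqNorm (RN N x₀ η) (2 * N x₀ * c₁) ((2 * N x₀ + 2 * η) * c₂) where
  add := by
    intro x y
    unfold RN
    have h1 := hN.mono_aux (hN.nonneg (x + y)) (hN.add x y) x₀ (η • (x + y))
    have h2 : (N x + N y) • x₀ + η • (x + y) = (N x • x₀ + η • x) + (N y • x₀ + η • y) := by
      module
    have h3 : (N x + N y) • x₀ - η • (x + y) = (N x • x₀ - η • x) + (N y • x₀ - η • y) := by
      module
    rw [h2, h3] at h1
    have h4 := hN.add (N x • x₀ + η • x) (N y • x₀ + η • y)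
    have h5 := hN.add (N x • x₀ - η • x) (N y • x₀ - η • y)
    linarith
  smul := by
    intro r x
    unfold RN
    rw [hN.smul]
    rcases le_total 0 r with hr | hr
    · rw [abs_of_nonneg hr]
      have h2 : (r * N x) • x₀ + η • r • x = r • (N x • x₀ + η • x) := by module
      have h3 : (r * N x) • x₀ - η • r • x = r • (N x • x₀ - η • x) := by module
      rw [h2, h3, hN.smul_nonneg hr, hN.smul_nonneg hr]
      ring
    · rw [abs_of_nonpos hr]
      have h2 : (-r * N x) • x₀ + η • r • x = (-r) • (N x • x₀ - η • x) := by module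
      have h3 : (-r * N x) • x₀ - η • r • x = (-r) • (N x • x₀ + η • x) := by module
      rw [h2, h3, hN.smul_nonneg (by linarith), hN.smul_nonneg (by linarith)]
      ring
  pos₁ := by
    have := hN.pos hx₀
    have := hN.pos₁
    positivity
  pos₂ := by
    have := hN.pos hx₀
    have := hN.pos₂
    positivity
  lower := by
    intro y
    unfold RN
    have h1 := hN.add (N y • x₀ + η • y) (N y • x₀ - η • y)
    have h2 : (N y • x₀ + η • y) + (N y • x₀ - η • y) = (2 * N y) • x₀ := by module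
    rw [h2, hN.smul_nonneg (by have := hN.nonneg y; linarith)] at h1
    have h3 := hN.lower y
    have h4 := hN.nonneg x₀
    nlinarith
  upper := by
    intro y
    unfold RN
    have h1 := hN.add (N y • x₀) (η • y)
    have h2 := hN.add (N y • x₀) (-(η • y))
    rw [hN.neg, ← sub_eq_add_neg] at h2
    rw [hN.smul_nonneg (hN.nonneg y), hN.smul_nonneg hη.le] at h1 h2
    have h3 := hN.upper y
    have h4 := hN.nonneg x₀
    nlinarith

lemma comp_deriv {p : ℝ → X} {w : X} {L : X →L[ℝ] ℝ} (hL : IsGrad N (p 0) L)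
    (hp : HasDerivAt p w 0) : HasDerivAt (fun t => N (p t)) (L w) 0 := by
  have h1 := hL w
  rw [hasDerivAt_iff_isLittleO] at h1 hp ⊢
  have h2 : (fun t : ℝ => N (p t) - N (p 0 + t • w)) =o[𝓝 0] fun t : ℝ => t - 0 := by
    refine Asymptotics.IsBigO.trans_isLittleO ?_ hp
    refine Asymptotics.IsBigO.of_bound c₂ (Filter.Eventually.of_forall fun t => ?_)
    rw [Real.norm_eq_abs]
    refine (hN.abs_sub_le _ _).trans (le_of_eq ?_)
    congr 2
    rw [sub_zero, sub_sub]
  refine (h1.add h2).congr_left fun t => ?_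
  simp only [sub_zero, zero_smul, add_zero]
  ring

lemma RN_ne {x₀ y : X} (hy : y ≠ 0) {η : ℝ} (hη : 0 < η) (hη' : η < N x₀) :
    N y • x₀ + η • y ≠ 0 ∧ N y • x₀ - η • y ≠ 0 := by
  have hNy := hN.pos hy
  constructor
  · intro h0
    have h1 : N y • x₀ = (-η) • y := by
      rw [neg_smul]; exact eq_neg_of_add_eq_zero_left h0
    have h2 : N (N y • x₀) = N ((-η) • y) := by rw [h1]
    rw [hN.smul_nonneg hNy.le, hN.smul, abs_neg, abs_of_pos hη] at h2
    nlinarith
  · intro h0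
    have h1 : N y • x₀ = η • y := sub_eq_zero.mp h0
    have h2 : N (N y • x₀) = N (η • y) := by rw [h1]
    rw [hN.smul_nonneg hNy.le, hN.smul, abs_of_pos hη] at h2
    nlinarith

lemma RN_grad (hG : ∀ x : X, x ≠ 0 → ∃ L : X →L[ℝ] ℝ, IsGrad N x L) {x₀ : X} {η : ℝ}
    (hη : 0 < η) (hη' : η < N x₀) (y : X) (hy : y ≠ 0) :
    ∃ L : X →L[ℝ] ℝ, IsGrad (RN N x₀ η) y L := by
  obtain ⟨J, hJ⟩ := hG y hy
  obtain ⟨L1, hL1⟩ := hG _ (hN.RN_ne hy hη hη').1
  obtain ⟨L2, hL2⟩ := hG _ (hN.RN_ne hy hη hη').2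
  refine ⟨L1.comp (J.smulRight x₀ + η • ContinuousLinearMap.id ℝ X) +
    L2.comp (J.smulRight x₀ - η • ContinuousLinearMap.id ℝ X), fun v => ?_⟩
  have hb : HasDerivAt (fun t : ℝ => y + t • v) v 0 := by
    simpa using ((hasDerivAt_id (0 : ℝ)).smul_const v).const_add y
  have hc : HasDerivAt (fun t : ℝ => N (y + t • v) • x₀) (J v • x₀) 0 := (hJ v).smul_const x₀
  have h1 : HasDerivAt (fun t : ℝ => N (y + t • v) • x₀ + η • (y + t • v)) (J v • x₀ + η • v) 0 :=
    hc.add (hb.const_smul η)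
  have h2 : HasDerivAt (fun t : ℝ => N (y + t • v) • x₀ - η • (y + t • v)) (J v • x₀ - η • v) 0 :=
    hc.sub (hb.const_smul η)
  have k1 := hN.comp_deriv (L := L1) (by simpa using hL1) h1
  have k2 := hN.comp_deriv (L := L2) (by simpa using hL2) h2
  exact k1.add k2

omit hN in
lemma D_scale (hs : ∀ (r : ℝ) x, N (r • x) = |r| * N x) {s : ℝ} (hs0 : 0 ≤ s) (x h : X) :
    D N (s • x) (s • h) = s * D N x h := by
  unfold D
  rw [← smul_add, ← smul_sub, hs, hs, hs, abs_of_nonneg hs0]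
  ring

omit hN in
lemma rough_scale (hs : ∀ (r : ℝ) x, N (r • x) = |r| * N x) {s : ℝ} (hs0 : 0 < s) {x : X} {ε : ℝ}
    (hx : Rough N ε x) : Rough N ε (s • x) := by
  intro δ hδ
  obtain ⟨h, h0, h1, h2⟩ := hx (δ / s) (by positivity)
  refine ⟨s • h, smul_ne_zero hs0.ne' h0, ?_, ?_⟩
  · rw [norm_smul, Real.norm_eq_abs, abs_of_pos hs0]
    rw [le_div_iff₀ hs0] at h1
    linarith
  · rw [D_scale hs hs0.le, norm_smul, Real.norm_eq_abs, abs_of_pos hs0]
    nlinarith

lemma RN_rough {x₀ : X} (hx₀ : x₀ ≠ 0)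
    (hG : ∀ x : X, x ≠ 0 → ∃ L : X →L[ℝ] ℝ, IsGrad N x L) {r ε η : ℝ} (hε : 0 < ε)
    (hη : 0 < η) (hηr : η < r * c₁)
    (hR : ∀ x, ‖x - x₀‖ < r → Rough N ε x) (y : X) (hy : y ≠ 0) :
    Rough (RN N x₀ η) (ε / ((1 + c₂ * ‖x₀‖ / η) / η)) y := by
  have hM := hN.RN_eqNorm hx₀ hη
  have hc₁ := hN.pos₁
  have hc₂ := hN.pos₂
  -- reduce to `N y = 1`
  suffices h : ∀ y : X, N y = 1 → Rough (RN N x₀ η) (ε / ((1 + c₂ * ‖x₀‖ / η) / η)) y by
    have hNy := hN.pos hy
    have h1 := h ((N y)⁻¹ • y) (by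
      rw [hN.smul_nonneg (by positivity), inv_mul_cancel₀ hNy.ne'])
    have h2 := rough_scale hM.smul hNy h1
    rwa [smul_smul, mul_inv_cancel₀ hNy.ne', one_smul] at h2
  clear hy y
  intro y hy1 δ hδ
  have hy : y ≠ 0 := by
    rintro rfl
    rw [hN.zero] at hy1
    norm_num at hy1
  obtain ⟨J, hJ⟩ := hG y hy
  set K : ℝ := (1 + c₂ * ‖x₀‖ / η) / η with hK
  have hKpos : 0 < K := by positivity
  have hyn : ‖η • y‖ < r := by
    rw [norm_smul, Real.norm_eq_abs, abs_of_pos hη]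
    have h1 := hN.lower y
    rw [hy1] at h1
    have h2 : 0 < ‖y‖ := norm_pos_iff.mpr hy
    have : η * ‖y‖ < r * (c₁ * ‖y‖) := by nlinarith
    have hr : 0 < r := by
      by_contra hr
      push Not at hr
      nlinarith
    nlinarith
  -- choice of the sign
  have hsign : ∃ σ : ℝ, (σ = 1 ∨ σ = -1) ∧ η ≤ |J x₀ + σ * η| := by
    by_contra hcon
    push Not at hcon
    have h1 := hcon 1 (Or.inl rfl)
    have h2 := hcon (-1) (Or.inr rfl)
    rw [abs_lt] at h1 h2
    linarith [h1.1, h1.2, h2.1, h2.2]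
  obtain ⟨σ, hσ, hση⟩ := hsign
  have hσ2 : σ * σ = 1 := by rcases hσ with h | h <;> rw [h] <;> norm_num
  have hσabs : |σ| = 1 := by rcases hσ with h | h <;> rw [h] <;> norm_num
  have hrough : Rough N ε (x₀ + σ • η • y) := by
    apply hR
    rw [add_sub_cancel_left, norm_smul, Real.norm_eq_abs, hσabs, one_mul]
    exact hyn
  set δ' : ℝ := min (δ / K) (η / c₂) with hδ'
  have hδ'pos : 0 < δ' := lt_min (by positivity) (by positivity)
  obtain ⟨w, hwn, hw⟩ := hN.rough_full hδ'pos hrough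
  have hJn : ∀ v, |J v| ≤ c₂ * ‖v‖ := fun v => by
    have := J.le_of_opNorm_le (hN.grad_norm_le hJ) v
    rwa [Real.norm_eq_abs] at this
  have hne : J x₀ + σ * η ≠ 0 := by
    intro h0
    rw [h0, abs_zero] at hση
    linarith
  set a : ℝ := J w / (J x₀ + σ * η) with ha
  have ha_le : |a| ≤ c₂ * ‖w‖ / η := by
    rw [ha, abs_div]
    exact div_le_div₀ (by positivity) (hJn w) hη hση
  have ha1 : |a| ≤ 1 := by
    refine ha_le.trans ?_
    rw [div_le_one hη, hwn]
    have : δ' ≤ η / c₂ := min_le_right _ _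
    rw [le_div_iff₀ hc₂] at this
    linarith
  set u : X := (σ / η) • (w - a • x₀) with hu
  have hJu : J u = a := by
    rw [hu, map_smul, map_sub, map_smul, smul_eq_mul, smul_eq_mul]
    have h1 : J w = a * (J x₀ + σ * η) := by rw [ha, div_mul_cancel₀ _ hne]
    rw [h1]
    field_simp
    linear_combination a * η * hσ2
  have hun : ‖u‖ ≤ K * ‖w‖ := by
    rw [hu, norm_smul, Real.norm_eq_abs, abs_div, hσabs, abs_of_pos hη]
    have h1 : ‖w - a • x₀‖ ≤ ‖w‖ + c₂ * ‖w‖ / η * ‖x₀‖ := by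
      refine (norm_sub_le _ _).trans ?_
      rw [norm_smul, Real.norm_eq_abs]
      have := mul_le_mul_of_nonneg_right ha_le (norm_nonneg x₀)
      linarith
    have h2 : K * ‖w‖ = 1 / η * (‖w‖ + c₂ * ‖w‖ / η * ‖x₀‖) := by
      rw [hK]; field_simp
    rw [h2]
    exact mul_le_mul_of_nonneg_left h1 (by positivity)
  have hwu : a • x₀ + σ • η • u = w := by
    rw [hu, smul_smul, smul_smul]
    have : σ * η * (σ / η) = 1 := by
      field_simp
      linear_combination hσ2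
    rw [this, one_smul]
    abel
  have hDle : D N (x₀ + σ • η • y) w ≤ D (RN N x₀ η) y u := by
    have e1 : 1 + a ≤ N (y + u) := by
      have := hN.grad_le hJ u
      rw [hJu, hy1] at this
      linarith
    have e2 : 1 - a ≤ N (y - u) := by
      have := hN.grad_le hJ (-u)
      rw [map_neg, hJu, hy1, ← sub_eq_add_neg] at this
      linarith
    rw [abs_le] at ha1
    have m1 := hN.mono_aux (by linarith) e1 x₀ (η • (y + u))
    have m2 := hN.mono_aux (by linarith) e2 x₀ (η • (y - u))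
    have q1 : (1 + a) • x₀ + η • (y + u) = (x₀ + η • y) + (a • x₀ + η • u) := by module
    have q2 : (1 + a) • x₀ - η • (y + u) = (x₀ - η • y) + (a • x₀ - η • u) := by module
    have q3 : (1 - a) • x₀ + η • (y - u) = (x₀ + η • y) - (a • x₀ + η • u) := by module
    have q4 : (1 - a) • x₀ - η • (y - u) = (x₀ - η • y) - (a • x₀ - η • u) := by module
    rw [q1, q2] at m1
    rw [q3, q4] at m2
    have hsum : D N (x₀ + η • y) (a • x₀ + η • u) + D N (x₀ - η • y) (a • x₀ - η • u)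
        ≤ D (RN N x₀ η) y u := by
      unfold D RN
      rw [hy1, one_smul]
      linarith
    have p1 := hN.D_nonneg (x₀ + η • y) (a • x₀ + η • u)
    have p2 := hN.D_nonneg (x₀ - η • y) (a • x₀ - η • u)
    rcases hσ with h | h
    · rw [h, one_smul] at hwu
      rw [h, one_smul, ← hwu]
      linarith
    · rw [h, neg_smul, one_smul, ← sub_eq_add_neg] at hwu
      rw [h, neg_smul, one_smul, ← sub_eq_add_neg, ← hwu]
      linarith
  have hfin : ε * δ' ≤ D (RN N x₀ η) y u := hw.trans hDle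
  refine ⟨u, ?_, ?_, ?_⟩
  · rintro h0
    rw [h0] at hfin
    have : D (RN N x₀ η) y 0 = 0 := by unfold D; rw [add_zero, sub_zero]; ring
    rw [this] at hfin
    nlinarith
  · refine hun.trans ?_
    rw [hwn]
    have : δ' ≤ δ / K := min_le_left _ _
    rw [le_div_iff₀ hKpos] at this
    linarith
  · refine le_trans ?_ hfin
    rw [hwn] at hun
    have : ε / K * ‖u‖ ≤ ε / K * (K * δ') := mul_le_mul_of_nonneg_left hun (by positivity)
    have e : ε / K * (K * δ') = ε * δ' := by field_simp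
    rwa [e] at this

end EqNorm

/-- From a Gateaux smooth, nowhere Frechet norm to a uniformly rough Gateaux smooth norm. -/
theorem exists_rough_norm [CompleteSpace X] [Nontrivial X] {N : X → ℝ} {c₁ c₂ : ℝ}
    (hN : EqNorm N c₁ c₂) (hG : ∀ x : X, x ≠ 0 → ∃ L : X →L[ℝ] ℝ, IsGrad N x L)
    (hF : ∀ x : X, x ≠ 0 → ¬ DifferentiableAt ℝ N x) :
    ∃ (M : X → ℝ) (d₁ d₂ ε : ℝ), EqNorm M d₁ d₂ ∧ 0 < ε ∧
      (∀ x : X, x ≠ 0 → ∃ L : X →L[ℝ] ℝ, IsGrad M x L) ∧ ∀ x : X, x ≠ 0 → Rough M ε x := by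
  obtain ⟨x₀, r, ε, hx₀, hr, hε, hR⟩ := hN.exists_ball hG hF
  have hc₁ := hN.pos₁
  have hc₂ := hN.pos₂
  have hNx := hN.pos hx₀
  set η : ℝ := min (r * c₁ / 2) (N x₀ / 2) with hη
  have hηpos : 0 < η := lt_min (by positivity) (by positivity)
  have h1 : η < r * c₁ := by
    have : η ≤ r * c₁ / 2 := min_le_left _ _
    have : 0 < r * c₁ := by positivity
    linarith
  have h2 : η < N x₀ := by
    have : η ≤ N x₀ / 2 := min_le_right _ _
    linarith
  exact ⟨RN N x₀ η, _, _, _, hN.RN_eqNorm hx₀ hηpos, by positivity,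
    hN.RN_grad hG hηpos h2, hN.RN_rough hx₀ hG hε hηpos h1 hR⟩

end Pool.Agent.Work.MP_df74ac_an
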