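import Pool.Agent.Work.MP_df74ac_an.Clos

set_option autoImplicit false
set_option linter.unusedSectionVars false
set_option linter.unusedVariables false

open Set Filter Topology Cardinal
open scoped Classical

namespace Pool.Agent.Work.MP_df74ac_an

open Pool.Agent.Work.MP_f490a9_an

universe u v

variable {X : Type u} [NormedAddCommGroup X] [NormedSpace ℝ X]
variable {Q : Type v} [TopologicalSpace Q]

/-- Weak continuity. -/
def WCont (k : Q → X) : Prop := ∀ f : StrongDual ℝ X, Continuous fun q => f (k q)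

/-- Closed linear span, described by functionals. -/
def Spn (E : Set X) : Set X := {x | ∀ f : StrongDual ℝ X, (∀ e ∈ E, f e = 0) → f x = 0}

lemma subset_Spn (E : Set X) : E ⊆ Spn E := fun x hx _ hf => hf x hx

lemma Spn_mono {E E' : Set X} (h : E ⊆ E') : Spn E ⊆ Spn E' :=
  fun _ hx f hf => hx f fun e he => hf e (h he)

lemma Spn_subset {E E' : Set X} (h : E ⊆ Spn E') : Spn E ⊆ Spn E' :=
  fun _ hx f hf => hx f fun e he => h he f hf

lemma Spn_comb {E : Set X} {x y : X} (hx : x ∈ Spn E) (hy : y ∈ Spn E) (a b : ℝ) :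
    a • x + b • y ∈ Spn E := by
  intro f hf
  rw [map_add, map_smul, map_smul, hx f hf, hy f hf, smul_zero, smul_zero, add_zero]

lemma Spn_sub {E : Set X} {x y : X} (hx : x ∈ Spn E) (hy : y ∈ Spn E) : x - y ∈ Spn E := by
  have := Spn_comb hx hy 1 (-1)
  rwa [one_smul, neg_one_smul, ← sub_eq_add_neg] at this

lemma Spn_empty {x : X} (hx : x ∈ Spn (∅ : Set X)) : x = 0 := by
  by_contra h0
  obtain ⟨g, -, hg⟩ := exists_dual_vector ℝ x (norm_ne_zero_iff.mpr h0)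
  have := hx g (by simp)
  rw [this] at hg
  have h1 : (0 : ℝ) = ‖x‖ := by exact_mod_cast hg
  exact h0 (norm_eq_zero.mp h1.symm)

/-- The properties of the parametrised set that are kept along the induction. -/
structure HK (k : Q → X) : Prop where
  zero : ∃ q, k q = 0
  quarter : ∀ p q, ∃ r, k r = (1 / 4 : ℝ) • (k p - k q)

/-- `r` is the retraction associated with the pair `(E, F)`. -/
structure Ret (k : Q → X) (E : Set X) (F : Set (Bd X)) (r : Q → X) : Prop where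
  mem : ∀ q, ∃ p, r q = k p
  spn : ∀ q, r q ∈ Spn E
  eq : ∀ q, ∀ f ∈ F, toD f (r q) = toD f (k q)
  uniq : ∀ x ∈ Spn E, (∀ f ∈ F, toD f x = 0) → x = 0
  fac : ∀ h : StrongDual ℝ X, ∃ m : StrongDual ℝ X,
    (∀ x, (∀ f ∈ F, toD f x = 0) → m x = 0) ∧ ∀ q, h (r q) = m (k q)

lemma Ret_empty {k : Q → X} (hk : HK k) : Ret k ∅ ∅ (fun _ => 0) where
  mem := fun _ => by obtain ⟨q, hq⟩ := hk.zero; exact ⟨q, hq.symm⟩
  spn := fun _ f _ => map_zero f
  eq := by simp
  uniq := fun x hx _ => Spn_empty hx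
  fac := fun h => ⟨0, fun x _ => rfl, fun q => by simp⟩

lemma Ret_of_dense [CompactSpace Q] {k : Q → X} (hk : WCont k) {E : Set X} {F : Set (Bd X)}
    (hA : ∀ (q : Q) (I : Finset (Bd X)), (∀ f ∈ I, f ∈ F) → ∀ ε : ℝ, 0 < ε →
      ∃ p, k p ∈ E ∧ ∀ f ∈ I, |toD f (k p) - toD f (k q)| < ε)
    (hB : ∀ (h : Bd X) (I : Finset X), (∀ x ∈ I, x ∈ E) → ∀ ε : ℝ, 0 < ε →
      ∃ f ∈ F, ∀ x ∈ I, |toD f x - toD h x| < ε) :
    ∃ r : Q → X, Ret k E F r := by
  -- exact points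
  have h1 : ∀ q, ∃ p, k p ∈ Spn E ∧ ∀ f ∈ F, toD f (k p) = toD f (k q) := by
    intro q
    have hcl : IsClosed {p : Q | k p ∈ Spn E} := by
      have : {p : Q | k p ∈ Spn E} =
          ⋂ f : StrongDual ℝ X, ⋂ _ : ∀ e ∈ E, f e = 0, {p : Q | f (k p) = 0} := by
        ext p
        simp [Spn]
      rw [this]
      exact isClosed_iInter fun f => isClosed_iInter fun _ => isClosed_eq (hk f) continuous_const
    obtain ⟨p, hp, hp2⟩ := exists_exact hcl (fun (f : F) p => toD f.1 (k p))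
      (fun f => hk (toD f.1)) (fun f => toD f.1 (k q)) (by
        intro I ε hε
        obtain ⟨p, hp, hp2⟩ := hA q (I.image Subtype.val) (by
          intro f hf
          obtain ⟨g, -, rfl⟩ := Finset.mem_image.mp hf
          exact g.2) ε hε
        exact ⟨p, subset_Spn E hp, fun i hi => hp2 _ (Finset.mem_image_of_mem _ hi)⟩)
    exact ⟨p, hp, fun f hf => hp2 ⟨f, hf⟩⟩
  have h2 : ∀ h : Bd X, ∃ m : Bd X, (∀ x, (∀ f ∈ F, toD f x = 0) → toD m x = 0) ∧
      ∀ x ∈ E, toD m x = toD h x := by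
    intro h
    have hcl : IsClosed {m : Bd X | ∀ x, (∀ f ∈ F, toD f x = 0) → toD m x = 0} := by
      have : {m : Bd X | ∀ x, (∀ f ∈ F, toD f x = 0) → toD m x = 0} =
          ⋂ x : X, ⋂ _ : ∀ f ∈ F, toD f x = 0, {m : Bd X | toD m x = 0} := by
        ext p
        simp
      rw [this]
      exact isClosed_iInter fun x => isClosed_iInter fun _ =>
        isClosed_eq (toD_eval_continuous x) continuous_const
    obtain ⟨m, hm, hm2⟩ := exists_exact hcl (fun (x : E) m => toD m x.1)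
      (fun x => toD_eval_continuous x.1) (fun x => toD h x.1) (by
        intro I ε hε
        obtain ⟨f, hf, hf2⟩ := hB h (I.image Subtype.val) (by
          intro f hf
          obtain ⟨g, -, rfl⟩ := Finset.mem_image.mp hf
          exact g.2) ε hε
        exact ⟨f, fun x hx => hx f hf, fun i hi => hf2 _ (Finset.mem_image_of_mem _ hi)⟩)
    exact ⟨m, hm, fun x hx => hm2 ⟨x, hx⟩⟩
  choose p hp1 hp2 using h1
  have huniq : ∀ x ∈ Spn E, (∀ f ∈ F, toD f x = 0) → x = 0 := by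
    intro x hx hFx
    by_contra h0
    obtain ⟨g, hg1, hg2⟩ := exists_dual_vector ℝ x (norm_ne_zero_iff.mpr h0)
    obtain ⟨m, hm1, hm2⟩ := h2 (ofD g hg1.le)
    have h3 : (toD m - g) x = 0 := hx _ fun e he => by
      show toD m e - g e = 0
      rw [hm2 e he, toD_ofD, sub_self]
    have h4 : toD m x - g x = 0 := h3
    rw [hm1 x hFx, hg2] at h4
    have h5 : ‖x‖ = 0 := by
      have : (0 : ℝ) - ‖x‖ = 0 := by exact_mod_cast h4
      linarith
    exact h0 (norm_eq_zero.mp h5)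
  refine ⟨fun q => k (p q), fun q => ⟨p q, rfl⟩, hp1, fun q f hf => hp2 q f hf, huniq,
    fun h => ?_⟩
  -- scale `h` into the ball
  have hc : 0 < ‖h‖ + 1 := by positivity
  obtain ⟨m, hm1, hm2⟩ := h2 (ofD ((‖h‖ + 1)⁻¹ • h) (by
    rw [norm_smul, norm_inv, Real.norm_eq_abs, abs_of_pos hc, inv_mul_le_iff₀ hc]
    linarith))
  refine ⟨(‖h‖ + 1) • toD m, fun x hx => ?_, fun q => ?_⟩
  · show (‖h‖ + 1) * toD m x = 0
    rw [hm1 x hx, mul_zero]
  · show h (k (p q)) = (‖h‖ + 1) * toD m (k q)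
    have h3 : toD m (k (p q)) = toD m (k q) := by
      have := hm1 (k (p q) - k q) (fun f hf => by rw [map_sub, hp2 q f hf, sub_self])
      rw [map_sub] at this
      linarith
    rw [← h3]
    have h4 : ((‖h‖ + 1) • toD m - h) (k (p q)) = 0 := hp1 q _ fun e he => by
      show (‖h‖ + 1) * toD m e - h e = 0
      rw [hm2 e he, toD_ofD]
      show (‖h‖ + 1) * ((‖h‖ + 1)⁻¹ * h e) - h e = 0
      rw [← mul_assoc, mul_inv_cancel₀ hc.ne', one_mul, sub_self]
    have h5 : (‖h‖ + 1) * toD m (k (p q)) - h (k (p q)) = 0 := h4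
    linarith

/-- Skolem functions adapted to `k`. -/
lemma exists_skolem {k : Q → X} (hk : HK k) :
    ∃ (φ : List (Bd X × ℚ) → ℕ → X) (ψ : List (X × ℚ) → ℕ → Bd X),
      (∀ l n, φ l n ∈ range k) ∧
      (∀ (q : Q) (I : Finset (Bd X)) (ε : ℝ), 0 < ε → ∃ (l : List (Bd X × ℚ)) (n : ℕ),
        (∀ x ∈ l, x.1 ∈ I) ∧ ∀ f ∈ I, |toD f (φ l n) - toD f (k q)| < ε) ∧
      (∀ (h : Bd X) (I : Finset X) (ε : ℝ), 0 < ε → ∃ (l : List (X × ℚ)) (n : ℕ),
        (∀ x ∈ l, x.1 ∈ I) ∧ ∀ x ∈ I, |toD (ψ l n) x - toD h x| < ε) := by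
  have hQ : Nonempty Q := by obtain ⟨q, -⟩ := hk.zero; exact ⟨q⟩
  have hB : Nonempty (Bd X) := ⟨ofD 0 (by simp)⟩
  obtain ⟨φ, hφ⟩ := skolem (fun (q : Q) (f : Bd X) => toD f (k q))
  obtain ⟨ψ, hψ⟩ := skolem (fun (f : Bd X) (x : X) => toD f x)
  exact ⟨fun l n => k (φ l n), ψ, fun l n => mem_range_self _, fun q I ε hε => hφ q I ε hε,
    fun h I ε hε => hψ h I ε hε⟩

/-- Closed pairs have retractions. -/
lemma Ret_closure [CompactSpace Q] {k : Q → X} (hk : WCont k)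
    {φ : List (Bd X × ℚ) → ℕ → X} {ψ : List (X × ℚ) → ℕ → Bd X}
    (hφk : ∀ l n, φ l n ∈ range k)
    (hφ : ∀ (q : Q) (I : Finset (Bd X)) (ε : ℝ), 0 < ε → ∃ (l : List (Bd X × ℚ)) (n : ℕ),
        (∀ x ∈ l, x.1 ∈ I) ∧ ∀ f ∈ I, |toD f (φ l n) - toD f (k q)| < ε)
    (hψ : ∀ (h : Bd X) (I : Finset X) (ε : ℝ), 0 < ε → ∃ (l : List (X × ℚ)) (n : ℕ),
        (∀ x ∈ l, x.1 ∈ I) ∧ ∀ x ∈ I, |toD (ψ l n) x - toD h x| < ε)
    (S : Set X) : ∃ r : Q → X, Ret k (CE φ ψ S) (CF φ ψ S) r := by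
  refine Ret_of_dense hk (fun q I hI ε hε => ?_) (fun h I hI ε hε => ?_)
  · obtain ⟨l, n, hl, hln⟩ := hφ q I ε hε
    obtain ⟨p, hp⟩ := hφk l n
    refine ⟨p, ?_, ?_⟩
    · rw [hp]
      exact Cl.phi l n fun x hx => hI _ (hl x hx)
    · rw [hp]
      exact hln
  · obtain ⟨l, n, hl, hln⟩ := hψ h I ε hε
    exact ⟨ψ l n, Cl.psi l n fun x hx => hI _ (hl x hx), hln⟩

section Piece

variable {k : Q → X} {El Eu : Set X} {Fl Fu : Set (Bd X)} {rl ru : Q → X}

lemma Ret.wcont (hk : WCont k) (h : Ret k Eu Fu ru) : WCont ru := by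
  intro f
  obtain ⟨m, -, hm⟩ := h.fac f
  simp_rw [hm]
  exact hk m

lemma Ret.ext (h : Ret k Eu Fu ru) {q : Q} {x : X} (hx : x ∈ Spn Eu)
    (hF : ∀ f ∈ Fu, toD f x = toD f (k q)) : ru q = x := by
  have := h.uniq (ru q - x) (Spn_sub (h.spn q) hx) (fun f hf => by
    rw [map_sub, h.eq q f hf, hF f hf, sub_self])
  exact sub_eq_zero.mp this

lemma Ret.fix (h : Ret k Eu Fu ru) {q : Q} (hq : k q ∈ Spn Eu) : ru q = k q :=
  h.ext hq fun _ _ => rfl

lemma Ret.zero (h : Ret k Eu Fu ru) {q : Q} (hq : k q = 0) : ru q = 0 := by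
  rw [← hq]
  refine h.fix ?_
  rw [hq]
  intro f _
  exact map_zero f

lemma Ret.quarter (h : Ret k Eu Fu ru) {p q s : Q} (hs : k s = (1 / 4 : ℝ) • (k p - k q)) :
    ru s = (1 / 4 : ℝ) • (ru p - ru q) := by
  refine h.ext ?_ fun f hf => ?_
  · have := Spn_comb (h.spn p) (h.spn q) (1 / 4) (-(1 / 4))
    have e : (1 / 4 : ℝ) • ru p + (-(1 / 4) : ℝ) • ru q = (1 / 4 : ℝ) • (ru p - ru q) := by module
    rwa [e] at this
  · rw [hs, map_smul, map_smul, map_sub, map_sub, h.eq p f hf, h.eq q f hf]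

/-- The increment. -/
noncomputable def inc (ru rl : Q → X) : Q → X := fun q => (1 / 4 : ℝ) • (ru q - rl q)

lemma inc_wcont (hk : WCont k) (hl : Ret k El Fl rl) (hu : Ret k Eu Fu ru) :
    WCont (inc ru rl) := by
  intro f
  have h1 := (hu.wcont hk f).sub (hl.wcont hk f)
  have h2 := h1.const_smul (1 / 4 : ℝ)
  refine h2.congr fun q => ?_
  show (1 / 4 : ℝ) • (f (ru q) - f (rl q)) = f ((1 / 4 : ℝ) • (ru q - rl q))
  rw [map_smul, map_sub]

lemma inc_HK (hk : HK k) (hl : Ret k El Fl rl) (hu : Ret k Eu Fu ru) : HK (inc ru rl) where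
  zero := by
    obtain ⟨q, hq⟩ := hk.zero
    exact ⟨q, by unfold inc; rw [hl.zero hq, hu.zero hq, sub_zero, smul_zero]⟩
  quarter := by
    intro p q
    obtain ⟨s, hs⟩ := hk.quarter p q
    refine ⟨s, ?_⟩
    unfold inc
    rw [hl.quarter hs, hu.quarter hs]
    module

lemma inc_mem (hk : HK k) (hl : Ret k El Fl rl) (hu : Ret k Eu Fu ru) (q : Q) :
    ∃ p, inc ru rl q = k p := by
  obtain ⟨a, ha⟩ := hu.mem q
  obtain ⟨b, hb⟩ := hl.mem q
  obtain ⟨s, hs⟩ := hk.quarter a b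
  exact ⟨s, by unfold inc; rw [ha, hb, hs]⟩

/-- The increment is generated by few elements. -/
lemma inc_gen (hk : HK k) (hl : Ret k El Fl rl) (hu : Ret k Eu Fu ru) (hF : Fl ⊆ Fu)
    (hEu : Eu ⊆ range k) : ∃ A' : Set X, #A' ≤ #Eu ∧ A' ⊆ range (inc ru rl) ∧
      range (inc ru rl) ⊆ Spn A' := by
  have hQ : Nonempty Q := by obtain ⟨q, -⟩ := hk.zero; exact ⟨q⟩
  have hEu' : ∀ e, e ∈ Eu → ∃ q, k q = e := fun e he => hEu he
  choose! s hs using hEu'
  refine ⟨(fun e => inc ru rl (s e)) '' Eu, mk_image_le, ?_, ?_⟩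
  · rintro _ ⟨e, -, rfl⟩
    exact mem_range_self _
  · rintro _ ⟨q, rfl⟩ g hg
    obtain ⟨m, hm1, hm2⟩ := hl.fac g
    -- `g ∘ rl = m ∘ k`, and `m ∘ k = m ∘ ru`
    have h1 : m (ru q) = m (k q) := by
      have := hm1 (ru q - k q) (fun f hf => by rw [map_sub, hu.eq q f (hF hf), sub_self])
      rw [map_sub] at this
      linarith
    have h2 : (g - m) (ru q) = 0 := hu.spn q _ fun e he => by
      show g e - m e = 0
      have h3 : g (inc ru rl (s e)) = 0 := hg _ ⟨e, he, rfl⟩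
      have h4 : ru (s e) = e := by
        have := hu.fix (q := s e) (by rw [hs e he]; exact subset_Spn _ he)
        rw [this, hs e he]
      unfold inc at h3
      rw [map_smul, map_sub, h4, hm2, hs e he] at h3
      have h5 : (1 / 4 : ℝ) * (g e - m e) = 0 := h3
      linarith
    have h6 : g (ru q) - m (ru q) = 0 := h2
    unfold inc
    rw [map_smul, map_sub, hm2, ← h1, h6, smul_zero]

end Piece

end Pool.Agent.Work.MP_df74ac_an
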