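import Mathlib

set_option autoImplicit false

open Set Filter Topology

namespace Pool.Agent.Work.MP_df74ac_an

variable {X : Type*} [NormedAddCommGroup X] [NormedSpace ℝ X]

/-- `N` is an equivalent norm, with constants. -/
structure EqNorm (N : X → ℝ) (c₁ c₂ : ℝ) : Prop where
  add : ∀ x y, N (x + y) ≤ N x + N y
  smul : ∀ (r : ℝ) x, N (r • x) = |r| * N x
  pos₁ : 0 < c₁
  pos₂ : 0 < c₂
  lower : ∀ x, c₁ * ‖x‖ ≤ N x
  upper : ∀ x, N x ≤ c₂ * ‖x‖

/-- `L` is the Gateaux derivative of `N` at `x`. -/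
def IsGrad (N : X → ℝ) (x : X) (L : X →L[ℝ] ℝ) : Prop :=
  ∀ v : X, HasDerivAt (fun t : ℝ => N (x + t • v)) (L v) 0

/-- The second difference. -/
def D (N : X → ℝ) (x h : X) : ℝ := N (x + h) + N (x - h) - 2 * N x

namespace EqNorm

variable {N : X → ℝ} {c₁ c₂ : ℝ} (hN : EqNorm N c₁ c₂)
include hN

lemma zero : N 0 = 0 := by
  have := hN.smul 0 0
  simpa using this

lemma neg (x : X) : N (-x) = N x := by
  have := hN.smul (-1) x
  simpa using this

lemma nonneg (x : X) : 0 ≤ N x :=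
  le_trans (mul_nonneg hN.pos₁.le (norm_nonneg _)) (hN.lower x)

lemma pos {x : X} (hx : x ≠ 0) : 0 < N x :=
  lt_of_lt_of_le (mul_pos hN.pos₁ (norm_pos_iff.mpr hx)) (hN.lower x)

lemma smul_nonneg {r : ℝ} (hr : 0 ≤ r) (x : X) : N (r • x) = r * N x := by
  rw [hN.smul, abs_of_nonneg hr]

lemma sub_le (x y : X) : N x - N y ≤ c₂ * ‖x - y‖ := by
  have h1 : N x ≤ N y + N (x - y) := by
    have := hN.add y (x - y)
    rwa [add_sub_cancel] at this
  have := hN.upper (x - y)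
  linarith

lemma abs_sub_le (x y : X) : |N x - N y| ≤ c₂ * ‖x - y‖ := by
  rw [abs_le]
  refine ⟨?_, hN.sub_le x y⟩
  have := hN.sub_le y x
  rw [norm_sub_rev] at this
  linarith

lemma continuous : Continuous N := by
  have : LipschitzWith ⟨c₂, hN.pos₂.le⟩ N := by
    refine LipschitzWith.of_dist_le_mul fun x y => ?_
    rw [Real.dist_eq, dist_eq_norm]
    exact hN.abs_sub_le x y
  exact this.continuous

/-- convexity -/
lemma convex_le {s : ℝ} (hs0 : 0 ≤ s) (hs1 : s ≤ 1) (x y : X) :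
    N ((1 - s) • x + s • y) ≤ (1 - s) * N x + s * N y := by
  refine (hN.add _ _).trans ?_
  rw [hN.smul_nonneg hs0, hN.smul_nonneg (by linarith)]

lemma D_nonneg (x h : X) : 0 ≤ D N x h := by
  have h1 := hN.add (x + h) (x - h)
  have h2 : x + h + (x - h) = (2 : ℝ) • x := by rw [two_smul]; abel
  rw [h2, hN.smul_nonneg (by norm_num)] at h1
  unfold D
  linarith

lemma D_smul {t : ℝ} (ht : 1 ≤ t) (x h : X) : t * D N x h ≤ D N x (t • h) := by
  have ht0 : 0 < t := by linarith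
  have key : ∀ k : X, t * N (x + k) ≤ (t - 1) * N x + N (x + t • k) := by
    intro k
    have h1 := hN.add ((t - 1) • x) (x + t • k)
    rw [hN.smul_nonneg (by linarith)] at h1
    have h2 : (t - 1) • x + (x + t • k) = t • (x + k) := by
      rw [smul_add, sub_smul, one_smul]; abel
    rw [h2, hN.smul_nonneg ht0.le] at h1
    exact h1
  have h1 := key h
  have h2 := key (-h)
  rw [smul_neg, ← sub_eq_add_neg, ← sub_eq_add_neg] at h2
  unfold D
  nlinarith

lemma D_lip (x y h : X) : D N x h - D N y h ≤ 4 * c₂ * ‖x - y‖ := by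
  have h1 := hN.sub_le (x + h) (y + h)
  have h2 := hN.sub_le (x - h) (y - h)
  have h3 := hN.sub_le y x
  rw [add_sub_add_right_eq_sub] at h1
  rw [sub_sub_sub_cancel_right] at h2
  rw [norm_sub_rev] at h3
  unfold D
  linarith

lemma grad_le {x : X} {L : X →L[ℝ] ℝ} (hL : IsGrad N x L) (v : X) :
    L v ≤ N (x + v) - N x := by
  have h1 := (hL v).tendsto_slope_zero_right
  simp only [zero_smul, add_zero, zero_add, smul_eq_mul] at h1
  refine le_of_tendsto h1 ?_
  have : Ioc (0 : ℝ) 1 ∈ 𝓝[>] (0 : ℝ) := Ioc_mem_nhdsGT one_pos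
  filter_upwards [this] with t ht
  have ht0 : 0 < t := ht.1
  have h2 := hN.convex_le ht0.le ht.2 x (x + v)
  have h3 : (1 - t) • x + t • (x + v) = x + t • v := by
    rw [sub_smul, one_smul, smul_add]; abel
  rw [h3] at h2
  rw [inv_mul_le_iff₀ ht0]
  linarith

lemma grad_le' {x : X} {L : X →L[ℝ] ℝ} (hL : IsGrad N x L) (v : X) :
    L v ≤ N v := by
  have h1 := hN.grad_le hL v
  have h2 := hN.add x v
  linarith

lemma grad_self {x : X} {L : X →L[ℝ] ℝ} (hL : IsGrad N x L) : L x = N x := by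
  have h1 := hN.grad_le hL x
  have h2 := hN.grad_le hL (-x)
  have h3 : x + x = (2 : ℝ) • x := by rw [two_smul]
  rw [h3, hN.smul_nonneg (by norm_num)] at h1
  rw [add_neg_cancel, hN.zero, map_neg] at h2
  linarith

lemma grad_norm_le {x : X} {L : X →L[ℝ] ℝ} (hL : IsGrad N x L) : ‖L‖ ≤ c₂ := by
  refine ContinuousLinearMap.opNorm_le_bound _ hN.pos₂.le fun v => ?_
  rw [Real.norm_eq_abs, abs_le]
  have h1 := (hN.grad_le' hL v).trans (hN.upper v)
  have h2 := (hN.grad_le' hL (-v)).trans (hN.upper (-v))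
  rw [map_neg, norm_neg] at h2
  exact ⟨by linarith, h1⟩

omit hN in
/-- a functional which is below `N` and touches at `y` has the values of the gradient -/
lemma touch {y : X} {L : X →L[ℝ] ℝ} (hL : IsGrad N y L) (g : X →L[ℝ] ℝ) (v : X)
    (hg : ∀ t : ℝ, g (y + t • v) ≤ N (y + t • v)) (hy : g y = N y) : g v = L v := by
  have h1 := hL v
  have h2 : HasDerivAt (fun t : ℝ => N (y + t • v) - g (y + t • v)) (L v - g v) 0 := by
    refine h1.sub ?_
    have : (fun t : ℝ => g (y + t • v)) = fun t : ℝ => g y + t * g v := by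
      ext t; rw [map_add, map_smul, smul_eq_mul]
    rw [this]
    simpa using ((hasDerivAt_id (0 : ℝ)).mul_const (g v)).const_add (g y)
  have h3 : IsLocalMin (fun t : ℝ => N (y + t • v) - g (y + t • v)) 0 := by
    refine Filter.Eventually.of_forall fun t => ?_
    have := hg t
    simp only [zero_smul, add_zero]
    rw [hy]
    linarith
  have := h3.hasDerivAt_eq_zero h2
  linarith

end EqNorm

/-- Roughness of `N` at `x`. -/
def Rough (N : X → ℝ) (ε : ℝ) (x : X) : Prop :=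
  ∀ δ : ℝ, 0 < δ → ∃ h : X, h ≠ 0 ∧ ‖h‖ ≤ δ ∧ ε * ‖h‖ ≤ D N x h

namespace EqNorm

variable {N : X → ℝ} {c₁ c₂ : ℝ} (hN : EqNorm N c₁ c₂)
include hN

lemma rough_of_not_diff {x : X} {L : X →L[ℝ] ℝ} (hL : IsGrad N x L)
    (hx : ¬ DifferentiableAt ℝ N x) : ∃ ε : ℝ, 0 < ε ∧ Rough N ε x := by
  by_contra hcon
  push Not at hcon
  apply hx
  refine HasFDerivAt.differentiableAt (f' := L) ?_
  rw [hasFDerivAt_iff_isLittleO_nhds_zero, Asymptotics.isLittleO_iff]
  intro ε hε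
  have h1 := hcon ε hε
  unfold Rough at h1
  push Not at h1
  obtain ⟨δ, hδ, h1⟩ := h1
  filter_upwards [Metric.ball_mem_nhds (0 : X) hδ] with h hh
  rw [mem_ball_zero_iff] at hh
  by_cases h0 : h = 0
  · simp [h0]
  have h2 := h1 h h0 hh.le
  have h3 := hN.grad_le hL h
  have h4 := hN.grad_le hL (-h)
  rw [map_neg, ← sub_eq_add_neg] at h4
  unfold D at h2
  rw [Real.norm_eq_abs, abs_of_nonneg (by linarith)]
  linarith

lemma rough_full {x : X} {ε δ : ℝ} (hδ : 0 < δ) (h : Rough N ε x) :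
    ∃ h : X, ‖h‖ = δ ∧ ε * δ ≤ D N x h := by
  obtain ⟨h, h0, hhδ, hh⟩ := h δ hδ
  have hpos : 0 < ‖h‖ := norm_pos_iff.mpr h0
  have ht : 1 ≤ δ / ‖h‖ := by rw [le_div_iff₀ hpos]; linarith
  refine ⟨(δ / ‖h‖) • h, ?_, ?_⟩
  · rw [norm_smul, Real.norm_eq_abs, abs_of_pos (by positivity), div_mul_cancel₀ _ hpos.ne']
  · refine le_trans ?_ (hN.D_smul ht x h)
    have : ε * δ = δ / ‖h‖ * (ε * ‖h‖) := by field_simp
    rw [this]
    exact mul_le_mul_of_nonneg_left hh (by positivity)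

lemma rough_closure {x : X} {ε : ℝ} (hε : 0 < ε) (hx : x ∈ closure {y | Rough N ε y}) :
    Rough N (ε / 2) x := by
  intro δ hδ
  rw [Metric.mem_closure_iff] at hx
  have hc := hN.pos₂
  obtain ⟨y, hy, hxy⟩ := hx (ε * δ / (8 * c₂)) (by positivity)
  obtain ⟨h, hh, hD⟩ := hN.rough_full hδ hy
  refine ⟨h, ?_, hh.le, ?_⟩
  · rw [← norm_pos_iff, hh]; exact hδ
  · have h1 := hN.D_lip y x h
    rw [dist_comm, dist_eq_norm, lt_div_iff₀ (by positivity)] at hxy
    rw [hh]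
    nlinarith

lemma rough_zero [Nontrivial X] : Rough N (2 * c₁) 0 := by
  intro δ hδ
  obtain ⟨x, hx⟩ := exists_ne (0 : X)
  have hpos : 0 < ‖x‖ := norm_pos_iff.mpr hx
  refine ⟨(δ / ‖x‖) • x, ?_, ?_, ?_⟩
  · exact smul_ne_zero (by positivity) hx
  · rw [norm_smul, Real.norm_eq_abs, abs_of_pos (by positivity), div_mul_cancel₀ _ hpos.ne']
  · unfold D
    rw [zero_add, zero_sub, hN.neg, hN.zero]
    have := hN.lower ((δ / ‖x‖) • x)
    linarith

omit [NormedSpace ℝ X] hN in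
lemma rough_mono {x : X} {ε ε' : ℝ} (h : ε' ≤ ε) (hx : Rough N ε x) : Rough N ε' x := by
  intro δ hδ
  obtain ⟨h', h0, h1, h2⟩ := hx δ hδ
  exact ⟨h', h0, h1, le_trans (mul_le_mul_of_nonneg_right h (norm_nonneg _)) h2⟩

/-- Baire: uniform roughness on a ball. -/
lemma exists_ball [CompleteSpace X] [Nontrivial X]
    (hG : ∀ x : X, x ≠ 0 → ∃ L : X →L[ℝ] ℝ, IsGrad N x L)
    (hF : ∀ x : X, x ≠ 0 → ¬ DifferentiableAt ℝ N x) :
    ∃ (x₀ : X) (r ε : ℝ), x₀ ≠ 0 ∧ 0 < r ∧ 0 < ε ∧ ∀ x, ‖x - x₀‖ < r → Rough N ε x := by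
  have hcov : ⋃ n : ℕ, closure {y | Rough N (1 / ((n : ℝ) + 1)) y} = univ := by
    rw [eq_univ_iff_forall]
    intro x
    have : ∃ ε : ℝ, 0 < ε ∧ Rough N ε x := by
      by_cases hx : x = 0
      · subst hx
        exact ⟨2 * c₁, by linarith [hN.pos₁], hN.rough_zero⟩
      · obtain ⟨L, hL⟩ := hG x hx
        exact hN.rough_of_not_diff hL (hF x hx)
    obtain ⟨ε, hε, hr⟩ := this
    obtain ⟨n, hn⟩ := exists_nat_one_div_lt hε
    exact mem_iUnion.mpr ⟨n, subset_closure (rough_mono hn.le hr)⟩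
  obtain ⟨n, hn⟩ := nonempty_interior_of_iUnion_of_closed (fun n => isClosed_closure) hcov
  obtain ⟨x, hx⟩ := hn
  have hopen : IsOpen (interior (closure {y | Rough N (1 / ((n : ℝ) + 1)) y}) ∩ {x | x ≠ 0}) :=
    isOpen_interior.inter isOpen_ne
  have hne : (interior (closure {y | Rough N (1 / ((n : ℝ) + 1)) y}) ∩ {x | x ≠ 0}).Nonempty := by
    have : Dense {x : X | x ≠ 0} := dense_compl_singleton 0
    exact this.inter_open_nonempty _ isOpen_interior ⟨x, hx⟩
  obtain ⟨x₀, hx₀⟩ := hne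
  obtain ⟨r, hr, hball⟩ := Metric.isOpen_iff.mp hopen x₀ hx₀
  refine ⟨x₀, r, 1 / ((n : ℝ) + 1) / 2, hx₀.2, hr, by positivity, fun x hx => ?_⟩
  exact hN.rough_closure (by positivity) (interior_subset (hball (by
    rwa [Metric.mem_ball, dist_eq_norm])).1)

end EqNorm

end Pool.Agent.Work.MP_df74ac_an
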